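import Pool.Agent.H49.PM.CasA
import Pool.Agent.H67.SPN.Msh

/-!
# Plan M, the cases

`casM`: the size of the gradients of the leaves is chosen on a mesh; either the gradients are large
with positive probability, and the difference of two gradients is large; or the differences of the
gradients are small, and the determinants are small.
-/

set_option autoImplicit false

namespace Pool.PM49

open Finset Real MvPolynomial
open Pool.Agent.H49.Ent Pool.Agent.H32.Dense Pool.STK Pool.KA Pool.KSAT Pool.K2S Pool.PB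
  Pool.STAT Pool.GEN Pool.M3F Pool.KM7 Pool.S6C Pool.JPN Pool.PM Pool.MKC

section lvl

open Classical in
/-- The level of a size. -/
noncomputable def lvl (X Ln L Nl : ℕ) (Mv : ℝ) : ℕ :=
  Nat.findGreatest (fun j => j * X ≤ Ln ∧ j * X ≤ L ∧ Mv * 2 ^ (j * X) ≤ 2 ^ L) Nl

variable {X Ln L Nl : ℕ} {Mv : ℝ}

theorem lvl_le : lvl X Ln L Nl Mv ≤ Nl := by
  classical
  unfold lvl
  exact Nat.findGreatest_le Nl

theorem lvl_spec (h : 0 < lvl X Ln L Nl Mv) : lvl X Ln L Nl Mv * X ≤ Ln ∧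
    lvl X Ln L Nl Mv * X ≤ L ∧ Mv * 2 ^ (lvl X Ln L Nl Mv * X) ≤ 2 ^ L := by
  classical
  have h1 := Nat.findGreatest_of_ne_zero (P := fun j => j * X ≤ Ln ∧ j * X ≤ L ∧
    Mv * 2 ^ (j * X) ≤ 2 ^ L) (n := Nl) (m := lvl X Ln L Nl Mv) rfl h.ne'
  exact h1

theorem lvl_gt {j : ℕ} (h : lvl X Ln L Nl Mv = j) (hj : j < Nl) (h1 : (j + 1) * X ≤ Ln)
    (h2 : (j + 1) * X ≤ L) : (2 : ℝ) ^ L < Mv * 2 ^ ((j + 1) * X) := by
  classical
  have h3 := Nat.findGreatest_is_greatest (P := fun j => j * X ≤ Ln ∧ j * X ≤ L ∧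
    Mv * 2 ^ (j * X) ≤ 2 ^ L) (n := Nl) (k := j + 1) (by
      have : lvl X Ln L Nl Mv < j + 1 := by omega
      exact this) hj
  by_contra hcon
  push Not at hcon
  exact h3 ⟨h1, h2, hcon⟩

theorem lvl_mass {j : ℕ} (hj : 0 < j) (h : j ≤ lvl X Ln L Nl Mv) (hM : 0 ≤ Mv) :
    Mv * 2 ^ (j * X) ≤ 2 ^ L := by
  have h1 := (lvl_spec (lt_of_lt_of_le hj h)).2.2
  refine le_trans (mul_le_mul_of_nonneg_left (pow_le_pow_right₀ (by norm_num) ?_) hM) h1
  exact Nat.mul_le_mul_right X h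

end lvl

theorem Pe_le_supp {Ω : Type} [Fintype Ω] {p : Ω → ℝ} (hp : ∀ ω, 0 ≤ p ω) {A B : Ω → Prop}
    (h : ∀ ω, 0 < p ω → A ω → B ω) : Pe p A ≤ Pe p B := by
  classical
  rw [K2S.Pe_eq, K2S.Pe_eq]
  refine Finset.sum_le_sum fun ω _ => ?_
  rcases (hp ω).eq_or_lt with h0 | h0
  · rw [← h0]
    split_ifs <;> exact le_rfl
  · by_cases hA : A ω
    · rw [if_pos hA, if_pos (h ω h0 hA)]
    · rw [if_neg hA]
      split_ifs
      · exact h0.le
      · exact le_rfl

theorem Pe_le_one {Ω : Type} [Fintype Ω] {p : Ω → ℝ} (hp : IsLaw p) (A : Ω → Prop) :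
    Pe p A ≤ 1 := by
  have h1 := Pe_neg hp A
  have h2 := Pool.SPN.Pe_nn hp.nonneg (fun ω => ¬ A ω)
  linarith

/-- **(M4) The cases.** -/
theorem casM (m : ℕ) : CasM m 30 := by
  classical
  intro η₂ Nl hη₂ hη₂1
  refine ⟨min ((min η₂ 1 / 2) ^ (Nl + 1) / 4) (min η₂ 1), by positivity, ?_⟩
  intro J F A c K n₀ hK D hD hA _ X t hX hLn hLd hθ hL
  obtain ⟨p2, hp2⟩ : ∃ p2, p2 = P2 (pA F A) (slam F D.w₀) := ⟨_, rfl⟩
  have hl : IsLaw (pA F A) := isLaw_cond F.isLaw hA
  have h2 : IsLaw p2 := by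
    rw [hp2]
    exact P2_isLaw hl _
  have hPC : IsLaw (PC (pA F A) (slam F D.w₀) (ptr F J)) := PC_isLaw hl _ _
  have hm : 1 - D.η ≤ Pe p2 D.E := by
    rw [hp2]
    exact hD.mass
  have hη0 : 0 ≤ D.η := by
    have := Pe_le_one h2 D.E
    linarith
  rw [← hp2]
  rcases le_or_gt 1 (D.η + η₂) with hbig | hsmall
  -- the trivial case
  · refine ⟨min D.L D.Ln, min_le_left _ _, min_le_right _ _, Or.inr ?_, ?_⟩
    · have := Pool.SPN.Pe_nn h2.nonneg (fun e => D.E e ∧ D.M e * 2 ^ (min D.L D.Ln) ≤ 2 ^ D.L)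
      linarith
    · rcases le_total D.Ln D.L with h3 | h3
      · left
        rw [min_eq_right h3]
        omega
      · right
        right
        rw [min_eq_left h3]
        refine ⟨by omega, ?_⟩
        have := Pe_le_one hPC (fun e => D.Six D.L e ∧ ¬ D.Dets t e)
        push_cast
        linarith
  have hη1 : min η₂ 1 = η₂ := min_eq_left (by linarith)
  rw [hη1]
  -- the choice of the level
  obtain ⟨r, hr⟩ : ∃ r : F.Ω × F.Ω → ℕ, r = fun e =>
      if D.E e then lvl X D.Ln D.L Nl (D.M e) else Nl + 1 := ⟨_, rfl⟩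
  have hrE : ∀ e, D.E e → r e = lvl X D.Ln D.L Nl (D.M e) := fun e he => by
    rw [hr]
    simp only [if_pos he]
  have hrN : ∀ e, ¬ D.E e → r e = Nl + 1 := fun e he => by
    rw [hr]
    simp only [if_neg he]
  have hrM : ∀ e, r e ≤ Nl + 1 := by
    intro e
    by_cases he : D.E e
    · rw [hrE e he]
      exact lvl_le.trans (Nat.le_succ _)
    · rw [hrN e he]
  obtain ⟨j, hj, hj1, hj2⟩ := Pool.SPN.mesh (Nl + 1) hη₂ (by linarith) h2 r hrM
  have hj3 : Pe p2 (fun e => r e < j) ≤ η₂ := by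
    refine hj2.trans ?_
    have := Pe_le_one h2 (fun e => r e = j)
    nlinarith
  have hjN : j ≤ Nl := by
    by_contra hcon
    have h4 : j = Nl + 1 := by omega
    have h5 : Pe p2 D.E ≤ Pe p2 (fun e => r e < j) :=
      Pe_le_supp h2.nonneg fun e _ he => by
        rw [h4, hrE e he]
        exact Nat.lt_succ_of_le lvl_le
    linarith
  have hEr : ∀ e, r e = j → D.E e := by
    intro e he
    by_contra hcon
    rw [hrN e hcon] at he
    omega
  have hpos : 0 < (η₂ / 2) ^ (Nl + 1) / 4 := by positivity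
  obtain ⟨e₁, he₁, hr₁⟩ : ∃ e, 0 < p2 e ∧ r e = j := by
    by_contra hcon
    push Not at hcon
    have : Pe p2 (fun e => r e = j) ≤ Pe p2 (fun _ => False) :=
      Pe_le_supp h2.nonneg fun e h0 h => hcon e h0 h
    have h6 : Pe p2 (fun _ => False) = 0 := Pool.SPN.Pe_zero' fun _ h => h
    linarith
  have hRL : j * X ≤ D.Ln ∧ j * X ≤ D.L := by
    rcases Nat.eq_zero_or_pos j with h0 | h0
    · rw [h0, Nat.zero_mul]
      exact ⟨Nat.zero_le _, Nat.zero_le _⟩
    · have h5 := hrE e₁ (hEr e₁ hr₁)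
      rw [hr₁] at h5
      have h6 := lvl_spec (X := X) (Ln := D.Ln) (L := D.L) (Nl := Nl) (Mv := D.M e₁) (by
        rw [← h5]
        exact h0)
      rw [← h5] at h6
      exact ⟨h6.1, h6.2.1⟩
  obtain ⟨R, hR⟩ : ∃ R, R = j * X := ⟨_, rfl⟩
  have hR1 : (j + 1) * X = R + X := by
    rw [hR]
    ring
  rw [← hR] at hRL
  refine ⟨R, hRL.2, hRL.1, ?_, ?_⟩
  -- the mass
  · rcases Nat.eq_zero_or_pos j with h0 | h0
    · left
      rw [hR, h0, Nat.zero_mul]
    · right
      have h3 : Pe p2 D.E ≤ Pe p2 (fun e => D.E e ∧ D.M e * 2 ^ R ≤ 2 ^ D.L) +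
          Pe p2 (fun e => r e < j) := by
        refine Pe_two h2 fun e he => ?_
        rcases lt_or_ge (r e) j with h4 | h4
        · exact Or.inr h4
        · left
          refine ⟨he, ?_⟩
          rw [hrE e he] at h4
          rw [hR]
          exact lvl_mass h0 h4 (by linarith [hD.one e he])
      linarith
  -- the cases
  rcases le_or_gt D.Ln (R + X + 30 * (D.h + 1)) with c1 | c1
  · exact Or.inl c1
  right
  have hjN' : j < Nl := by
    by_contra hcon
    have h3 : j = Nl := by omega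
    rw [h3] at hR
    have := hRL.2
    omega
  have hu := uu_pos (F := F) D
  rcases le_or_gt (R + X + (6 * D.h + 9)) D.L with c2 | c2
  -- large gradients
  · left
    refine ⟨(D.d - D.L) + R + X + (6 * D.h + 9), by omega, ?_⟩
    refine le_trans (min_le_left _ _) (hj1.trans (Pe_le_supp h2.nonneg fun e _ he => ?_))
    have hE := hEr e he
    have hlv : lvl X D.Ln D.L Nl (D.M e) = j := (hrE e hE).symm.trans he
    have hM1 := hD.one e hE
    have h3 := lvl_gt hlv hjN' (by rw [hR1]; omega) (by rw [hR1]; omega)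
    rw [hR1] at h3
    have h4 : (2 : ℝ) ^ (D.L - (R + X)) < D.M e := by
      have h5 : (2 : ℝ) ^ D.L = 2 ^ (D.L - (R + X)) * 2 ^ (R + X) := by
        rw [← pow_add]
        congr 1
        omega
      rw [h5] at h3
      exact lt_of_mul_lt_mul_right h3 (by positivity)
    have hT : Thk D.h D.L D.Ln (D.M e) := by
      unfold Thk
      calc (2 : ℝ) ^ (D.L + D.h) ≤ 2 ^ (D.L - (R + X)) * 2 ^ D.Ln := by
            rw [← pow_add]
            exact pow_le_pow_right₀ (by norm_num) (by omega)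
        _ < D.M e * 2 ^ D.Ln := mul_lt_mul_of_pos_right h4 (by positivity)
    have h6 : (2 : ℝ) ^ (6 * D.h + 9) ≤ D.M e :=
      le_trans (pow_le_pow_right₀ (by norm_num) (by omega)) h4.le
    obtain ⟨i, hi⟩ := big hD hE hT h6
    refine ⟨hE, hT, lin_of hD hE hT (i := i) (le_trans ?_ hi) (le_trans ?_ hi)⟩
    · have h7 : (2 : ℝ) * 2 ^ (6 * D.h + 9) ≤ 2 ^ D.θ := by
        rw [← pow_succ']
        exact pow_le_pow_right₀ (by norm_num) (by omega)
      have h8 : 2 * (D.M e * uu D / 2 ^ D.θ) = 2 * (D.M e * uu D) / 2 ^ D.θ := by ring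
      rw [h8, div_le_div_iff₀ (by positivity) (by positivity)]
      have h9 : 0 ≤ D.M e * uu D := mul_nonneg (by linarith) hu.le
      nlinarith
    · have h7 : (2 : ℝ) ^ (D.L - (R + X)) * uu D / 2 ^ (6 * D.h + 9) ≤
          D.M e * uu D / 2 ^ (6 * D.h + 9) :=
        div_le_div_of_nonneg_right (mul_le_mul_of_nonneg_right h4.le hu.le) (by positivity)
      refine le_trans (le_of_eq ?_) h7
      unfold uu
      rw [mul_one_div, div_div, div_eq_div_iff (by positivity) (by positivity), one_mul,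
        ← pow_add, ← pow_add]
      congr 1
      omega
  -- all leaves are thick
  have hTh : ∀ e, D.E e → Thk D.h D.L D.Ln (D.M e) := by
    intro e he
    have hM1 := hD.one e he
    unfold Thk
    calc (2 : ℝ) ^ (D.L + D.h) < 2 ^ D.Ln := pow_lt_pow_right₀ (by norm_num) (by omega)
      _ ≤ D.M e * 2 ^ D.Ln := le_mul_of_one_le_left (by positivity) hM1
  -- large differences
  obtain ⟨Lg, hLg⟩ : ∃ Lg : F.Ω × F.Ω → Prop, Lg = fun e => D.E e ∧
      D.M e ≤ 2 ^ (X + (6 * D.h + 9)) ∧ ∃ i, 1 / 2 ^ (t + 2 * D.h + 5) * uu D <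
        |ga hK c D e i - gb hK c D e.1 i| := ⟨_, rfl⟩
  rcases le_or_gt η₂ (Pe p2 Lg) with c3 | c3
  · left
    refine ⟨D.d + (t + 2 * D.h + 5), by omega, ?_⟩
    refine le_trans (min_le_right _ _) (c3.trans (Pe_le_supp h2.nonneg fun e _ he => ?_))
    rw [hLg] at he
    obtain ⟨hE, hM, i, hi⟩ := he
    refine ⟨hE, hTh e hE, lin_of hD hE (hTh e hE) (i := i) (le_trans ?_ hi.le)
      (le_trans (le_of_eq ?_) hi.le)⟩
    · have h7 : 2 * (D.M e * uu D / 2 ^ D.θ) = 2 * D.M e / 2 ^ D.θ * uu D := by ring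
      rw [h7]
      refine mul_le_mul_of_nonneg_right ?_ hu.le
      rw [div_le_div_iff₀ (by positivity) (by positivity), one_mul]
      calc 2 * D.M e * 2 ^ (t + 2 * D.h + 5)
          ≤ 2 * 2 ^ (X + (6 * D.h + 9)) * 2 ^ (t + 2 * D.h + 5) :=
            mul_le_mul_of_nonneg_right (mul_le_mul_of_nonneg_left hM (by norm_num)) (by positivity)
        _ = 2 ^ (X + (6 * D.h + 9) + 1 + (t + 2 * D.h + 5)) := by
            rw [← pow_succ', ← pow_add]
        _ ≤ 2 ^ D.θ := pow_le_pow_right₀ (by norm_num) (by omega)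
    · unfold uu
      rw [one_div_mul_one_div, ← pow_add]
      congr 2
      ring
  -- small differences
  · right
    refine ⟨by omega, ?_⟩
    have hLp : Pe p2 Lg ≤ η₂ := c3.le
    have k1 : Pe (PC (pA F A) (slam F D.w₀) (ptr F J)) (fun e => D.Six R e ∧ ¬ D.Dets t e) ≤
        Pe (PC (pA F A) (slam F D.w₀) (ptr F J))
          (fun e => ¬ ∀ q ∈ prs, ¬ Lg (smp e q.1, smp e q.2)) := by
      refine Pe_le_supp hPC.nonneg fun e he hs hcon => ?_
      refine hs.2 (dets_of hD (spp hA he) (R := R) (by omega) hRL.1 hs.1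
        (fun q hq => hTh _ (hs.1 q hq).1) fun q hq i => ?_)
      by_contra h5
      push Not at h5
      refine hcon q hq ?_
      rw [hLg]
      refine ⟨(hs.1 q hq).1, ?_, i, h5⟩
      have h6 := (hs.1 q hq).2
      have h7 : (2 : ℝ) ^ D.L ≤ 2 ^ (X + (6 * D.h + 9)) * 2 ^ R := by
        rw [← pow_add]
        exact pow_le_pow_right₀ (by norm_num) (by omega)
      exact le_of_mul_le_mul_right (h6.trans h7) (by positivity)
    have k2 := Pe_list hPC prs (fun q e => ¬ Lg (smp e q.1, smp e q.2)) (η := η₂) fun q hq => by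
      have h5 := Pe_psh (psh_prs hl (slam F D.w₀) (ptr F J) q hq) (fun e => ¬ ¬ Lg e)
      have h6 : Pe p2 (fun e => ¬ ¬ Lg e) ≤ Pe p2 Lg :=
        Pe_le_supp h2.nonneg fun e _ h => not_not.1 h
      rw [← hp2] at h5
      exact (le_of_eq h5).trans (h6.trans hLp)
    have k3 : ((prs.length : ℕ) : ℝ) = 10 := by
      have : prs.length = 10 := rfl
      rw [this]
      norm_num
    rw [k3] at k2
    push_cast
    linarith

end Pool.PM49
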