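import Pool.Agent.H49.PM.Pru
import Pool.Agent.H3.PM.Arz

/-!
# Plan M: the pairs of windows, without hypotheses about arrays

`arrH`: the arrays exist. `pairU_pk`: the facts for the pairs of windows before the window at which
the last row is reached.
-/

set_option autoImplicit false

namespace Pool.PM49

open Pool.PB Pool.GEN Pool.S6C Pool.PKG Pool.R1 Pool.STK Pool.KA Pool.KSAT Pool.K2S Pool.GRW
  Pool.M3F Pool.Agent.H32.Dense
open Pool.ONE (Mic Sta Jmp)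
open Pool.PM (PkA PairU LastW BadR ConT)

/-- **The arrays exist.** -/
theorem arrH (hKP : KP 3) : ArrH := by
  intro c₀ hc₀ Cl hCl D
  obtain ⟨c₁, Ca, h1, h2⟩ := Pool.TUB.arrS hKP hc₀ hCl D
  exact ⟨c₁, Ca, h1, h2⟩

/-- **The facts for the pairs of windows**, before the window at which the last row is reached. -/
theorem pairU_pk (hZ : ∀ k, 1 ≤ k → k < 4 → FZX k)
    (hM : ∀ k, 2 ≤ k → k < 4 → Mic k ∧ Sta k ∧ Jmp k) {hn : 2 ≤ 4} {S : PCl 4} {P : ℝ → ℝ → ℝ}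
    {r : ℝ → ℝ} {P' : ℕ → List (Fin 4) × Fin 4 → ℝ → ℝ → ℝ}
    {Λ : Finset (Fin 4) → Fin 4 → ℝ → ℝ → ℝ} {pa : Equiv.Perm (Fin (4 - 1)) → Fin 4 → ℝ → ℝ}
    (H : PkA hn S P r P' Λ pa) {u : ℝ} (hu : LastW P u) (hbad : BadR r) (hcon : ConT P u) :
    PairU hn S P r P' Λ pa u :=
  pairU_of hZ hM (arrH (Pool.GEN.kp_fzx (hZ 3 (by norm_num) (by norm_num)))) H hu hbad hcon

end Pool.PM49
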