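import Pool.Agent.H71.MKC.Det

/-!
# Plan M, the cases: one pair and six samples

`slp`: the gradients of a leaf and its slopes. `big`: a large gradient is far from the gradient of
the own leaf. `lin_of`: a large difference is nearly affine. `dets_of`: if the gradients of the
leaves of six samples are near to the gradient of the own leaf, the determinants are small.
-/

set_option autoImplicit false

namespace Pool.PM49

open Finset Real MvPolynomial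
open Pool.Agent.H49.Ent Pool.Agent.H32.Dense Pool.STK Pool.KA Pool.KSAT Pool.K2S Pool.PB
  Pool.STAT Pool.GEN Pool.M3F Pool.KM7 Pool.S6C Pool.JPN Pool.PM Pool.MKC
open Pool.JMN (shf tdg)
open Pool.SPN (sg1 sig_max sig_lin sig_dt tdg_sg1 shf_sub)

variable {m J K n₀ : ℕ} {F : Fam m J} {A : F.Ω → Prop} {c : ℕ → Fin m}

/-- The unit of the gradients. -/
noncomputable def uu (D : PDat F K n₀) : ℝ := 1 / 2 ^ (D.sg + D.g 3 + D.d)

theorem uu_pos (D : PDat F K n₀) : 0 < uu D := by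
  unfold uu
  positivity

/-- The gradient of the leaf of the second sample. -/
noncomputable def ga (hK : 1 ≤ K) (c : ℕ → Fin m) (D : PDat F K n₀) (e : F.Ω × F.Ω) (i : Fin 3) :
    ℝ := gr hK (yc 3 F c D.P D.z₀ D.g D.d e.1) (D.a e) (D.χ (D.z₀ (ptr F J e.1))) i

/-- The gradient of the own leaf. -/
noncomputable def gb (hK : 1 ≤ K) (c : ℕ → Fin m) (D : PDat F K n₀) (ω : F.Ω) (i : Fin 3) :
    ℝ := gr hK (yc 3 F c D.P D.z₀ D.g D.d ω) (D.b ω) (D.χ (D.z₀ (ptr F J ω))) i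

theorem ga_sub (hK : 1 ≤ K) (c : ℕ → Fin m) (D : PDat F K n₀) (e : F.Ω × F.Ω) (i : Fin 3) :
    ga hK c D e i - gb hK c D e.1 i =
      shf (yc 3 F c D.P D.z₀ D.g D.d e.1) (fun α => D.a e α - D.b e.1 α) (sg1 hK i) := by
  rw [shf_sub]
  unfold ga gb gr
  ring

/-- The slopes and the gradients. -/
theorem slp {h L Ln : ℕ} {u M N s p n : ℝ} (hu : 0 ≤ u) (hM : M ≤ 2 ^ (L + h)) (hM0 : 0 ≤ M)
    (hN : |N| ≤ 2 ^ h)
    (hl : |u * N - (p + n * s)| ≤ 2 ^ h * u * (1 / 2 ^ Ln + M / 2 ^ L)) :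
    |p + n * s| ≤ 2 ^ (2 * h + 2) * u := by
  have hP : (1 : ℝ) ≤ 2 ^ h := one_le_pow₀ (by norm_num)
  have e1 : p + n * s = u * N - (u * N - (p + n * s)) := by ring
  have e2 : |u * N| ≤ u * 2 ^ h := by
    rw [abs_mul, abs_of_nonneg hu]
    exact mul_le_mul_of_nonneg_left hN hu
  have e3 : (1 : ℝ) / 2 ^ Ln ≤ 1 := by
    rw [div_le_one (by positivity)]
    exact one_le_pow₀ (by norm_num)
  have e4 : M / 2 ^ L ≤ 2 ^ h := by
    rw [div_le_iff₀ (by positivity), ← pow_add, add_comm h L]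
    exact hM
  have e5 : (2 : ℝ) ^ h * u * (1 / 2 ^ Ln + M / 2 ^ L) ≤ 2 ^ h * u * (2 * 2 ^ h) :=
    mul_le_mul_of_nonneg_left (by linarith) (by positivity)
  rw [e1]
  refine (abs_sub _ _).trans ?_
  have e6 : (2 : ℝ) ^ (2 * h + 2) = 4 * (2 ^ h * 2 ^ h) := by
    rw [pow_add, two_mul, pow_add]
    ring
  rw [e6]
  have e7 : u * 2 ^ h ≤ 2 ^ h * 2 ^ h * u := by
    have : (1 : ℝ) * (2 ^ h * u) ≤ 2 ^ h * (2 ^ h * u) :=
      mul_le_mul_of_nonneg_right hP (by positivity)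
    linarith
  have e8 : (0 : ℝ) ≤ 2 ^ h * 2 ^ h * u := by positivity
  linarith [e2, hl.trans e5]

/-- **A large gradient is far from the gradient of the own leaf.** -/
theorem big {hK : 1 ≤ K} {D : PDat F K n₀} (hD : D.Ok hK A c) {e : F.Ω × F.Ω} (he : D.E e)
    (ht : Thk D.h D.L D.Ln (D.M e)) (hM : (2 : ℝ) ^ (6 * D.h + 9) ≤ D.M e) :
    ∃ i, D.M e * uu D / 2 ^ (6 * D.h + 9) ≤ |ga hK c D e i - gb hK c D e.1 i| := by
  have hu := uu_pos D
  have h1 := hD.one e he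
  have hM0 : 0 ≤ D.M e := by linarith
  obtain ⟨i0, hi0⟩ : ∃ i0 : Fin 3, ∀ i, |ga hK c D e i - gb hK c D e.1 i| ≤
      |ga hK c D e i0 - gb hK c D e.1 i0| :=
    Finite.exists_max fun i : Fin 3 => |ga hK c D e i - gb hK c D e.1 i|
  refine ⟨i0, ?_⟩
  obtain ⟨g, hg⟩ : ∃ g, g = |ga hK c D e i0 - gb hK c D e.1 i0| := ⟨_, rfl⟩
  rw [← hg] at hi0 ⊢
  have hsz := hD.siz e he
  have hle : (2 : ℝ) ^ D.h ≤ 2 ^ (2 * D.h + 2) := pow_le_pow_right₀ (by norm_num) (by omega)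
  have ka : ∀ b : Fin 2, |ga hK c D e b.castSucc + ga hK c D e (Fin.last 2) *
      D.lf (D.z₁ (ptr F J e.2)) (D.z₀ (ptr F J e.1)) 0 (Fin.natAdd 2 b)| ≤
      2 ^ (2 * D.h + 2) * uu D := fun b =>
    slp hu.le (hD.mle e he) hM0 (hsz 1 (Fin.natAdd 2 b)).2 (hD.lka e he ht b)
  have kb : ∀ b : Fin 2, |gb hK c D e.1 b.castSucc + gb hK c D e.1 (Fin.last 2) *
      D.lf (D.z₁ (ptr F J e.1)) (D.z₀ (ptr F J e.1)) 0 (Fin.natAdd 2 b)| ≤
      2 ^ (2 * D.h + 2) * uu D := fun b =>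
    slp hu.le (hD.mle e he) hM0 (hsz 1 (Fin.natAdd 2 b)).1 (hD.lkb e he ht b)
  have hsep : 1 / (2 : ℝ) ^ (2 * D.h + 2) ≤
      |D.lf (D.z₁ (ptr F J e.2)) (D.z₀ (ptr F J e.1)) 0 (Fin.natAdd 2 (1 : Fin 2)) -
        D.lf (D.z₁ (ptr F J e.1)) (D.z₀ (ptr F J e.1)) 0 (Fin.natAdd 2 (1 : Fin 2))| := by
    have h3 : (Fin.natAdd 2 (1 : Fin 2) : Fin 4) = 3 := rfl
    rw [h3, abs_sub_comm]
    refine le_trans ?_ (hD.fal e he)
    exact one_div_le_one_div_of_le (by positivity) hle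
  have key := sig_max (k := 2) (h := 2 * D.h + 2) (u := uu D) (g := g)
    (ρa := fun b => D.lf (D.z₁ (ptr F J e.2)) (D.z₀ (ptr F J e.1)) 0 (Fin.natAdd 2 b))
    (ρb := fun b => D.lf (D.z₁ (ptr F J e.1)) (D.z₀ (ptr F J e.1)) 0 (Fin.natAdd 2 b))
    (pa := fun b => ga hK c D e b.castSucc) (pb := fun b => gb hK c D e.1 b.castSucc)
    (na := ga hK c D e (Fin.last 2)) (nb := gb hK c D e.1 (Fin.last 2)) 1 hu.le
    (fun b => (hsz 0 (Fin.natAdd 2 b)).2.trans hle) (fun b => (hsz 0 (Fin.natAdd 2 b)).1.trans hle)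
    hsep ka kb (fun b => hi0 b.castSucc) (hi0 (Fin.last 2))
  have hex : 3 * (2 * D.h + 2) + 2 = 6 * D.h + 8 := by ring
  rw [hex] at key
  have k2 : ∀ i, |ga hK c D e i| ≤ 2 ^ (6 * D.h + 8) * (uu D + g) ∧
      |gb hK c D e.1 i| ≤ 2 ^ (6 * D.h + 8) * (uu D + g) := by
    intro i
    rcases Fin.eq_castSucc_or_eq_last i with ⟨l, rfl⟩ | rfl
    · exact key.2 l
    · exact key.1
  have hpw : (2 : ℝ) ^ (6 * D.h + 9) = 2 * 2 ^ (6 * D.h + 8) := by
    rw [pow_succ]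
    ring
  have k3 : D.M e * uu D ≤ 2 ^ (6 * D.h + 8) * (uu D + g) := by
    rcases hD.lo e he ht with h2 | ⟨i, h2 | h2⟩
    · exfalso
      rw [h2, hpw] at hM
      have : (1 : ℝ) ≤ 2 ^ (6 * D.h + 8) := one_le_pow₀ (by norm_num)
      linarith
    · exact h2.trans (k2 i).1
    · exact h2.trans (k2 i).2
  rw [div_le_iff₀ (by positivity)]
  rw [hpw] at hM ⊢
  have k4 : 2 * 2 ^ (6 * D.h + 8) * uu D ≤ D.M e * uu D := mul_le_mul_of_nonneg_right hM hu.le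
  linarith

/-- **A large difference of the gradients is nearly affine.** -/
theorem lin_of {hK : 1 ≤ K} {D : PDat F K n₀} (hD : D.Ok hK A c) {e : F.Ω × F.Ω} (he : D.E e)
    (ht : Thk D.h D.L D.Ln (D.M e)) {i : Fin 3} {p : ℕ}
    (h1 : 2 * (D.M e * uu D / 2 ^ D.θ) ≤ |ga hK c D e i - gb hK c D e.1 i|)
    (h2 : 1 / 2 ^ p ≤ |ga hK c D e i - gb hK c D e.1 i|) : D.Lin c p e := by
  rw [ga_sub] at h1 h2
  refine sig_lin (η := 2 * (D.M e * uu D / 2 ^ D.θ)) (fun al hal => ?_)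
    ⟨sg1 hK i, tdg_sg1 hK i, h1, h2⟩
  rw [shf_sub]
  have h3 := hD.hi e he ht al hal
  refine (abs_sub _ _).trans ?_
  have h4 : D.M e * uu D / 2 ^ D.θ = D.M e * (1 / 2 ^ (D.sg + D.g 3 + D.d)) / 2 ^ D.θ := rfl
  rw [h4]
  linarith [h3.1, h3.2]

/-! ### Six samples -/

/-- The gradient of a leaf at the exact point, near to the own one. -/
def Grd (hK : 1 ≤ K) (c : ℕ → Fin m) (D : PDat F K n₀) (e : C8 F.Ω) (δ ε : ℝ) (i : Fin 6) :
    Prop :=
  ∃ (p : Fin 2 → ℝ) (n : ℝ),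
    (∀ b : Fin 2, |uu D * D.lfo e i 1 (Fin.natAdd 2 b) -
      (p b + n * D.lfo e i 0 (Fin.natAdd 2 b))| ≤ δ * uu D) ∧
    (∀ b : Fin 2, |p b - gb hK c D e.1.1.1 b.castSucc| ≤ ε * uu D) ∧
    |n - gb hK c D e.1.1.1 (Fin.last 2)| ≤ ε * uu D ∧
    ∀ (b : Fin 2) (j : Fin 2), |D.lfo e i j (Fin.natAdd 2 b)| ≤ 2 ^ D.h

/-- The determinants of three leaves. -/
theorem dts_le {hK : 1 ≤ K} {D : PDat F K n₀} {e : C8 F.Ω} {δ ε : ℝ} (hε : 2 * ε ≤ δ)
    (h1 : Grd hK c D e δ ε 1) (h2 : Grd hK c D e δ ε 2) {i : Fin 6} (hi : Grd hK c D e δ ε i)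
    (b : Fin 2) : |D.dts e i (Fin.natAdd 2 b)| ≤ 2 ^ (2 * D.h + 4) * δ := by
  have hu := uu_pos D
  obtain ⟨p1, n1, a1, a2, a3, a4⟩ := h1
  obtain ⟨p2, n2, b1, b2, b3, b4⟩ := h2
  obtain ⟨p3, n3, c1, c2, c3, c4⟩ := hi
  have hδu : 2 * (ε * uu D) ≤ δ * uu D := by
    rw [← mul_assoc]
    exact mul_le_mul_of_nonneg_right hε hu.le
  have hεu : 0 ≤ ε * uu D := (abs_nonneg _).trans a3
  have tri : ∀ {x y z : ℝ}, |x - z| ≤ ε * uu D → |y - z| ≤ ε * uu D → |x - y| ≤ δ * uu D := by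
    intro x y z hx hy
    have e1 : x - y = (x - z) - (y - z) := by ring
    rw [e1]
    refine (abs_sub _ _).trans ?_
    linarith
  have key := sig_dt (h := D.h) (δ := δ) (u := uu D) hu
    (s := ![fun b j => D.lfo e 1 j (Fin.natAdd 2 b), fun b j => D.lfo e 2 j (Fin.natAdd 2 b),
      fun b j => D.lfo e i j (Fin.natAdd 2 b)])
    (p := ![p1, p2, p3]) (n := ![n1, n2, n3])
    (by
      intro l b j
      fin_cases l
      · exact a4 b j
      · exact b4 b j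
      · exact c4 b j)
    (by
      intro l b
      fin_cases l
      · exact a1 b
      · exact b1 b
      · exact c1 b)
    (by
      intro l b
      fin_cases l
      · exact tri (a2 b) (a2 b)
      · exact tri (b2 b) (a2 b)
      · exact tri (c2 b) (a2 b))
    (by
      intro l
      fin_cases l
      · exact tri a3 a3
      · exact tri b3 a3
      · exact tri c3 a3) 1 b
  exact le_trans (le_of_eq rfl) key

/-- The gradient of the own leaf is a function of the point. -/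
theorem gb_copy {hK : 1 ≤ K} {D : PDat F K n₀} (hD : D.Ok hK A c) {ω ω' : F.Ω} (h : A ω)
    (h' : A ω') (hp : ptr F J ω' = ptr F J ω) (i : Fin 3) :
    gb hK c D ω' i = gb hK c D ω i := by
  have hb : D.b ω' = D.b ω := by
    refine hD.db ω' ω h' h ?_ (Prod.ext_iff.1 hp).2 ?_ ?_
    · rw [← hD.cls₁ ω h, ← hD.cls₁ ω' h', hp]
    · rw [← hD.cls₀ ω h, ← hD.cls₀ ω' h', hp]
    · unfold ce ntc
      rw [hp]
  have hy : yc 3 F c D.P D.z₀ D.g D.d ω' = yc 3 F c D.P D.z₀ D.g D.d ω := by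
    unfold yc ce ntc
    rw [hp]
  unfold gb
  rw [hb, hy, hp]

/-- The error of the slopes. -/
theorem err_le {h L Ln R t : ℕ} {M : ℝ} (hR : t + 3 * h + 5 ≤ R) (hRn : R ≤ Ln)
    (hM : M * 2 ^ R ≤ 2 ^ L) {u : ℝ} (hu : 0 ≤ u) :
    2 ^ h * u * (1 / 2 ^ Ln + M / 2 ^ L) ≤ 2 * (1 / 2 ^ (t + 2 * h + 5)) * u := by
  have a1 : (1 : ℝ) / 2 ^ Ln ≤ 1 / 2 ^ R :=
    one_div_le_one_div_of_le (by positivity) (pow_le_pow_right₀ (by norm_num) hRn)
  have a2 : M / 2 ^ L ≤ 1 / 2 ^ R := by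
    rw [div_le_div_iff₀ (by positivity) (by positivity), one_mul]
    exact hM
  have a3 : (2 : ℝ) ^ h * (1 / 2 ^ R) ≤ 1 / 2 ^ (t + 2 * h + 5) := by
    rw [mul_one_div, div_le_div_iff₀ (by positivity) (by positivity), one_mul, ← pow_add]
    exact pow_le_pow_right₀ (by norm_num) (by omega)
  calc 2 ^ h * u * (1 / 2 ^ Ln + M / 2 ^ L) ≤ 2 ^ h * u * (1 / 2 ^ R + 1 / 2 ^ R) :=
        mul_le_mul_of_nonneg_left (add_le_add a1 a2) (by positivity)
    _ = 2 * (2 ^ h * (1 / 2 ^ R)) * u := by ring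
    _ ≤ _ := mul_le_mul_of_nonneg_right (by linarith) hu

/-- **Small differences of the gradients: small determinants.** -/
theorem dets_of {hK : 1 ≤ K} {D : PDat F K n₀} (hD : D.Ok hK A c) {e : C8 F.Ω}
    (S : Spp F D.w₀ A e) {R t : ℕ} (hR : t + 3 * D.h + 5 ≤ R) (hRn : R ≤ D.Ln) (hs : D.Six R e)
    (hth : ∀ q ∈ prs, Thk D.h D.L D.Ln (D.M (smp e q.1, smp e q.2)))
    (hg : ∀ q ∈ prs, ∀ i, |ga hK c D (smp e q.1, smp e q.2) i - gb hK c D (smp e q.1) i| ≤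
      1 / 2 ^ (t + 2 * D.h + 5) * uu D) : D.Dets t e := by
  have hu := uu_pos D
  have hε0 : (0 : ℝ) ≤ 1 / 2 ^ (t + 2 * D.h + 5) := by positivity
  -- a foreign leaf at the first point
  have k1 : ∀ i, ((0 : Fin 6), i) ∈ prs →
      Grd hK c D e (2 * (1 / 2 ^ (t + 2 * D.h + 5))) (1 / 2 ^ (t + 2 * D.h + 5)) i := by
    intro i hi
    obtain ⟨hE, hM⟩ := hs _ hi
    have hT := hth _ hi
    have hG := hg _ hi
    have hsz := hD.siz _ hE
    refine ⟨fun b => ga hK c D (smp e 0, smp e i) b.castSucc,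
      ga hK c D (smp e 0, smp e i) (Fin.last 2), fun b => ?_, fun b => hG b.castSucc,
      hG (Fin.last 2), fun b j => (hsz j (Fin.natAdd 2 b)).2⟩
    exact (hD.lka _ hE hT b).trans (err_le hR hRn hM hu.le)
  -- a foreign leaf at the copy
  have k2 : ∀ i, ((3 : Fin 6), i) ∈ prs →
      Grd hK c D e (2 * (1 / 2 ^ (t + 2 * D.h + 5))) (1 / 2 ^ (t + 2 * D.h + 5)) i := by
    intro i hi
    obtain ⟨hE, hM⟩ := hs _ hi
    have hT := hth _ hi
    have hG := hg _ hi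
    have hsz := hD.siz _ hE
    have hc : ∀ l, gb hK c D (smp e 3) l = gb hK c D (smp e 0) l := fun l =>
      gb_copy hD (S.mem 0) (S.mem 3) S.pt l
    have hz : D.z₀ (ptr F J (smp e 3)) = D.z₀ (ptr F J e.1.1.1) := congrArg D.z₀ S.pt
    have hlf : ∀ j, D.lfo e i j = D.lf (D.z₁ (ptr F J (smp e i))) (D.z₀ (ptr F J (smp e 3))) j :=
      fun j => by
        unfold PDat.lfo
        rw [hz]
    refine ⟨fun b => ga hK c D (smp e 3, smp e i) b.castSucc,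
      ga hK c D (smp e 3, smp e i) (Fin.last 2), fun b => ?_, fun b => ?_, ?_, fun b j => ?_⟩
    · rw [hlf, hlf]
      exact (hD.lka _ hE hT b).trans (err_le hR hRn hM hu.le)
    · have := hG b.castSucc
      rw [hc] at this
      exact this
    · have := hG (Fin.last 2)
      rw [hc] at this
      exact this
    · rw [hlf]
      exact (hsz j (Fin.natAdd 2 b)).2
  have h01 : ((0 : Fin 6), (1 : Fin 6)) ∈ prs := by unfold prs; simp
  have h02 : ((0 : Fin 6), (2 : Fin 6)) ∈ prs := by unfold prs; simp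
  have h34 : ((3 : Fin 6), (4 : Fin 6)) ∈ prs := by unfold prs; simp
  have h35 : ((3 : Fin 6), (5 : Fin 6)) ∈ prs := by unfold prs; simp
  -- the own leaf
  have k0 : Grd hK c D e (2 * (1 / 2 ^ (t + 2 * D.h + 5))) (1 / 2 ^ (t + 2 * D.h + 5)) 0 := by
    obtain ⟨hE, hM⟩ := hs _ h01
    have hT := hth _ h01
    have hsz := hD.siz _ hE
    refine ⟨fun b => gb hK c D e.1.1.1 b.castSucc, gb hK c D e.1.1.1 (Fin.last 2), fun b => ?_,
      fun b => ?_, ?_, fun b j => (hsz j (Fin.natAdd 2 b)).1⟩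
    · exact (hD.lkb _ hE hT b).trans (err_le hR hRn hM hu.le)
    · rw [sub_self, abs_zero]
      positivity
    · rw [sub_self, abs_zero]
      positivity
  have fin : ∀ i, Grd hK c D e (2 * (1 / 2 ^ (t + 2 * D.h + 5))) (1 / 2 ^ (t + 2 * D.h + 5)) i →
      ∀ b : Fin 2, |D.dts e i (Fin.natAdd 2 b)| ≤ 1 / 2 ^ t := by
    intro i hi b
    refine (dts_le le_rfl (k1 1 h01) (k1 2 h02) hi b).trans (le_of_eq ?_)
    have e1 : (2 : ℝ) ^ (t + 2 * D.h + 5) = 2 ^ t * (2 ^ (2 * D.h + 4) * 2) := by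
      rw [← pow_succ, ← pow_add]
      congr 1
    rw [e1]
    field_simp
  intro q hq
  have hq' : q ∈ [((0 : Fin 6), (2 : Fin 4)), (0, 3), (4, 2), (4, 3), (5, 3)] := hq
  simp only [List.mem_cons, List.not_mem_nil, or_false] at hq'
  rcases hq' with rfl | rfl | rfl | rfl | rfl
  · exact fin 0 k0 0
  · exact fin 0 k0 1
  · exact fin 4 (k2 4 h34) 0
  · exact fin 4 (k2 4 h34) 1
  · exact fin 5 (k2 5 h35) 1

end Pool.PM49
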