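import Pool.Agent.H96.R1.Two
import Pool.Agent.H93.PM.Afl
import Pool.Agent.H69.NJ.Pk

/-!
# The affine threshold of the third coordinate

`afl_le_vs`: the threshold of the affine labels of a coordinate over the coordinates before it is at
most its number. `afl_ge_lam`: it is at least the number over the active coordinate.
-/

set_option autoImplicit false

namespace Pool.PM49

open Finset Real MvPolynomial
open Pool.Agent.H49.Ent Pool.Agent.H32.Dense Pool.STK Pool.KA Pool.KSAT Pool.K2S Pool.PB Pool.S6C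
open Pool.GEN Pool.GRW Pool.R1
open Pool.STAT (PN)
open Pool.M3F (px)
open Pool.PM26 (Afl)
open Pool.PM93 (AflOf)

variable {m n J : ℕ}

/-- The rounded positions are functions of the digits. -/
theorem px_digits {F : Fam m J} {c : ℕ → Fin m} {ω ω' : F.Ω} {i : ℕ}
    (ht : F.T ω = F.T ω') (h : ∀ l < i, F.X J ω (c l) = F.X J ω' (c l)) :
    ∀ l ∈ range (i + 1), px c (ptr F J ω) l = px c (ptr F J ω') l := by
  intro l hl
  rcases Nat.eq_zero_or_pos l with rfl | h0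
  · show ((F.T ω : ℕ) : ℝ) / 2 ^ J = ((F.T ω' : ℕ) : ℝ) / 2 ^ J
    rw [ht]
  · obtain ⟨k, rfl⟩ : ∃ k, l = k + 1 := ⟨l - 1, by omega⟩
    have h1 := h k (by have := mem_range.1 hl; omega)
    show ((F.X J ω (c k) : ℤ) : ℝ) / 2 ^ J = ((F.X J ω' (c k) : ℤ) : ℝ) / 2 ^ J
    rw [h1]

/-- An affine label bounds the entropy of its coordinate. -/
theorem afl_cell {F : Fam m J} {A : F.Ω → Prop} {c : ℕ → Fin m} {i w P : ℕ} {V : Type}
    {z : PtT F → V} {z' : LnT F → V} {Q : V → PN}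
    (hv : ∀ v, (Q v).totalDegree ≤ 1 ∧ (Q v).vars ⊆ range (i + 1))
    (hcl : ∀ ω, A ω → z (ptr F J ω) = z' (slam F w ω))
    (hps : ∀ ω, A ω → |px c (ptr F J ω) (i + 1) - eval (px c (ptr F J ω)) (Q (z (ptr F J ω)))| ≤
      1 / 2 ^ P) (hP : P ≤ J) {q : F.Ω → ℝ} (hq : IsLaw q) (hqA : ∀ ω, 0 < q ω → A ω)
    {S : Type*} {C : F.Ω → S} (hC : ∀ ω ω', 0 < q ω → 0 < q ω' → C ω = C ω' →
      (∀ l < i, F.X J ω (c l) = F.X J ω' (c l)) ∧ z' (slam F w ω) = z' (slam F w ω') ∧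
        F.T ω = F.T ω') :
    CH q (fun ω => F.X J ω (c i)) C ≤ ((J : ℝ) - P) * Real.log 2 + Real.log 9 := by
  classical
  have hJ0 : (0 : ℝ) < 2 ^ J := by positivity
  have hM : ∀ ω ω', 0 < q ω → 0 < q ω' → C ω = C ω' →
      |((F.X J ω (c i) - F.X J ω' (c i) : ℤ) : ℝ)| ≤ 4 * 2 ^ (J - P) := by
    intro ω ω' hω hω' hcc
    obtain ⟨h1, h2, h3⟩ := hC ω ω' hω hω' hcc
    have h4 := hps ω (hqA ω hω)
    have h5 := hps ω' (hqA ω' hω')
    have e1 : eval (px c (ptr F J ω')) (Q (z (ptr F J ω'))) =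
        eval (px c (ptr F J ω)) (Q (z (ptr F J ω))) := by
      rw [hcl ω' (hqA ω' hω'), hcl ω (hqA ω hω), ← h2]
      refine MvPolynomial.eval₂Hom_congr' rfl (fun l hl _ => ?_) rfl
      exact (px_digits h3 h1 l ((hv _).2 hl)).symm
    rw [e1] at h5
    have e2 : px c (ptr F J ω) (i + 1) = ((F.X J ω (c i) : ℤ) : ℝ) / 2 ^ J := rfl
    have e3 : px c (ptr F J ω') (i + 1) = ((F.X J ω' (c i) : ℤ) : ℝ) / 2 ^ J := rfl
    rw [e2] at h4
    rw [e3] at h5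
    have h6 : |((F.X J ω (c i) : ℤ) : ℝ) / 2 ^ J - ((F.X J ω' (c i) : ℤ) : ℝ) / 2 ^ J| ≤
        2 / 2 ^ P := by
      have e4 : (2 : ℝ) / 2 ^ P = 1 / 2 ^ P + 1 / 2 ^ P := by ring
      rw [e4]
      rw [abs_le] at h4 h5 ⊢
      constructor <;> linarith [h4.1, h4.2, h5.1, h5.2]
    rw [← sub_div, abs_div, abs_of_pos hJ0, div_le_iff₀ hJ0] at h6
    have e5 : (2 : ℝ) / 2 ^ P * 2 ^ J = 2 * 2 ^ (J - P) := by
      have e6 : (2 : ℝ) ^ J = 2 ^ (J - P) * 2 ^ P := by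
        rw [← pow_add]
        congr 1
        omega
      rw [e6]
      field_simp
    rw [e5] at h6
    push_cast
    have : (0 : ℝ) < 2 ^ (J - P) := by positivity
    linarith
  have h1 := CH_le_int hq.nonneg hq.sum_one (fun ω => F.X J ω (c i)) C
    (fun _ => 4 * 2 ^ (J - P)) hM
  rw [Ex_const hq.sum_one] at h1
  refine h1.trans ?_
  have h2 : 2 * (4 * (2 : ℝ) ^ (J - P)) + 1 ≤ 2 ^ (J - P) * 9 := by
    have : (1 : ℝ) ≤ 2 ^ (J - P) := one_le_pow₀ (by norm_num)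
    linarith
  refine (Real.log_le_log (by positivity) h2).trans ?_
  rw [Real.log_mul (by positivity) (by norm_num), Real.log_pow]
  have e1 : ((J - P : ℕ) : ℝ) = (J : ℝ) - P := by
    push_cast [Nat.cast_sub hP]
    ring
  rw [e1]


/-- The affine label and the labels of the coordinates before it, for one member. -/
theorem afl_fam {F : Fam m J} {A : F.Ω → Prop} (hA : 0 < Pe F.p A) {ε : Fin 3 → Fin m}
    {c : ℕ → Fin m} (hc : ∀ i : Fin 3, c i = ε i) {K e w : ℕ} {ρ P : Fin 3 → ℕ}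
    (hlb : ∀ j, Lb F ((Iio j).image ε) (ε j) K e J w (ρ j) (P j) A)
    (hρ : ∀ j, ρ j ≤ J) (hP : ∀ j, P j ≤ J) {P₂ : ℕ} (hP₂ : P₂ ≤ J) (ha : Afl F c 2 w P₂ A)
    {E : ℝ} (hex : ∀ (V : Type) (z : PtT F → V) (z' : LnT F → V),
      (∀ ω, A ω → z (ptr F J ω) = z' (slam F w ω)) →
      E ≤ CH (Pool.Agent.H49.Ent.cond F.p A True) (fun ω j => F.X J ω (ε j))
        (fun ω => (z' (slam F w ω), F.W ω))) :
    E ≤ (((J : ℝ) - P 0 + e) * Real.log 2 + Real.log (2 * m + 9)) +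
      (((J : ℝ) - P 1 + e) * Real.log 2 + Real.log (2 * m + 9)) +
      (((J : ℝ) - P₂) * Real.log 2 + Real.log 9) := by
  classical
  have hq := isLaw_cond F.isLaw hA
  have hqA : ∀ ω, 0 < Pool.Agent.H49.Ent.cond F.p A True ω → A ω := fun ω hω =>
    of_eq_true ((cond_pos_iff F.isLaw.nonneg A True ω).1 hω).2
  choose V₁ y y' G hG using hlb
  obtain ⟨V, z, z', Q, hv, hcl, hps⟩ := ha
  have h1 := hex ((∀ j, V₁ j) × V) (fun p => (fun j => y j p, z p))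
    (fun s => (fun j => y' j s, z' s)) (fun ω hω => by
      refine Prod.ext (funext fun j => ?_) ?_
      · exact (hG j).cls ω hω
      · exact hcl ω hω)
  refine h1.trans ?_
  have h2 := Pool.EXW.chain_le hq (fun (j : Fin 3) ω => F.X J ω (ε j))
    (fun ω => (((fun j => y' j (slam F w ω)), z' (slam F w ω)), F.W ω))
    ![((J : ℝ) - P 0 + e) * Real.log 2 + Real.log (2 * m + 9),
      ((J : ℝ) - P 1 + e) * Real.log 2 + Real.log (2 * m + 9),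
      ((J : ℝ) - P₂) * Real.log 2 + Real.log 9] (fun j => ?_)
  · rw [Fin.sum_univ_three] at h2
    exact h2
  have hcell : ∀ j : Fin 3, CH (Pool.Agent.H49.Ent.cond F.p A True) (fun ω => F.X J ω (ε j))
      (fun ω => ((fun l : Fin 3 => if l < j then F.X J ω (ε l) else 0),
        (((fun j => y' j (slam F w ω)), z' (slam F w ω)), F.W ω))) ≤
      ((J : ℝ) - P j + e) * Real.log 2 + Real.log (2 * m + 9) := by
    intro j
    refine Pool.EXW.one_cell (hG j) (hρ j) (hP j) hq hqA fun ω ω' h1 h1' hcc => ?_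
    have h2 := Prod.ext_iff.mp hcc
    have h3 := Prod.ext_iff.mp h2.2
    have h4 := Prod.ext_iff.mp h3.1
    refine ⟨fun k hk => ?_, congrFun h4.1 j, congrArg Prod.fst h3.2⟩
    obtain ⟨l, hl, rfl⟩ := mem_image.1 hk
    have h6 := congrFun h2.1 l
    simp only [if_pos (mem_Iio.1 hl)] at h6
    exact h6
  fin_cases j
  · exact hcell 0
  · exact hcell 1
  · have h3 := afl_cell (S := (Fin 3 → ℤ) × (((∀ j, V₁ j) × V) × _))
      (C := fun ω => ((fun l : Fin 3 => if l < 2 then F.X J ω (ε l) else 0),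
        (((fun j => y' j (slam F w ω)), z' (slam F w ω)), F.W ω))) hv hcl hps hP₂ hq hqA
      fun ω ω' h1 h1' hcc => ?_
    · have e1 : (fun ω => F.X J ω (c 2)) = fun ω : F.Ω => F.X J ω (ε 2) := by
        funext ω
        rw [show c 2 = ε 2 from hc 2]
      rw [e1] at h3
      exact h3
    · have h2 := Prod.ext_iff.mp hcc
      have h3 := Prod.ext_iff.mp h2.2
      have h4 := Prod.ext_iff.mp h3.1
      refine ⟨fun l hl => ?_, h4.2, congrArg Prod.fst h3.2⟩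
      have h5 : l < 3 := by omega
      have h6 := congrFun h2.1 ⟨l, h5⟩
      have h7 : (⟨l, h5⟩ : Fin 3) < 2 := by
        rw [Fin.lt_def]
        exact hl
      simp only [if_pos h7] at h6
      rw [show c l = ε ⟨l, h5⟩ from hc ⟨l, h5⟩]
      exact h6

/-- **The affine threshold is at most the number.** -/
theorem afl_le_vs {S : PCl m} (hne : S.Ne) (hpos : Bas S (fun _ F A => 0 < Pe F.p A))
    {L : Finset (Fin m) → Fin m → ℝ → ℝ → ℝ} (hL : LamW S L) {ε : Fin 3 → Fin m}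
    {c : ℕ → Fin m} (hc : ∀ i : Fin 3, c i = ε i) {w : ℝ} (hw : w ∈ Wv L ε)
    (hex : VExa S L ε w) {p : ℝ → ℝ} (hp : AflOf S c 2 p) : p w ≤ vs L ε w 3 := by
  by_contra hcon
  push Not at hcon
  obtain ⟨hw0, hw1, hg, hct⟩ := hw
  obtain ⟨D, hD⟩ : ∃ D, D = p w - vs L ε w 3 := ⟨_, rfl⟩
  have hD0 : 0 < D := by rw [hD]; linarith
  have hl2 : 1 / 2 < Real.log 2 := by
    have := Real.log_two_gt_d9
    linarith only [this]
  have hl21 : Real.log 2 ≤ 1 := by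
    have := Real.log_two_lt_d9
    linarith only [this]
  have hvs : 0 ≤ vs L ε w 3 := hw0.le.trans (le_vs hL ε hw1.le 3)
  obtain ⟨e, he⟩ : ∃ e : ℝ, e = D / 32 := ⟨_, rfl⟩
  have he0 : 0 < e := by rw [he]; positivity
  obtain ⟨K, hK⟩ := vst_att hL hw0 hw1 hg hct he0
  have hall : Bas S (fun J F A => ∀ j : Fin 3, Lb F ((Iio j).image ε) (ε j) K ⌊e * J⌋₊ J ⌊w * J⌋₊
      ⌊min (vs L ε w j + e) 1 * J⌋₊ ⌊(vs L ε w (j + 1) - e) * J⌋₊ A) :=
    Bas.fin fun j => hK j j le_rfl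
  have hatt := hp.att w e hw0 hw1.le he0 (by rw [he]; linarith)
  obtain ⟨cm, hcm⟩ : ∃ cm : ℝ, cm = Real.log (2 * m + 9) := ⟨_, rfl⟩
  obtain ⟨c9, hc9⟩ : ∃ c9 : ℝ, c9 = Real.log 9 := ⟨_, rfl⟩
  obtain ⟨J₁, hJ₁⟩ := exists_nat_gt ((2 * (1 + cm) + (1 + c9)) / (D / 16))
  refine Pool.TOP.bas_no hne (((hex (D / 8) (by linarith)).and (hall.and
    (hatt.and hpos))).mono J₁ ?_)
  rintro J hJ F A ⟨h1, h2, h3, h3'⟩
  have hJ0 : (0 : ℝ) ≤ J := Nat.cast_nonneg J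
  have hJ1 : (J₁ : ℝ) ≤ J := by exact_mod_cast hJ
  have hJ2 := hJ₁.trans_le hJ1
  rw [div_lt_iff₀ (by linarith)] at hJ2
  have hpw := hp.up w
  have h4 := afl_fam h3' hc h2
    (fun j => Pool.GEN.fl_le (min_le_right _ _) J)
    (fun j => Pool.GEN.fl_le (by linarith [vs_le1 hL ε hw1.le (j + 1 : ℕ)]) J)
    (Pool.GEN.fl_le (by linarith) J) h3 h1
  have h5 := chart_num (J := J) (s := vs L ε w (0 + 1)) (e := e) (cm := cm) (L := Real.log 2)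
    (by linarith) hl21 he0.le
  have h6 := chart_num (J := J) (s := vs L ε w (1 + 1)) (e := e) (cm := cm) (L := Real.log 2)
    (by linarith) hl21 he0.le
  have h7 : ((J : ℝ) - ⌊(p w - e) * J⌋₊) * Real.log 2 + c9 ≤
      (1 - p w) * Real.log 2 * J + (e * J + 1 + c9) := by
    have h8 := Nat.lt_floor_add_one ((p w - e) * (J : ℝ))
    have h9 : ((J : ℝ) - ⌊(p w - e) * J⌋₊) ≤ (1 - p w) * J + (e * J + 1) := by
      linarith only [h8]
    have h10 := mul_le_mul_of_nonneg_right h9 (by linarith : 0 ≤ Real.log 2)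
    have h11 : (e * J + 1) * Real.log 2 ≤ (e * J + 1) * 1 :=
      mul_le_mul_of_nonneg_left hl21 (by positivity)
    linarith only [h10, h11]
  rw [← hcm, ← hc9] at h4
  rw [Fin.sum_univ_three] at h4
  have e0 : vs L ε w ((0 : Fin 3) + 1 : ℕ) = vs L ε w (0 + 1) := rfl
  have e1 : vs L ε w ((1 : Fin 3) + 1 : ℕ) = vs L ε w (1 + 1) := rfl
  have e2 : vs L ε w ((2 : Fin 3) + 1 : ℕ) = vs L ε w 3 := rfl
  rw [e0, e1, e2] at h4
  have h12 := h4.trans (add_le_add (add_le_add h5 h6) h7)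
  have h13 : (p w - vs L ε w 3) * Real.log 2 * J ≤ D / 8 * Real.log 2 * J +
      (5 * (e * J) + (2 * (1 + cm) + (1 + c9))) := by
    linarith only [h12]
  rw [← hD] at h13
  have h14 : 7 / 8 * D * (1 / 2) * J ≤ 7 / 8 * D * Real.log 2 * J :=
    mul_le_mul_of_nonneg_right (mul_le_mul_of_nonneg_left hl2.le (by linarith)) hJ0
  have h15 : e * J = D * J / 32 := by rw [he]; ring
  have h16 : 0 ≤ D * (J : ℝ) := by positivity
  linarith only [h13, h14, h15, h16, hJ2]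


/-- The affine polynomial in the time and the first coordinate. -/
noncomputable def af2 (a : Fin 3 → ℝ) : PN := C (a 0) + C (a 1) * X 0 + C (a 2) * X 1

theorem af2_eval (a : Fin 3 → ℝ) (b : ℕ → ℝ) :
    eval b (af2 a) = a 0 + a 1 * b 0 + a 2 * b 1 := by
  unfold af2
  simp

theorem af2_ok (a : Fin 3 → ℝ) : (af2 a).totalDegree ≤ 1 ∧ (af2 a).vars ⊆ range (2 + 1) := by
  have h : Pool.PM93.IsAf 2 (af2 a) := by
    unfold af2
    exact ((Pool.PM93.IsAf.const 2 _).add ((Pool.PM93.IsAf.var (by norm_num)).smul _)).add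
      ((Pool.PM93.IsAf.var (by norm_num)).smul _)
  exact h

/-- An affine form over the time and the first coordinate is an affine label. -/
theorem afl_of_af {F : Fam m J} {B : F.Ω → Prop} {c : ℕ → Fin m} {w P : ℕ} {V : Type}
    {z : PtT F → V} {z' : LnT F → V} (hcl : ∀ ω, B ω → z (ptr F J ω) = z' (slam F w ω))
    {a : V → Fin 3 → ℝ} {ρ R : ℝ}
    (ha : ∀ ω, B ω → |F.x ω (c 2) - Pool.PLN.af (a (z (ptr F J ω))) (F.t ω) (F.x ω (c 0))| ≤ ρ ∧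
      ∀ i, |a (z (ptr F J ω)) i| ≤ R) (hP : ρ + (1 + R) / 2 ^ J ≤ 1 / 2 ^ P) :
    Afl F c 2 w P B := by
  refine ⟨V, z, z', fun v => af2 (a v), fun v => af2_ok _, hcl, fun ω hω => ?_⟩
  obtain ⟨h1, h2⟩ := ha ω hω
  refine le_trans ?_ hP
  rw [af2_eval]
  have x1 := Pool.NJ69.x_cell F ω (c 2)
  have x0 := Pool.NJ69.x_cell F ω (c 0)
  have e1 : px c (ptr F J ω) 0 = F.t ω := rfl
  have e2 : px c (ptr F J ω) 1 = ((ptr F J ω).1 (c 0) : ℝ) / 2 ^ J := rfl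
  have e3 : px c (ptr F J ω) (2 + 1) = ((ptr F J ω).1 (c 2) : ℝ) / 2 ^ J := rfl
  rw [e1, e2, e3]
  obtain ⟨v, hv⟩ : ∃ v, v = a (z (ptr F J ω)) := ⟨_, rfl⟩
  rw [← hv] at h1 h2 ⊢
  have h3 : |v 2 * (F.x ω (c 0) - ((ptr F J ω).1 (c 0) : ℝ) / 2 ^ J)| ≤ R * (1 / 2 ^ J) := by
    rw [abs_mul]
    exact mul_le_mul (h2 2) x0 (abs_nonneg _) ((abs_nonneg _).trans (h2 2))
  unfold Pool.PLN.af at h1
  have e4 : ((ptr F J ω).1 (c 2) : ℝ) / 2 ^ J -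
      (v 0 + v 1 * F.t ω + v 2 * (((ptr F J ω).1 (c 0) : ℝ) / 2 ^ J)) =
      -(F.x ω (c 2) - ((ptr F J ω).1 (c 2) : ℝ) / 2 ^ J) +
      (F.x ω (c 2) - (v 0 + v 1 * F.t ω + v 2 * F.x ω (c 0))) +
      v 2 * (F.x ω (c 0) - ((ptr F J ω).1 (c 0) : ℝ) / 2 ^ J) := by ring
  rw [e4]
  refine ((abs_add_le _ _).trans (add_le_add ((abs_add_le _ _).trans (add_le_add
    (by rw [abs_neg]) le_rfl)) le_rfl)).trans ?_
  have e5 : (1 + R) / 2 ^ J = 1 / 2 ^ J + R * (1 / 2 ^ J) := by ring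
  rw [e5]
  linarith

/-- The numbers for the affine label. -/
theorem afl_num {J sg g P : ℕ} {b eta g1 φ x : ℝ} (hb : 0 ≤ b)
    (hsg : (sg : ℝ) ≤ eta * J) (hg : |(g : ℝ) - g1 * J| ≤ φ * J) (hgJ : g ≤ J)
    (hP : (P : ℝ) ≤ x * J) (hJ : 2 ≤ φ * J) (hx : x + eta + b + 2 * φ ≤ g1) :
    (2 : ℝ) ^ sg / 2 ^ g * Pool.PLN.ex (-b) J + (1 + 2 ^ sg * Pool.PLN.ex (-b) J) / 2 ^ J ≤
      1 / 2 ^ P := by
  have hJ0 : (0 : ℝ) ≤ J := Nat.cast_nonneg J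
  have e0 : Pool.PLN.ex (-b) J = (2 : ℝ) ^ (b * J) := by
    unfold Pool.PLN.ex
    rw [Real.rpow_def_of_pos two_pos]
    congr 1
    ring
  have hbJ : 0 ≤ b * J := mul_nonneg hb hJ0
  have h1 : (1 : ℝ) ≤ 2 ^ (b * J) := Real.one_le_rpow one_le_two hbJ
  have h2 : (1 : ℝ) ≤ (2 : ℝ) ^ sg := one_le_pow₀ one_le_two
  have pg : (0 : ℝ) < 2 ^ g := by positivity
  have h3 : (1 : ℝ) / 2 ^ J ≤ 1 / 2 ^ g := inv_mono hgJ
  have h4 : (2 : ℝ) ^ sg / 2 ^ g * Pool.PLN.ex (-b) J + (1 + 2 ^ sg * Pool.PLN.ex (-b) J) / 2 ^ J ≤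
      3 * (2 ^ sg * 2 ^ (b * J) / 2 ^ g) := by
    rw [e0]
    have h5 : (1 : ℝ) ≤ 2 ^ sg * 2 ^ (b * J) := by nlinarith
    have h6 : (1 + 2 ^ sg * (2 : ℝ) ^ (b * J)) / 2 ^ J ≤ 2 * (2 ^ sg * 2 ^ (b * J) / 2 ^ g) := by
      calc (1 + 2 ^ sg * (2 : ℝ) ^ (b * J)) / 2 ^ J = (1 + 2 ^ sg * (2 : ℝ) ^ (b * J)) *
            (1 / 2 ^ J) := by ring
        _ ≤ (2 * (2 ^ sg * 2 ^ (b * J))) * (1 / 2 ^ g) :=
            mul_le_mul (by linarith) h3 (by positivity) (by positivity)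
        _ = _ := by ring
    have e1 : (2 : ℝ) ^ sg / 2 ^ g * 2 ^ (b * J) = 2 ^ sg * 2 ^ (b * J) / 2 ^ g := by ring
    rw [e1]
    linarith
  refine h4.trans ?_
  rw [le_div_iff₀ (by positivity)]
  have e2 : (2 : ℝ) ^ sg = 2 ^ ((sg : ℕ) : ℝ) := (Real.rpow_natCast 2 sg).symm
  have e3 : (2 : ℝ) ^ g = 2 ^ ((g : ℕ) : ℝ) := (Real.rpow_natCast 2 g).symm
  have e4 : (2 : ℝ) ^ P = 2 ^ ((P : ℕ) : ℝ) := (Real.rpow_natCast 2 P).symm
  rw [e2, e3, e4, ← Real.rpow_add two_pos, ← Real.rpow_sub two_pos, mul_assoc,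
    ← Real.rpow_add two_pos]
  have h5 : ((sg : ℕ) : ℝ) + b * J - ((g : ℕ) : ℝ) + ((P : ℕ) : ℝ) ≤ -2 := by
    have h6 := (abs_le.1 hg).1
    have h7 := mul_le_mul_of_nonneg_right hx hJ0
    linarith
  have h6 : (2 : ℝ) ^ (((sg : ℕ) : ℝ) + b * J - ((g : ℕ) : ℝ) + ((P : ℕ) : ℝ)) ≤ 2 ^ (-2 : ℝ) :=
    Real.rpow_le_rpow_of_exponent_le one_le_two h5
  have h7 : (2 : ℝ) ^ (-2 : ℝ) = 1 / 4 := by
    rw [Real.rpow_neg two_pos.le, show (2 : ℝ) ^ (2 : ℝ) = 4 by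
      rw [show (2 : ℝ) = ((2 : ℕ) : ℝ) by norm_num, Real.rpow_natCast]
      norm_num]
    norm_num
  rw [h7] at h6
  linarith

/-- **The affine threshold is at least the number over the active coordinate.** -/
theorem afl_ge_lam {S : PCl m} (hne : S.Ne)
    (hmem : ∀ (τ : ℝ) (J : ℕ) (F : Fam m J) (A : F.Ω → Prop), S.St τ J F A →
      F.Tr ∧ F.Tm (τ * J) ∧ F.Rb (τ * J) ∧ Real.exp (-(τ * J)) ≤ Pe F.p A)
    (hx : ∀ (τ : ℝ) (J : ℕ) (F : Fam m J) (A : F.Ω → Prop), S.St τ J F A →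
      ∀ ω i, |F.x ω i| ≤ 2)
    {L : Finset (Fin m) → Fin m → ℝ → ℝ → ℝ} (hL : LamW S L) {N : ℚ → ℚ → ℝ} {al : ℝ}
    (hal : 0 < al) (hQ : ActQ N al) {c : ℕ → Fin m} (hact : ActB N S (c 0)) {p : ℝ → ℝ}
    (hp : AflOf S c 2 p) {w : ℝ} (hw0 : 0 < w) (hw1 : w < 1) (hcp : ContinuousAt p w) :
    L {c 0} (c 2) w w ≤ p w := by
  classical
  by_contra hcon
  push Not at hcon
  obtain ⟨b₁, hb₁⟩ : ∃ b₁, b₁ = L {c 0} (c 2) w w := ⟨_, rfl⟩
  rw [← hb₁] at hcon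
  have hb1 : b₁ ≤ 1 := by rw [hb₁]; exact hL.le1 _ _ _ _
  have hpw : w ≤ p w := hp.low' w hw0.le hw1.le
  obtain ⟨δ, hδ⟩ : ∃ δ, δ = (b₁ - p w) / 8 := ⟨_, rfl⟩
  have hδ0 : 0 < δ := by rw [hδ]; linarith
  obtain ⟨w₃, a1, a2, a3, a4⟩ : ∃ w₃ : ℝ, w < w₃ ∧ w₃ < 1 ∧ w₃ ≤ b₁ ∧ p w₃ ≤ p w + δ := by
    obtain ⟨ζ, hζ, hd⟩ := Metric.continuousAt_iff.1 hcp δ hδ0
    obtain ⟨x, hx'⟩ : ∃ x, x = min (w + ζ / 2) (min ((w + 1) / 2) b₁) := ⟨_, rfl⟩
    have x1 : x ≤ w + ζ / 2 := by rw [hx']; exact min_le_left _ _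
    have x2 : x ≤ (w + 1) / 2 := by
      rw [hx']
      exact (min_le_right _ _).trans (min_le_left _ _)
    have x3 : x ≤ b₁ := by
      rw [hx']
      exact (min_le_right _ _).trans (min_le_right _ _)
    have x4 : w < x := by
      rw [hx']
      exact lt_min (by linarith) (lt_min (by linarith) (by linarith))
    refine ⟨x, x4, by linarith, x3, ?_⟩
    have h2 := hd (x := x) (by
      rw [Real.dist_eq, abs_lt]
      constructor <;> linarith)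
    rw [Real.dist_eq, abs_lt] at h2
    linarith [h2.2]
  obtain ⟨w₂, c1, c2⟩ := exists_between a1
  obtain ⟨c', hc'⟩ : ∃ c' : ℕ → Fin m, c' = fun i => if i = 0 then c 0 else c 2 := ⟨_, rfl⟩
  have hc0 : c' 0 = c 0 := by rw [hc']; exact if_pos rfl
  have hc1 : c' 1 = c 2 := by rw [hc']; exact if_neg one_ne_zero
  have hlb := Pool.NJ69.lb1_lam hmem hx hL hal hQ (c := c') (by rw [hc0]; exact hact) hw0 c1
    (c2.trans a2) (by rw [hc0, hc1, ← hb₁]; linarith)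
  rw [hc0, hc1, ← hb₁] at hlb
  obtain ⟨K, g0, g1, eta, b, c₀, e0, b0, eb, g1b, hc₀, hLW, hA⟩ := hlb δ hδ0
  obtain ⟨φ, hφ, hA⟩ := hA
  obtain ⟨φ', hφ'⟩ : ∃ φ', φ' = min φ δ := ⟨_, rfl⟩
  have hφ'0 : 0 < φ' := by rw [hφ']; exact lt_min hφ hδ0
  have f1 : φ' ≤ φ := by rw [hφ']; exact min_le_left _ _
  have f2 : φ' ≤ δ := by rw [hφ']; exact min_le_right _ _
  obtain ⟨κ₀, hκ₀, hLW⟩ := hLW φ' hφ'0
  have hno := hp.no w₂ w₃ δ (by linarith) c2 a2.le hδ0 (by linarith)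
  have H := Pool.CHT.bas_ev hA hκ₀
  have H' := Pool.CHT.bas_ev hno (κ := κ₀ / 2) (by positivity)
  obtain ⟨J₁, hJ₁⟩ := exists_nat_gt (2 / φ')
  refine Pool.TOP.bas_no hne ((hLW.and (H.and H')).mono (max J₁ 1) ?_)
  rintro J hJ F A ⟨⟨B, V, z, z', P, g', sg, Lc, hBA, hPB, q0, q1, q2, q3, q4, q5, hN⟩, h2, h3⟩
  have hJ1 : (J₁ : ℝ) ≤ J := by exact_mod_cast (le_max_left _ _).trans hJ
  have hJ0 : (0 : ℝ) ≤ J := Nat.cast_nonneg J
  have hJ2 : 2 ≤ φ' * J := by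
    have := hJ₁.le.trans hJ1
    rw [div_le_iff₀ hφ'0] at this
    linarith
  have hφJ : φ' * J ≤ φ * J := mul_le_mul_of_nonneg_right f1 hJ0
  obtain ⟨B', a, hB', hPB', ha⟩ := h2 B hBA hPB V z z' P g' sg Lc (q0.trans hφJ) (q1.trans hφJ) q2
    q4 (q5.trans hφJ) hN
  refine h3 B' (fun ω h => hBA ω (hB' ω h)) ?_ ?_
  · have h4 := Pe_nonneg F.isLaw B
    nlinarith
  · have hP' : ((⌊(p w₃ + δ) * J⌋₊ : ℕ) : ℝ) ≤ (p w₃ + δ) * J :=
      Nat.floor_le (mul_nonneg (by linarith [hp.low w₃]) hJ0)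
    refine afl_of_af (fun ω hω => hN.cls ω (hB' ω hω)) (a := a)
      (ρ := 2 ^ sg / 2 ^ g' 1 * Pool.PLN.ex (-b) J) (R := 2 ^ sg * Pool.PLN.ex (-b) J)
      (fun ω hω => ?_) (afl_num (φ := φ') b0 q3 q1 q2 hP' hJ2 (by linarith))
    have h5 := ha ω hω
    rw [hc0, hc1] at h5
    exact h5

end Pool.PM49
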