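import Pool.Agent.H22.M.Pka
import Pool.Agent.H49.PM.Pa
import Pool.Agent.H2.GEN.Rlv

/-!
# Plan M: the numbers at two windows with the same order

For a package in dimension four and two good windows `w₀ < w₁` with the same order `c`, the numbers
`bet c i w w`, `i < 3`, at the two windows, the affine thresholds at `w₀`, the exactness of the first
two coordinates, and the relations.
-/

set_option autoImplicit false

namespace Pool.PM49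

open Finset Real
open Pool.Agent.H49.Ent Pool.Agent.H32.Dense Pool.STK Pool.KA Pool.KSAT Pool.K2S Pool.PB
open Pool.GEN Pool.S6C Pool.GRW Pool.PKG Pool.R1
open Pool.CHT (chsys bet tau Up1)
open Pool.JPN (Dn1)
open Pool.LBT (ThrOf)
open Pool.ONE (lst)
open Pool.FRN (Wgd Gdy)
open Pool.TOP (T1c T2c)
open Pool.M3F (ExvY)
open Pool.PM93 (AflOf)
open Pool.NJ69 (vs_one vs_two wv_pair lam_mono)

section gen

variable {n : ℕ} {hn : 2 ≤ n} {S : PCl n} {P : ℝ → ℝ → ℝ} {r : ℝ → ℝ}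
  {P' : ℕ → List (Fin n) × Fin n → ℝ → ℝ → ℝ} {Λ : Finset (Fin n) → Fin n → ℝ → ℝ → ℝ}

/-- The first coordinate of the order of a window is the active one. -/
theorem ow_zero {w : ℝ} (hw : Gwd P P' Λ w) {i : Fin (n - 1)} (hi : (i : ℕ) = 0) :
    (bse (n := n) (ow Λ w i) : ℕ) = 0 := hw.ow.1 i hi

/-- The number of the active coordinate. -/
theorem lam_act (H : Pk hn S P r P' Λ) {a₀ : Fin n} (ha : (a₀ : ℕ) = 0) {w : ℝ} (h0 : 0 ≤ w)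
    (h1 : w < 1) : Λ ∅ a₀ w w = w := by
  obtain ⟨al, g₀, s, d, e, K₀, N, hal, hg₀, hC⟩ := H.cl
  exact H.lam.act hC.ne hal (hC.actm.q hg₀) (hC.actb _ ha) H.pos h0 h1

theorem vs1 (H : Pk hn S P r P' Λ) {w : ℝ} (hw : Gwd P P' Λ w) :
    vs Λ (fun i => bse (ow Λ w i)) w 1 = w := by
  have hk : 0 < n - 1 := by omega
  rw [vs_one hk]
  exact lam_act H (ow_zero hw rfl) hw.pos.le hw.lt

theorem vs2 (H : Pk hn S P r P' Λ) (hk : 1 < n - 1) {a₀ : Fin n} (ha : (a₀ : ℕ) = 0) {w : ℝ}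
    (hw : Gwd P P' Λ w) : vs Λ (fun i => bse (ow Λ w i)) w 2 =
      Λ {a₀} (bse (ow Λ w ⟨1, hk⟩)) w w := by
  have e0 : bse (n := n) (ow Λ w ⟨0, by omega⟩) = a₀ := by
    refine Fin.ext ?_
    rw [ow_zero hw rfl, ha]
  rw [vs_two hk, e0, lam_act H ha hw.pos.le hw.lt]

/-- The members of the class. -/
theorem pk_mem (H : Pk hn S P r P' Λ) (τ : ℝ) (J : ℕ) (F : Fam n J) (A : F.Ω → Prop)
    (h : S.St τ J F A) : F.Tr ∧ F.Tm (τ * J) ∧ F.Rb (τ * J) ∧ Real.exp (-(τ * J)) ≤ Pe F.p A := by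
  obtain ⟨al, g₀, s, d, e, K₀, N, hal, hg₀, hC⟩ := H.cl
  obtain ⟨h1, h2, h3, h4, -⟩ := hC.mem τ J F A h
  exact ⟨h1, h2, h3, h4⟩

theorem pk_x2 (H : Pk hn S P r P' Λ) (τ : ℝ) (J : ℕ) (F : Fam n J) (A : F.Ω → Prop)
    (h : S.St τ J F A) (ω : F.Ω) (i : Fin n) : |F.x ω i| ≤ 2 := by
  obtain ⟨al, g₀, s, d, e, K₀, N, hal, hg₀, hC⟩ := H.cl
  obtain ⟨-, -, -, -, h5, -⟩ := hC.mem τ J F A h
  obtain ⟨⟨h6, h7⟩, h8, -, -⟩ := h5 ω i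
  have h9 := F.dir ω i
  have h10 : F.t ω ≤ 1 := by
    unfold Fam.t
    rw [div_le_one (by positivity)]
    exact_mod_cast (F.tim ω).le
  have h11 : 0 ≤ F.t ω := by
    unfold Fam.t
    positivity
  rw [abs_le] at h9 ⊢
  unfold Fam.x
  constructor <;> nlinarith

/-- The active coordinate of the class. -/
theorem pk_act (H : Pk hn S P r P' Λ) : ∃ (al : ℝ) (g₀ : ℝ → ℝ) (N : ℚ → ℚ → ℝ), 0 < al ∧
    (∀ ε : ℝ, 0 < ε → 0 < g₀ ε) ∧ ActM N al g₀ ∧ ∀ k : Fin n, (k : ℕ) = 0 → ActB N S k := by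
  obtain ⟨al, g₀, s, d, e, K₀, N, hal, hg₀, hC⟩ := H.cl
  exact ⟨al, g₀, N, hal, hg₀, hC.actm, fun k hk => hC.actb k hk⟩

/-- Exactness of the active coordinate and any other one. -/
theorem exv_two (H : Pk hn S P r P' Λ) (hn3 : 3 ≤ n) (hF2 : FZX 2) {a₀ k : Fin n}
    (ha : (a₀ : ℕ) = 0) (hk : k ≠ a₀) {w : ℝ} (hw : Gwd P P' Λ w) : VExa S Λ (Pool.NJ69.pr2 a₀ k) w := by
  obtain ⟨al, g₀, s, d, e, K₀, N, hal, hg₀, hC⟩ := H.cl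
  have hwv := wv_pair (k := k) H hn3 ha hw
  have hinj : Function.Injective (Pool.NJ69.pr2 a₀ k) := by
    intro x y hxy
    fin_cases x <;> fin_cases y
    · rfl
    · exact absurd (hxy : a₀ = k) hk.symm
    · exact absurd (hxy : k = a₀) hk
    · rfl
  intro ρ hρ
  refine vst_exa hF2 hC.ne (C₀ := 6) (by norm_num) H.tmc H.lam hal hg₀ hC.actm H.pos hinj
    (fun l hl => ?_) hwv.1 hwv.2.1 hwv.2.2.1 hwv.2.2.2 hρ
  have hl' : l = ⟨0, by norm_num⟩ := Fin.ext hl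
  subst hl'
  rw [Pool.NJ69.pr2_zero]
  exact hC.actb a₀ ha

/-- The same, as exactness of the first two coordinates of an order. -/
theorem exv_pair (H : Pk hn S P r P' Λ) (hn3 : 3 ≤ n) (hF2 : FZX 2) {c : ℕ → Fin n}
    (ha : (c 0 : ℕ) = 0) (hk : c 1 ≠ c 0) {w : ℝ} (hw : Gwd P P' Λ w) {ρ : ℝ} (hρ : 0 < ρ) :
    ExvY S w (fun J F ω (i : Fin 2) => F.X J ω (c i)) (((1 - w) + (1 - Λ {c 0} (c 1) w w)) - ρ) := by
  have h1 := exv_two H hn3 hF2 ha hk hw ρ hρ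
  refine h1.mono 0 ?_
  intro J _ F A h2 V z z' hz
  have h3 := h2 V z z' hz
  have e1 : vs Λ (Pool.NJ69.pr2 (c 0) (c 1)) w ((0 : Fin 2) + 1 : ℕ) = w := by
    show vs Λ (Pool.NJ69.pr2 (c 0) (c 1)) w 1 = w
    rw [vs_one (by norm_num), Pool.NJ69.pr2_zero]
    exact lam_act H ha hw.pos.le hw.lt
  have e2 : vs Λ (Pool.NJ69.pr2 (c 0) (c 1)) w ((1 : Fin 2) + 1 : ℕ) = Λ {c 0} (c 1) w w := by
    show vs Λ (Pool.NJ69.pr2 (c 0) (c 1)) w 2 = _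
    rw [vs_two (by norm_num), Pool.NJ69.pr2_zero, Pool.NJ69.pr2_one,
      lam_act H ha hw.pos.le hw.lt]
  rw [Fin.sum_univ_two, e1, e2] at h3
  have e3 : (fun (ω : F.Ω) (i : Fin 2) => F.X J ω (c i)) =
      fun ω j => F.X J ω (Pool.NJ69.pr2 (c 0) (c 1) j) := by
    funext ω i
    fin_cases i <;> rfl
  show _ ≤ CH (Pool.Agent.H49.Ent.cond F.p A True)
    (fun (ω : F.Ω) (i : Fin 2) => F.X J ω (c i)) (fun ω => (z' (slam F ⌊w * J⌋₊ ω), F.W ω))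
  rw [e3]
  exact h3

/-- The top numbers at a window before `α`. -/
theorem top_w (H : Pk hn S P r P' Λ) {w : ℝ} (hw : Gwd P P' Λ w) {α sg : ℝ} (hα : w ≤ α)
    (hT : T1c S (lst hn) α sg) (j : Fin (n - 1)) :
    vs Λ (fun i => bse (ow Λ w i)) w (j + 1) ≤ sg := top_t1c H hw.ow.2 hα hT j

/-- **The numbers of an order** at a window. -/
noncomputable def nb (Λ : Finset (Fin n) → Fin n → ℝ → ℝ → ℝ) (σ : Equiv.Perm (Fin (n - 1)))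
    (i : ℕ) (w : ℝ) : ℝ := vs Λ (fun i => bse (σ i)) w (i + 1)

theorem nb_mono (H : Pk hn S P r P' Λ) (σ : Equiv.Perm (Fin (n - 1))) (i : ℕ) :
    Monotone (nb Λ σ i) := vs_mono H.lam _ _

theorem nb_step (H : Pk hn S P r P' Λ) {w : ℝ} (hw : Gwd P P' Λ w) (i : ℕ) :
    nb Λ (ow Λ w) i w ≤ nb Λ (ow Λ w) (i + 1) w :=
  hw.ow.2.2.2.1.step H.lam hw.lt.le (i + 1)

theorem nb_zero (H : Pk hn S P r P' Λ) {w : ℝ} (hw : Gwd P P' Λ w) :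
    nb Λ (ow Λ w) 0 w = w := vs1 H hw

theorem cc_act {w : ℝ} (hw : Gwd P P' Λ w) : (cc hn (ow Λ w) 0 : ℕ) = 0 := by
  rw [cc_lt hn _ (show 0 < n - 1 by omega)]
  exact ow_zero hw rfl

theorem nb_one (H : Pk hn S P r P' Λ) (hk : 1 < n - 1) {w : ℝ} (hw : Gwd P P' Λ w) :
    nb Λ (ow Λ w) 1 w = Λ {cc hn (ow Λ w) 0} (cc hn (ow Λ w) 1) w w := by
  rw [cc_lt hn _ hk]
  exact vs2 H hk (cc_act (hn := hn) hw) hw

/-- The greedy order: the third coordinate over the first one. -/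
theorem nb_gr (H : Pk hn S P r P' Λ) (hk : 2 < n - 1) {w : ℝ} (hw : Gwd P P' Λ w) :
    nb Λ (ow Λ w) 1 w ≤ Λ {cc hn (ow Λ w) 0} (cc hn (ow Λ w) 2) w w := by
  have h1 := hw.ow.2.2.2.1 ⟨1, by omega⟩ ⟨2, hk⟩ (by rw [Fin.le_def]; norm_num)
  have h2 := Pool.NJ69.vn_one (show 1 < n - 1 by omega) Λ (fun i => bse (ow Λ w i))
    (bse (ow Λ w ⟨2, hk⟩))
  rw [h2] at h1
  have e0 : bse (n := n) (ow Λ w ⟨0, by omega⟩) = cc hn (ow Λ w) 0 := by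
    rw [cc_lt hn _ (show 0 < n - 1 by omega)]
  have e2 : bse (n := n) (ow Λ w ⟨2, hk⟩) = cc hn (ow Λ w) 2 := by rw [cc_lt hn _ hk]
  simp only at h1
  rw [e0, e2, lam_act H (cc_act (hn := hn) hw) hw.pos.le hw.lt] at h1
  exact h1

/-- The number of a chain at a window. -/
theorem nb_bet (H : Pk hn S P r P' Λ) (hF : FZX (n - 1)) {w : ℝ} (hw : Gwd P P' Λ w) {cD : ℝ}
    (hcD : 0 < cD) (ht : ∀ i < n - 1, nb Λ (ow Λ w) i w ≤ 1 - 3 / 4 * cD) {j : ℕ}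
    (hj : tht j < cD / 2) {l : ℕ} (hl : l < n - 1) :
    bet (P' j) (cc hn (ow Λ w)) l w w = nb Λ (ow Λ w) l w :=
  bet_gw H hF hw hcD (fun i => ht i i.2) hj ⟨l, hl⟩

/-- The volume. -/
theorem nb_vx (H : Pk hn S P r P' Λ) (hF : FZX (n - 1)) {w : ℝ} (hw : Gwd P P' Λ w) :
    vx P P' Λ w = ∑ i ∈ range (n - 1), nb Λ (ow Λ w) i w := by
  rw [vx_eq H hF hw, Finset.sum_range]
  rfl

end gen

/-! ### Dimension four -/

section four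

open Pool.PM (PkA Wp vc)

variable {hn : 2 ≤ 4} {S : PCl 4} {P : ℝ → ℝ → ℝ} {r : ℝ → ℝ}
  {P' : ℕ → List (Fin 4) × Fin 4 → ℝ → ℝ → ℝ} {Λ : Finset (Fin 4) → Fin 4 → ℝ → ℝ → ℝ}
  {pa : Equiv.Perm (Fin (4 - 1)) → Fin 4 → ℝ → ℝ}

/-- The chain numbers at the second window. -/
theorem betT1 (H : Pk hn S P r P' Λ) (hF : FZX (4 - 1)) {w₀ w₁ P1 cD α θ : ℝ}
    {PP : List (Fin 4) × Fin 4 → ℝ → ℝ → ℝ} {c₀ c₁ : ℕ → Fin 4} (h1 : Gwd P P' Λ w₁)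
    (hT : TwoW hn S P r θ PP w₀ w₁ α c₀ c₁ P1 cD) {j : ℕ} (hj : tht j < cD / 2) {i : ℕ}
    (hi : i < 3) : bet (P' j) (cc hn (ow Λ w₁)) i w₁ w₁ = nb Λ (ow Λ w₁) i w₁ :=
  nb_bet H hF h1 hT.cD0 (fun l hl => top_w H h1 hT.w1α.le hT.t1 ⟨l, hl⟩) hj hi

/-- The chain numbers at the first window. -/
theorem betT0 (H : Pk hn S P r P' Λ) (hF : FZX (4 - 1)) {w₀ w₁ P1 cD α θ : ℝ}
    {PP : List (Fin 4) × Fin 4 → ℝ → ℝ → ℝ} {c₀ c₁ : ℕ → Fin 4} (h0 : Gwd P P' Λ w₀)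
    (ho : ow Λ w₀ = ow Λ w₁) (hT : TwoW hn S P r θ PP w₀ w₁ α c₀ c₁ P1 cD) {j : ℕ}
    (hj : tht j < cD / 2) {i : ℕ} (hi : i < 3) :
    bet (P' j) (cc hn (ow Λ w₁)) i w₀ w₀ = nb Λ (ow Λ w₁) i w₀ := by
  rw [← ho]
  exact nb_bet H hF h0 hT.cD0 (fun l hl => top_w H h0 (hT.w01.trans hT.w1α).le hT.t1 ⟨l, hl⟩) hj hi

/-- The growth of the volume. -/
theorem vxT (H : Pk hn S P r P' Λ) (hF : FZX (4 - 1)) {w₀ w₁ : ℝ} (h0 : Gwd P P' Λ w₀)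
    (h1 : Gwd P P' Λ w₁) (ho : ow Λ w₀ = ow Λ w₁) :
    vx P P' Λ w₁ - vx P P' Λ w₀ = (w₁ - w₀) + (nb Λ (ow Λ w₁) 1 w₁ - nb Λ (ow Λ w₁) 1 w₀) +
      (nb Λ (ow Λ w₁) 2 w₁ - nb Λ (ow Λ w₁) 2 w₀) := by
  rw [nb_vx H hF h1, nb_vx H hF h0, show 4 - 1 = 3 from rfl, Finset.sum_range_succ,
    Finset.sum_range_succ, Finset.sum_range_one, Finset.sum_range_succ, Finset.sum_range_succ,
    Finset.sum_range_one, nb_zero H h1, nb_zero H h0, ho]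
  ring

/-- The growth of the number of the second coordinate. -/
theorem vcT (H : Pk hn S P r P' Λ) {w₀ w₁ : ℝ} (h0 : Gwd P P' Λ w₀) (h1 : Gwd P P' Λ w₁)
    (h01 : w₀ ≤ w₁) (ho : ow Λ w₀ = ow Λ w₁) :
    nb Λ (ow Λ w₁) 1 w₁ - nb Λ (ow Λ w₁) 1 w₀ ≤ vc Λ w₁ - vc Λ w₀ := by
  have hk : 1 < 4 - 1 := by norm_num
  have e1 := nb_one (hn := hn) H hk h1
  have e0 := nb_one (hn := hn) H hk h0
  rw [ho] at e0
  have hc0 : cc hn (ow Λ w₁) 0 = 0 := Fin.ext (cc_act h1)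
  rw [hc0] at e0 e1
  have m1 := lam_mono H.lam {0} 1 h01
  have m2 := lam_mono H.lam {0} 2 h01
  simp only at m1 m2
  have h3 : cc hn (ow Λ w₁) 1 ≠ 0 := by
    intro h
    have := cc_inj hn (ow Λ w₁) (show (1 : ℕ) ∈ Set.Iio 4 by simp) (show (0 : ℕ) ∈ Set.Iio 4 by simp)
      (h.trans hc0.symm)
    omega
  have h4 : cc hn (ow Λ w₁) 1 ≠ 3 := fun h => cc_ne hn (ow Λ w₁) hk (h.trans rfl)
  have h5 : cc hn (ow Λ w₁) 1 = 1 ∨ cc hn (ow Λ w₁) 1 = 2 := by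
    generalize cc hn (ow Λ w₁) 1 = x at h3 h4
    fin_cases x
    · exact absurd rfl h3
    · exact Or.inl rfl
    · exact Or.inr rfl
    · exact absurd rfl h4
  rw [e1, e0]
  unfold vc
  rcases h5 with h | h <;> rw [h] <;> linarith

end four

end Pool.PM49
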