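import Pool.Agent.H49.PM.Num
import Pool.Agent.H2.GEN.Rlv

/-!
# Plan M: the numbers at two windows, in the order of the second one

`thr_pair`: the threshold of the chain of one coordinate over the active one is its number.
`NumT`: the inequalities between the numbers at two windows `w₀ < w₁`; the order is that of `w₁`,
and it is greedy at `w₀` up to the growth `vs` of the calm levels. `numT_of`: they hold.
-/

set_option autoImplicit false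

namespace Pool.PM49

open Finset Real
open Pool.Agent.H49.Ent Pool.Agent.H32.Dense Pool.STK Pool.KA Pool.KSAT Pool.K2S Pool.PB
open Pool.GEN Pool.S6C Pool.GRW Pool.PKG Pool.R1
open Pool.CHT (chsys bet tau Up1 tau_mono tau_self)
open Pool.JPN (Dn1)
open Pool.LBT (ThrOf)
open Pool.ONE (lst)
open Pool.FRN (Wgd Gdy UpA)
open Pool.TOP (T1c T2c)
open Pool.M3F (ExvY)
open Pool.PM93 (AflOf)
open Pool.NJ69 (vs_one vs_two wv_pair lam_mono)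

section gen

variable {n : ℕ} {hn : 2 ≤ n} {S : PCl n} {P : ℝ → ℝ → ℝ} {r : ℝ → ℝ}
  {P' : ℕ → List (Fin n) × Fin n → ℝ → ℝ → ℝ} {Λ : Finset (Fin n) → Fin n → ℝ → ℝ → ℝ}

theorem inj_pr2 {m : ℕ} {a₀ k : Fin m} (hk : k ≠ a₀) :
    Function.Injective (Pool.NJ69.pr2 a₀ k) := by
  intro x y hxy
  fin_cases x <;> fin_cases y
  · rfl
  · exact absurd (hxy : a₀ = k) hk.symm
  · exact absurd (hxy : k = a₀) hk
  · rfl

/-- The threshold of a coordinate over the active one is at least its number. -/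
theorem thr_ge (H : Pk hn S P r P' Λ) (hn3 : 3 ≤ n) (hF2 : FZX 2) {a₀ k : Fin n}
    (ha : (a₀ : ℕ) = 0) (hk : k ≠ a₀) {w : ℝ} (hw : Gwd P P' Λ w) (j : ℕ) :
    Λ {a₀} k w w ≤ P' j ([a₀], k) w w := by
  have e2 : vs Λ (Pool.NJ69.pr2 a₀ k) w (1 + 1) = Λ {a₀} k w w := by
    show vs Λ (Pool.NJ69.pr2 a₀ k) w 2 = _
    rw [vs_two (by norm_num), Pool.NJ69.pr2_zero, Pool.NJ69.pr2_one,
      lam_act H ha hw.pos.le hw.lt]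
  have h1 := vst_le_bet (tht_pos j) H.ne H.tmc H.pos H.lam (H.cht j) (inj_pr2 hk)
    (c := fun i => if i = 0 then a₀ else k) (fun i => by
      fin_cases i
      · rfl
      · rfl) ⟨wv_pair (k := k) H hn3 ha hw, hw.con j⟩ (exv_two H hn3 hF2 ha hk hw) (j := 1)
    (k := 1) le_rfl (by norm_num)
  rw [e2] at h1
  exact h1

/-- **The threshold of a coordinate over the active one** is its number. -/
theorem thr_pair (H : Pk hn S P r P' Λ) (hn3 : 3 ≤ n) (hF2 : FZX 2) {a₀ k : Fin n}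
    (ha : (a₀ : ℕ) = 0) (hk : k ≠ a₀) {w : ℝ} (hw : Gwd P P' Λ w) {j : ℕ}
    (hj : Λ {a₀} k w w < 1 - tht j * w) : P' j ([a₀], k) w w = Λ {a₀} k w w := by
  refine le_antisymm ?_ (thr_ge H hn3 hF2 ha hk hw j)
  exact Pool.NJ69.bet_le_lam H hn3 hF2 ha hk (c := fun i => if i = 0 then a₀ else k) rfl rfl hw hj

end gen

/-! ### Dimension four -/

/-- **The numbers at two windows**, in the order of the second one. `b0`, `b1`: the numbers of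
`c 0`, `c 1`, `c 2` at `w₀` and at `w₁`; `a2`, `a3`: the affine thresholds of `c 2` and `c 3` at
`w₀`; `tp`: the largest number at `w₀` in its own order; `vs`: the growth of the calm levels. -/
structure NumT (w₀ w₁ P0 P1 cD : ℝ) (b0 b1 : ℕ → ℝ) (a2 a3 tp vs : ℝ) : Prop where
  w00 : 0 < w₀
  w01 : w₀ < w₁
  wP : w₁ < P1
  Pc : P0 + cD ≤ P1
  P1c : P1 ≤ 1 - cD
  cD0 : 0 < cD
  vs0 : 0 ≤ vs
  b00 : b0 0 = w₀
  b10 : b1 0 = w₁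
  s01 : w₀ ≤ b0 1
  s0w : w₀ ≤ b0 2
  s02 : b0 1 ≤ b0 2 + vs
  s11 : w₁ ≤ b1 1
  s12 : b1 1 ≤ b1 2
  m1 : b0 1 ≤ b1 1
  m1v : b1 1 ≤ b0 1 + vs
  m2 : b0 2 ≤ b1 2
  t0 : tp ≤ 1 - 3 / 4 * cD
  t1 : b1 2 ≤ 1 - 3 / 4 * cD
  a2w : w₀ ≤ a2
  a2l : b0 1 ≤ a2 + vs
  a3l : w₀ ≤ a3
  a3u : a3 ≤ P0

section four

open Pool.PM (PkA Wp vc)

variable {hn : 2 ≤ 4} {S : PCl 4} {P : ℝ → ℝ → ℝ} {r : ℝ → ℝ}
  {P' : ℕ → List (Fin 4) × Fin 4 → ℝ → ℝ → ℝ} {Λ : Finset (Fin 4) → Fin 4 → ℝ → ℝ → ℝ}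
  {pa : Equiv.Perm (Fin (4 - 1)) → Fin 4 → ℝ → ℝ}

theorem cc_zero {w : ℝ} (hw : Gwd P P' Λ w) : cc hn (ow Λ w) 0 = 0 := Fin.ext (cc_act hw)

/-- The second and the third coordinate of an order. -/
theorem cc_mid {w : ℝ} (hw : Gwd P P' Λ w) :
    (cc hn (ow Λ w) 1 = 1 ∧ cc hn (ow Λ w) 2 = 2) ∨
      (cc hn (ow Λ w) 1 = 2 ∧ cc hn (ow Λ w) 2 = 1) := by
  have hc0 := cc_zero (hn := hn) hw
  have hinj := cc_inj hn (ow Λ w)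
  have h10 : cc hn (ow Λ w) 1 ≠ 0 := fun h => by
    have := hinj (show (1 : ℕ) ∈ Set.Iio 4 by simp) (show (0 : ℕ) ∈ Set.Iio 4 by simp)
      (h.trans hc0.symm)
    omega
  have h20 : cc hn (ow Λ w) 2 ≠ 0 := fun h => by
    have := hinj (show (2 : ℕ) ∈ Set.Iio 4 by simp) (show (0 : ℕ) ∈ Set.Iio 4 by simp)
      (h.trans hc0.symm)
    omega
  have h12 : cc hn (ow Λ w) 1 ≠ cc hn (ow Λ w) 2 := fun h => by
    have := hinj (show (1 : ℕ) ∈ Set.Iio 4 by simp) (show (2 : ℕ) ∈ Set.Iio 4 by simp) h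
    omega
  have h13 : cc hn (ow Λ w) 1 ≠ 3 := fun h => cc_ne hn (ow Λ w) (by norm_num) (h.trans rfl)
  have h23 : cc hn (ow Λ w) 2 ≠ 3 := fun h => cc_ne hn (ow Λ w) (by norm_num) (h.trans rfl)
  generalize cc hn (ow Λ w) 1 = x at h10 h12 h13
  generalize cc hn (ow Λ w) 2 = z at h20 h12 h23
  fin_cases x <;> fin_cases z
  all_goals first
    | exact absurd rfl h10
    | exact absurd rfl h20
    | exact absurd rfl h12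
    | exact absurd rfl h13
    | exact absurd rfl h23
    | exact Or.inl ⟨rfl, rfl⟩
    | exact Or.inr ⟨rfl, rfl⟩

/-- The first number of an order is the smaller one. -/
theorem nb_min (H : Pk hn S P r P' Λ) {w : ℝ} (hw : Gwd P P' Λ w) :
    nb Λ (ow Λ w) 1 w ≤ Λ {0} 1 w w ∧ nb Λ (ow Λ w) 1 w ≤ Λ {0} 2 w w := by
  have h1 := nb_one (hn := hn) H (by norm_num) hw
  have h2 := nb_gr (hn := hn) H (by norm_num) hw
  rw [cc_zero hw] at h1 h2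
  rcases cc_mid (hn := hn) hw with ⟨e1, e2⟩ | ⟨e1, e2⟩
  · rw [e1] at h1
    rw [e2] at h2
    exact ⟨h1.le, h2⟩
  · rw [e1] at h1
    rw [e2] at h2
    exact ⟨h2, h1.le⟩

/-- The growth of the second number is at most that of the calm levels. -/
theorem nb_grow (H : Pk hn S P r P' Λ) {w₀ w₁ : ℝ} (h0 : Gwd P P' Λ w₀) (h1 : Gwd P P' Λ w₁)
    (h01 : w₀ ≤ w₁) :
    nb Λ (ow Λ w₁) 1 w₁ - nb Λ (ow Λ w₀) 1 w₀ ≤ vc Λ w₁ - vc Λ w₀ := by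
  have e0 := nb_one (hn := hn) H (by norm_num) h0
  rw [cc_zero h0] at e0
  obtain ⟨q1, q2⟩ := nb_min H h1
  have m1 := lam_mono H.lam {0} 1 h01
  have m2 := lam_mono H.lam {0} 2 h01
  simp only at m1 m2
  rw [e0]
  unfold vc
  rcases cc_mid (hn := hn) h0 with ⟨e1, -⟩ | ⟨e1, -⟩ <;> rw [e1] <;> linarith

/-- The growth of the volume. -/
theorem vxG (H : Pk hn S P r P' Λ) (hF : FZX (4 - 1)) {w₀ w₁ : ℝ} (h0 : Gwd P P' Λ w₀)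
    (h1 : Gwd P P' Λ w₁) (h01 : w₀ ≤ w₁) :
    vx P P' Λ w₁ - vx P P' Λ w₀ ≤ (w₁ - w₀) + (vc Λ w₁ - vc Λ w₀) +
      (nb Λ (ow Λ w₁) 2 w₁ - nb Λ (ow Λ w₀) 2 w₀) := by
  have h2 := nb_grow H h0 h1 h01
  rw [nb_vx H hF h1, nb_vx H hF h0, show 4 - 1 = 3 from rfl, Finset.sum_range_succ,
    Finset.sum_range_succ, Finset.sum_range_one, Finset.sum_range_succ, Finset.sum_range_succ,
    Finset.sum_range_one, nb_zero H h1, nb_zero H h0]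
  linarith

/-- **The numbers hold.** -/
theorem numT_of (H : PkA hn S P r P' Λ pa) (hF2 : FZX 2) (hF : FZX (4 - 1))
    {w₀ w₁ P1 cD α θ : ℝ} {PP : List (Fin 4) × Fin 4 → ℝ → ℝ → ℝ} {c₀ c₁ : ℕ → Fin 4}
    (h0 : w₀ ∈ Wp P P' Λ pa) (h1 : w₁ ∈ Wp P P' Λ pa)
    (hT : TwoW hn S P r θ PP w₀ w₁ α c₀ c₁ P1 cD) {j : ℕ} (hj : tht j < cD / 2)
    (ha3 : pa (ow Λ w₁) 3 w₀ ≤ P w₀ w₀) :
    NumT w₀ w₁ (P w₀ w₀) P1 cD (fun i => bet (P' j) (cc hn (ow Λ w₁)) i w₀ w₀)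
      (fun i => bet (P' j) (cc hn (ow Λ w₁)) i w₁ w₁) (pa (ow Λ w₁) 2 w₀)
      (pa (ow Λ w₁) 3 w₀) (nb Λ (ow Λ w₀) 2 w₀) (vc Λ w₁ - vc Λ w₀) ∧
      (bet (P' j) (cc hn (ow Λ w₁)) 1 w₀ w₀ =
        Λ {cc hn (ow Λ w₁) 0} (cc hn (ow Λ w₁) 1) w₀ w₀) ∧
      (bet (P' j) (cc hn (ow Λ w₁)) 1 w₁ w₁ =
        Λ {cc hn (ow Λ w₁) 0} (cc hn (ow Λ w₁) 1) w₁ w₁) ∧
      bet (P' j) (cc hn (ow Λ w₁)) 2 w₁ w₁ = nb Λ (ow Λ w₁) 2 w₁ ∧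
      bet (P' j) (cc hn (ow Λ w₁)) 1 w₀ w₀ ≤
        tau (P' j) (cc hn (ow Λ w₁)) 1 2 w₀ w₀ + (vc Λ w₁ - vc Λ w₀) ∧
      nb Λ (ow Λ w₀) 1 w₀ ≤ bet (P' j) (cc hn (ow Λ w₁)) 1 w₀ w₀ := by
  obtain ⟨al, g₀, s, d, e, K₀, N, hal, hg₀, hC⟩ := H.cl
  have hg := h0.1.1
  have hg1 := h1.1.1
  have hlt : w₀ < 1 := hg.lt
  have h01 := hT.w01.le
  have hcD := hT.cD0
  have hb1 : ∀ l < 3, bet (P' j) (cc hn (ow Λ w₁)) l w₁ w₁ = nb Λ (ow Λ w₁) l w₁ :=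
    fun l hl => betT1 H.toPk hF hg1 hT hj hl
  have ht1 : nb Λ (ow Λ w₁) 2 w₁ ≤ 1 - 3 / 4 * cD :=
    top_w H.toPk hg1 hT.w1α.le hT.t1 ⟨2, by norm_num⟩
  have ht0 : ∀ l < 3, nb Λ (ow Λ w₀) l w₀ ≤ 1 - 3 / 4 * cD := fun l hl =>
    top_w H.toPk hg (hT.w01.trans hT.w1α).le hT.t1 ⟨l, hl⟩
  have hs1 := nb_step H.toPk hg1 1
  have hn1 := nb_one (hn := hn) H.toPk (by norm_num) hg1
  have hgr1 := nb_gr (hn := hn) H.toPk (by norm_num) hg1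
  have hθw : tht j * w₀ ≤ tht j := mul_le_of_le_one_right (tht_pos j).le hlt.le
  have hc0 := cc_zero (hn := hn) hg1
  have hc10 : cc hn (ow Λ w₁) 1 ≠ cc hn (ow Λ w₁) 0 := by
    rw [hc0]
    rcases cc_mid (hn := hn) hg1 with ⟨e1, -⟩ | ⟨e1, -⟩ <;> rw [e1] <;> decide
  have hc20 : cc hn (ow Λ w₁) 2 ≠ cc hn (ow Λ w₁) 0 := by
    rw [hc0]
    rcases cc_mid (hn := hn) hg1 with ⟨-, e1⟩ | ⟨-, e1⟩ <;> rw [e1] <;> decide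
  -- the levels over the active coordinate
  have m1 : ∀ k, Λ {cc hn (ow Λ w₁) 0} k w₀ w₀ ≤ Λ {cc hn (ow Λ w₁) 0} k w₁ w₁ :=
    fun k => lam_mono H.lam _ k h01
  have q1 := m1 1
  have q2 := m1 2
  have hvc : ∀ k : Fin 4, k = 1 ∨ k = 2 → Λ {cc hn (ow Λ w₁) 0} k w₁ w₁ -
      Λ {cc hn (ow Λ w₁) 0} k w₀ w₀ ≤ vc Λ w₁ - vc Λ w₀ := by
    intro k hk
    unfold vc
    rw [hc0] at q1 q2 ⊢
    rcases hk with rfl | rfl <;> linarith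
  have hmid1 : cc hn (ow Λ w₁) 1 = 1 ∨ cc hn (ow Λ w₁) 1 = 2 := by
    rcases cc_mid (hn := hn) hg1 with ⟨e1, -⟩ | ⟨e1, -⟩
    · exact Or.inl e1
    · exact Or.inr e1
  have hmid2 : cc hn (ow Λ w₁) 2 = 1 ∨ cc hn (ow Λ w₁) 2 = 2 := by
    rcases cc_mid (hn := hn) hg1 with ⟨-, e1⟩ | ⟨-, e1⟩
    · exact Or.inr e1
    · exact Or.inl e1
  have v1 := hvc _ hmid1
  have v2 := hvc _ hmid2
  have hvs0 : 0 ≤ vc Λ w₁ - vc Λ w₀ := le_trans (by linarith [m1 (cc hn (ow Λ w₁) 1)]) v1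
  have hl1 : bet (P' j) (cc hn (ow Λ w₁)) 1 w₀ w₀ =
      Λ {cc hn (ow Λ w₁) 0} (cc hn (ow Λ w₁) 1) w₀ w₀ :=
    thr_pair H.toPk (by norm_num) hF2 (cc_act hg1) hc10 hg (by
      have := m1 (cc hn (ow Λ w₁) 1)
      linarith)
  have hl2 : Λ {cc hn (ow Λ w₁) 0} (cc hn (ow Λ w₁) 2) w₀ w₀ ≤
      tau (P' j) (cc hn (ow Λ w₁)) 1 2 w₀ w₀ :=
    thr_ge H.toPk (by norm_num) hF2 (cc_act hg1) hc20 hg j
  have hup : UpA (P' j) w₀ w₀ := Wgd.self (hg.wgd j) hlt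
  have hinj : Set.InjOn (cc hn (ow Λ w₁)) (Set.Iio (2 + 1)) := (cc_inj hn (ow Λ w₁)).mono
    fun x hx => by
      rw [Set.mem_Iio] at hx ⊢
      omega
  have htau : tau (P' j) (cc hn (ow Λ w₁)) 1 2 w₀ w₀ ≤
      bet (P' j) (cc hn (ow Λ w₁)) 2 w₀ w₀ := by
    have := tau_mono hC.ne (H.cht j) hinj (show 1 ≤ 2 by norm_num) le_rfl hg.pos le_rfl
      (hup.rc hlt (cc hn (ow Λ w₁)) 2 2)
    rwa [tau_self] at this
  have hbm : ∀ l, bet (P' j) (cc hn (ow Λ w₁)) l w₀ w₀ ≤ bet (P' j) (cc hn (ow Λ w₁)) l w₁ w₁ :=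
    fun l => ((H.cht j).law _).mono hg.pos.le le_rfl h01 h01 le_rfl hg1.lt.le
  have hlow : ∀ l, w₀ ≤ bet (P' j) (cc hn (ow Λ w₁)) l w₀ w₀ := fun l =>
    (H.cht j).low _ _ _ hg.pos.le le_rfl hlt.le
  have hlow1 : ∀ l, w₁ ≤ bet (P' j) (cc hn (ow Λ w₁)) l w₁ w₁ := fun l =>
    (H.cht j).low _ _ _ hg1.pos.le le_rfl hg1.lt.le
  have hge : Λ {cc hn (ow Λ w₁) 0} (cc hn (ow Λ w₁) 2) w₀ w₀ ≤ pa (ow Λ w₁) 2 w₀ :=
    afl_ge_lam hC.ne (pk_mem H.toPk) (pk_x2 H.toPk) H.lam hal (hC.actm.q hg₀)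
      (hC.actb _ (cc_act hg1)) (H.afl (ow Λ w₁) 2) hg.pos hlt (h0.2 _ _)
  have hkey : bet (P' j) (cc hn (ow Λ w₁)) 1 w₀ w₀ ≤
      Λ {cc hn (ow Λ w₁) 0} (cc hn (ow Λ w₁) 2) w₀ w₀ + (vc Λ w₁ - vc Λ w₀) := by
    rw [hl1]
    have := m1 (cc hn (ow Λ w₁) 1)
    linarith
  have hnm := nb_min H.toPk hg
  refine ⟨⟨hT.w0, hT.w01, hT.w1α.trans_le hT.αP, hT.PcD, Pool.TOP.q_le H.rate hT.cD0 hT.cD1,
    hcD, hvs0, ?_, ?_, hlow 1, hlow 2, by linarith, hlow1 1, ?_, hbm 1, ?_, hbm 2,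
    ht0 2 (by norm_num), ?_, (H.afl (ow Λ w₁) 2).low' _ hg.pos.le hlt.le, ?_,
    (H.afl (ow Λ w₁) 3).low' _ hg.pos.le hlt.le, ha3⟩, hl1, ?_, hb1 2 (by norm_num),
    by linarith, ?_⟩
  · show bet (P' j) (cc hn (ow Λ w₁)) 0 w₀ w₀ = w₀
    have h2 := nb_bet H.toPk hF hg hcD (fun l hl => ht0 l hl) hj (l := 0) (by norm_num)
    rw [nb_zero H.toPk hg] at h2
    have e1 : bet (P' j) (cc hn (ow Λ w₁)) 0 w₀ w₀ = bet (P' j) (cc hn (ow Λ w₀)) 0 w₀ w₀ := by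
      show P' j ([], cc hn (ow Λ w₁) 0) w₀ w₀ = P' j ([], cc hn (ow Λ w₀) 0) w₀ w₀
      rw [hc0, cc_zero (hn := hn) hg]
    rw [e1]
    exact h2
  · show bet (P' j) (cc hn (ow Λ w₁)) 0 w₁ w₁ = w₁
    rw [hb1 0 (by norm_num)]
    exact nb_zero H.toPk hg1
  · show bet (P' j) (cc hn (ow Λ w₁)) 1 w₁ w₁ ≤ bet (P' j) (cc hn (ow Λ w₁)) 2 w₁ w₁
    rw [hb1 1 (by norm_num), hb1 2 (by norm_num)]
    exact hs1
  · show bet (P' j) (cc hn (ow Λ w₁)) 1 w₁ w₁ ≤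
      bet (P' j) (cc hn (ow Λ w₁)) 1 w₀ w₀ + (vc Λ w₁ - vc Λ w₀)
    rw [hb1 1 (by norm_num), hn1, hl1]
    linarith
  · show bet (P' j) (cc hn (ow Λ w₁)) 2 w₁ w₁ ≤ 1 - 3 / 4 * cD
    rw [hb1 2 (by norm_num)]
    exact ht1
  · show bet (P' j) (cc hn (ow Λ w₁)) 1 w₀ w₀ ≤ pa (ow Λ w₁) 2 w₀ + (vc Λ w₁ - vc Λ w₀)
    linarith
  · rw [hb1 1 (by norm_num)]
    exact hn1
  · rw [hl1, hc0]
    rcases hmid1 with h | h <;> rw [h]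
    · exact hnm.1
    · exact hnm.2

end four

end Pool.PM49
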