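import Pool.Agent.H93.PM.Abe
import Pool.Agent.H81.PM.LabM

/-!
# Plan M: the volume and the labels of an order

`vol_le`: labels of the coordinates `c 0, ..., c (r-1)` with the numbers `β`, closed at the window
`w`: the exactness number is at most `∑ (1 - β l)`. `lab_afl`: the label of one coordinate may be
replaced by an affine one. `own_labN`: the labels at `w₀` of a class with the labels of lemma PLANE.
`pa_perm`: the thresholds of the affine labels do not depend on the order of the other coordinates.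
-/

set_option autoImplicit false

namespace Pool.PM49

open Finset Real MvPolynomial
open Pool.Agent.H49.Ent Pool.Agent.H32.Dense Pool.STK Pool.KA Pool.KSAT Pool.K2S Pool.PB Pool.GEN
open Pool.STAT Pool.STAT.CLO Pool.M3F Pool.S6C
open Pool.PM26 (Afl)
open Pool.PM93 (AflOf px_ent)
open Pool.PM (MNum)
open Pool.PM81 (LabN MLab)

variable {m : ℕ}

/-- **Labels** of `c 0, ..., c (r-1)` with the numbers `β`, closed at the window `w`, in a class. -/
def OwnL (S : PCl m) (c : ℕ → Fin m) (r : ℕ) (w : ℝ) (β : ℕ → ℝ) : Prop :=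
  ∀ δ : ℝ, 0 < δ → ∃ K₁ : ℝ, 0 < K₁ ∧ Bas S (fun J F A => ∃ (B : F.Ω → Prop)
      (g : ℕ → ℕ) (V : Type) (z : PtT F → V) (z' : LnT F → V) (P : V → ℕ → PN),
      Sub B A ∧ Pe F.p A ≤ K₁ * Pe F.p B ∧ (∀ l < r, (β l - δ) * J ≤ g l) ∧
      (∀ ω, B ω → z (ptr F J ω) = z' (slam F ⌊w * J⌋₊ ω)) ∧ (∀ v, TriN (P v)) ∧
      ∀ ω, B ω → ∀ l < r, |px c (ptr F J ω) (l + 1) -
        eval (px c (ptr F J ω)) (P (z (ptr F J ω)) (l + 1))| ≤ 1 / 2 ^ g l)

/-- **The volume** of the coordinates is at least the sum of the numbers of the labels. -/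
theorem vol_le {S : PCl m} (hS : S.Ne) (hpos : Bas S (fun _ F A => 0 < Pe F.p A))
    {c : ℕ → Fin m} {r : ℕ} (hr : 0 < r) {w : ℝ} {β : ℕ → ℝ} (hβ : ∀ l < r, β l ≤ 1)
    (hlab : OwnL S c r w β) {E0 : ℝ}
    (hex : ∀ ρ : ℝ, 0 < ρ → ExvY S w (fun J F ω (i : Fin r) => F.X J ω (c i)) (E0 - ρ)) :
    E0 ≤ ∑ l ∈ range r, (1 - β l) := by
  classical
  by_contra hcon
  push Not at hcon
  obtain ⟨h, hh⟩ : ∃ h, h = (E0 - ∑ l ∈ range r, (1 - β l)) / 4 := ⟨_, rfl⟩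
  have hh0 : 0 < h := by
    rw [hh]
    linarith
  have hr0 : (0 : ℝ) < r := by exact_mod_cast hr
  obtain ⟨δ, hδ⟩ : ∃ δ : ℝ, δ = h / r := ⟨_, rfl⟩
  have hδ0 : 0 < δ := by
    rw [hδ]
    positivity
  have hrδ : r * δ = h := by
    rw [hδ]
    field_simp
  obtain ⟨K₁, hK₁, hlab⟩ := hlab δ hδ0
  obtain ⟨k₂, hk₂, hfull⟩ := Ful.bas_events (hpos.and (hex h hh0))
  obtain ⟨J₁, hJ₁⟩ := exists_nat_ge ((1 + r * 3) / h)
  obtain ⟨J₂, hJ₂⟩ := exists_nat_ge (Real.log K₁ / k₂)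
  refine Clp.not_false hS (Clp.mono (J₂ := max (max J₁ J₂) 1)
    ((hlab.and hfull).clp) ?_)
  rintro J hJ F A ⟨⟨B, g, V, z, z', P, b1, b2, b3, b4, b5, b6⟩, hfull⟩
  have j1 : (1 + r * 3) / h ≤ J := hJ₁.trans (by
    exact_mod_cast (le_max_left _ _).trans ((le_max_left _ _).trans hJ))
  have j2 : Real.log K₁ / k₂ ≤ J := hJ₂.trans (by
    exact_mod_cast (le_max_right _ _).trans ((le_max_left _ _).trans hJ))
  have j3 : (1 : ℝ) ≤ J := by exact_mod_cast (le_max_right _ _).trans hJ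
  rw [div_le_iff₀ hh0] at j1
  rw [div_le_iff₀ hk₂] at j2
  have hJ0 : (0 : ℝ) ≤ J := Nat.cast_nonneg J
  have hexp : Real.exp (-(k₂ * J)) * Pe F.p A ≤ Pe F.p B := by
    have h1 : K₁ * Real.exp (-(k₂ * J)) ≤ 1 := by
      have h2 : K₁ = Real.exp (Real.log K₁) := (Real.exp_log hK₁).symm
      rw [h2, ← Real.exp_add, Real.exp_le_one_iff]
      linarith
    have h3 := mul_le_mul_of_nonneg_left b2 (Real.exp_pos (-(k₂ * J))).le
    have h4 : Real.exp (-(k₂ * J)) * (K₁ * Pe F.p B) ≤ 1 * Pe F.p B := by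
      rw [← mul_assoc, mul_comm (Real.exp _) K₁]
      exact mul_le_mul_of_nonneg_right h1 (Pe_nonneg F.isLaw B)
    linarith
  obtain ⟨hB, hV⟩ := hfull B b1 hexp
  have hq := isLaw_cond F.isLaw hB
  have hsupp : ∀ ω, 0 < Pool.Agent.H49.Ent.cond F.p B True ω → B ω := fun ω hω => cond_supp hω
  obtain ⟨l2, hl2⟩ : ∃ l2, l2 = Real.log 2 := ⟨_, rfl⟩
  have l2a : 1 / 2 ≤ l2 := by
    rw [hl2]
    have := Real.log_two_gt_d9
    linarith
  have l5 : Real.log 5 ≤ 3 * l2 := by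
    have h1 : Real.log 5 ≤ Real.log ((2 : ℝ) ^ 3) := Real.log_le_log (by norm_num) (by norm_num)
    rw [Real.log_pow, ← hl2] at h1
    exact_mod_cast h1
  have h1 := hV V z z' b4
  have h2 := px_ent hq hsupp (c := c) (r := r) (V := V) (z := z)
    (P := P) (a := fun l => min (g l) J) (fun l _ => min_le_right _ _) b5
    (fun ω hω l hl => (b6 ω hω l hl).trans (one_div_le_one_div_of_le (by positivity)
      (pow_le_pow_right₀ (by norm_num) (min_le_left _ _))))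
    (fun ω => (z' (slam F ⌊w * J⌋₊ ω), F.W ω))
    (fun ω ω' hω hω' hZ => by
      have h3 := Prod.ext_iff.mp hZ
      refine ⟨?_, congrArg Prod.fst h3.2⟩
      rw [b4 ω hω, b4 ω' hω']
      exact h3.1)
  have h3 : ∑ l ∈ range r, ((J - min (g l) J : ℕ) : ℝ) ≤
      (∑ l ∈ range r, (1 - β l)) * J + h * J := by
    have h4 : ∀ l ∈ range r, ((J - min (g l) J : ℕ) : ℝ) ≤ (1 - β l) * J + δ * J := by
      intro l hl
      have hδJ : 0 ≤ δ * (J : ℝ) := by positivity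
      rw [Nat.cast_sub (min_le_right _ _)]
      have h5 := b3 l (mem_range.1 hl)
      have h6 := hβ l (mem_range.1 hl)
      have h7 : 0 ≤ (1 - β l) * J := mul_nonneg (by linarith) hJ0
      push_cast
      rcases min_choice (g l : ℝ) (J : ℝ) with h8 | h8
      · rw [h8]
        linarith
      · rw [h8]
        linarith
    refine (sum_le_sum h4).trans (le_of_eq ?_)
    rw [sum_add_distrib, ← Finset.sum_mul, sum_const, card_range, nsmul_eq_mul, ← mul_assoc, hrδ]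
  have h4 : (E0 - h) * l2 * J ≤
      ((∑ l ∈ range r, (1 - β l)) * J + h * J) * l2 + r * (3 * l2) := by
    have h5 : (∑ l ∈ range r, ((J - min (g l) J : ℕ) : ℝ)) * l2 ≤ _ :=
      mul_le_mul_of_nonneg_right h3 (by linarith)
    have h6 : (r : ℝ) * Real.log 5 ≤ r * (3 * l2) := mul_le_mul_of_nonneg_left l5 hr0.le
    have h7 := h1.trans h2
    rw [← hl2] at h7
    linarith
  have h5 : (E0 - h) * J ≤ (∑ l ∈ range r, (1 - β l)) * J + h * J + r * 3 := by
    have h6 : ((E0 - h) * J) * l2 ≤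
      ((∑ l ∈ range r, (1 - β l)) * J + h * J + r * 3) * l2 := by
      linarith
    exact le_of_mul_le_mul_right h6 (by linarith)
  have h6 : E0 - ∑ l ∈ range r, (1 - β l) = 4 * h := by
    rw [hh]
    ring
  have h7 : (E0 - ∑ l ∈ range r, (1 - β l)) * J = 4 * h * J := by rw [h6]
  nlinarith

/-- One label may be replaced by an affine one. -/
theorem lab_afl {S : PCl m} {c : ℕ → Fin m} {r i : ℕ} {w : ℝ} {β : ℕ → ℝ} {p : ℝ → ℝ}
    (hp : AflOf S c i p) (hw : 0 < w) (hw1 : w ≤ 1) (h : OwnL S c r w β) {β' : ℕ → ℝ}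
    (h1 : ∀ l, l ≠ i → β' l = β l) (h2 : β' i = p w) : OwnL S c r w β' := by
  intro δ hδ
  obtain ⟨K₁, hK₁, hlab⟩ := h δ hδ
  have hpw : w ≤ p w := hp.low' w hw.le hw1
  obtain ⟨e, he⟩ : ∃ e : ℝ, e = min (δ / 2) (w / 2) := ⟨_, rfl⟩
  have he0 : 0 < e := by
    rw [he]
    exact lt_min (by linarith) (by linarith)
  have he1 : e ≤ δ / 2 := by
    rw [he]
    exact min_le_left _ _
  have he2 : e ≤ w / 2 := by
    rw [he]
    exact min_le_right _ _
  have hatt := hp.att w e hw hw1 he0 (by linarith)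
  obtain ⟨J₁, hJ₁⟩ := exists_nat_ge (2 / δ)
  refine ⟨K₁, hK₁, (hlab.and hatt).mono J₁ ?_⟩
  rintro J hJ F A ⟨⟨B, g, V, z, z', P, b1, b2, b3, b4, b5, b6⟩, V₂, z₂, z₂', Q, q1, q2, q3⟩
  have j1 : 2 / δ ≤ J := hJ₁.trans (by exact_mod_cast hJ)
  rw [div_le_iff₀ hδ] at j1
  have hJ0 : (0 : ℝ) ≤ J := Nat.cast_nonneg J
  refine ⟨B, fun l => if l = i then ⌊(p w - e) * J⌋₊ else g l, V × V₂,
    fun ξ => (z ξ, z₂ ξ), fun s => (z' s, z₂' s), fun v l => if l = i + 1 then Q v.2 else P v.1 l,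
    b1, b2, fun l hl => ?_, fun ω hω => ?_, fun v l => ?_, fun ω hω l hl => ?_⟩
  · dsimp only
    by_cases hli : l = i
    · rw [if_pos hli, hli, h2]
      have h3 := (Nat.sub_one_lt_floor ((p w - e) * (J : ℝ))).le
      have h4 : e * J ≤ δ / 2 * J := mul_le_mul_of_nonneg_right he1 hJ0
      linarith
    · rw [if_neg hli, h1 l hli]
      exact b3 l hl
  · show (z (ptr F J ω), z₂ (ptr F J ω)) = (z' (slam F ⌊w * J⌋₊ ω), z₂' (slam F ⌊w * J⌋₊ ω))
    rw [b4 ω hω, q2 ω (b1 ω hω)]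
  · dsimp only
    split_ifs with hl
    · rw [hl]
      exact (q1 v.2).2
    · exact b5 v.1 l
  · dsimp only
    by_cases hli : l = i
    · rw [if_pos hli, if_pos (by omega), hli]
      exact q3 ω (b1 ω hω)
    · rw [if_neg hli, if_neg (by omega)]
      exact b6 ω hω l hl

/-- **The labels at the window `w₀`** of a class with the labels of lemma PLANE. -/
theorem own_labN {S : PCl m} {c : ℕ → Fin m} {N : MNum} {K D : ℕ} (h : LabN S c N K D)
    {β : ℕ → ℝ} (h0 : β 0 = N.g0 0) (h1 : β 1 = N.g0 1) (h2 : β 2 = N.g0 2 - N.s0)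
    (hβ : 0 < β 2) : OwnL S c 3 N.w0 β := by
  intro δ hδ
  obtain ⟨φ, hφ⟩ : ∃ φ : ℝ, φ = min (δ / 4) (β 2 / 4) := ⟨_, rfl⟩
  have hφ0 : 0 < φ := by
    rw [hφ]
    exact lt_min (by linarith) (by linarith)
  have hφ1 : φ ≤ δ / 4 := by
    rw [hφ]
    exact min_le_left _ _
  have hφ2 : φ ≤ β 2 / 4 := by
    rw [hφ]
    exact min_le_right _ _
  obtain ⟨κ, hκ, hB⟩ := h φ hφ0
  obtain ⟨J₁, hJ₁⟩ := exists_nat_ge (4 / δ)
  refine ⟨κ⁻¹, inv_pos.2 hκ, hB.mono (max J₁ 1) ?_⟩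
  rintro J hJ F A ⟨B, b1, b2, ⟨y⟩⟩
  have j1 : 4 / δ ≤ J := hJ₁.trans (by exact_mod_cast (le_max_left _ _).trans hJ)
  have j2 : (1 : ℝ) ≤ J := by exact_mod_cast (le_max_right _ _).trans hJ
  rw [div_le_iff₀ hδ] at j1
  have hJ0 : (0 : ℝ) ≤ J := Nat.cast_nonneg J
  have k1 : φ * J ≤ δ / 4 * J := mul_le_mul_of_nonneg_right hφ1 hJ0
  have k2 : φ * J ≤ β 2 / 4 * J := mul_le_mul_of_nonneg_right hφ2 hJ0
  have k3 : 0 < β 2 * J := mul_pos hβ (by linarith)
  have e0 := (abs_le.1 (y.num0 0 (by norm_num))).1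
  have e1 := (abs_le.1 (y.num0 1 (by norm_num))).1
  have e2 := (abs_le.1 (y.num0 2 (by norm_num))).1
  have e3 := (abs_le.1 y.nums0).2
  have hsg : y.sg0 < y.g0' 2 := by
    have h3 : β 2 * J = N.g0 2 * J - N.s0 * J := by rw [h2]; ring
    have h4 : (y.sg0 : ℝ) < y.g0' 2 := by linarith
    exact_mod_cast h4
  refine ⟨B, fun l => if l = 2 then y.g0' 2 - y.sg0 - 1 else y.g0' l, y.V0, y.zz, y.zz',
    fun v l => if l = 3 then C ((2 : ℝ) ^ y.sg0) * y.P0 v 3 else y.P0 v l, b1, ?_,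
    fun l hl => ?_, y.lab0.cls, fun v l => ?_, fun ω hω l hl => ?_⟩
  · have h3 := mul_le_mul_of_nonneg_left b2 (inv_pos.2 hκ).le
    rwa [← mul_assoc, inv_mul_cancel₀ hκ.ne', one_mul] at h3
  · dsimp only
    rcases (show l = 0 ∨ l = 1 ∨ l = 2 by omega) with rfl | rfl | rfl
    · rw [if_neg (by norm_num), h0]
      linarith
    · rw [if_neg (by norm_num), h1]
      linarith
    · rw [if_pos rfl, h2]
      have h3 : (y.g0' 2 : ℝ) - y.sg0 - 1 ≤ ((y.g0' 2 - y.sg0 - 1 : ℕ) : ℝ) := by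
        have h4 : y.g0' 2 ≤ (y.g0' 2 - y.sg0 - 1) + y.sg0 + 1 := by omega
        have h5 : (y.g0' 2 : ℝ) ≤ ((y.g0' 2 - y.sg0 - 1 : ℕ) : ℝ) + y.sg0 + 1 := by
          exact_mod_cast h4
        linarith
      linarith
  · dsimp only
    split_ifs with hl
    · subst hl
      refine (vars_mul _ _).trans ?_
      rw [vars_C, Finset.empty_union]
      exact y.lab0.tri v 3
    · exact y.lab0.tri v l
  · dsimp only
    rcases (show l = 0 ∨ l = 1 ∨ l = 2 by omega) with rfl | rfl | rfl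
    · rw [if_neg (by norm_num), if_neg (by norm_num)]
      exact y.lab0.pos ω hω 0 (by norm_num)
    · rw [if_neg (by norm_num), if_neg (by norm_num)]
      exact y.lab0.pos ω hω 1 (by norm_num)
    · rw [if_pos rfl, if_pos rfl, map_mul, eval_C]
      have h3 := y.lab0.posN ω hω
      have hp : (0 : ℝ) < 2 ^ y.sg0 := by positivity
      have h4 : px c (ptr F J ω) (2 + 1) - 2 ^ y.sg0 *
          eval (px c (ptr F J ω)) (y.P0 (y.zz (ptr F J ω)) 3) = 2 ^ y.sg0 *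
          (px c (ptr F J ω) (2 + 1) / 2 ^ y.sg0 -
            eval (px c (ptr F J ω)) (y.P0 (y.zz (ptr F J ω)) (2 + 1))) := by
        field_simp
      rw [h4, abs_mul, abs_of_pos hp]
      have h5 : 1 / (2 : ℝ) ^ J ≤ 1 / 2 ^ y.g0' 2 :=
        one_div_le_one_div_of_le (by positivity) (pow_le_pow_right₀ (by norm_num) y.top0)
      have h6 : (2 : ℝ) ^ y.sg0 * (2 * (1 / 2 ^ y.g0' 2)) ≤
          1 / 2 ^ (y.g0' 2 - y.sg0 - 1) := by
        have h7 : (2 : ℝ) ^ (y.g0' 2 - y.sg0 - 1) * (2 ^ y.sg0 * 2) ≤ 2 ^ y.g0' 2 := by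
          rw [← pow_succ, ← pow_add]
          exact (pow_le_pow_right₀ (by norm_num) (by omega))
        rw [le_div_iff₀ (by positivity)]
        have h8 : (0 : ℝ) < 2 ^ y.g0' 2 := by positivity
        have h9 : (2 : ℝ) ^ y.sg0 * (2 * (1 / 2 ^ y.g0' 2)) * 2 ^ (y.g0' 2 - y.sg0 - 1) =
            2 ^ (y.g0' 2 - y.sg0 - 1) * (2 ^ y.sg0 * 2) / 2 ^ y.g0' 2 := by
          field_simp
        rw [h9, div_le_one h8]
        exact h7
      refine le_trans ?_ h6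
      refine mul_le_mul_of_nonneg_left (h3.trans ?_) hp.le
      linarith

end Pool.PM49
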