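import Pool.Agent.H49.PM.Nus
import Pool.Agent.H49.PM.Vol
import Pool.Agent.H3.PM.Mss
import Pool.Agent.H71.MKC.Prw
import Pool.Agent.H71.MKC.Mks
import Pool.Agent.H88.PM.Fls
import Pool.Agent.H58.AFF.HesD
import Pool.Agent.H24.HES.Shn

/-!
# Plan M: the class at two windows, in the order of the second one

`CT`: the facts about a class at two windows `w₀ < w₁`, in the order of the second one: the active
coordinate, the exactness, the relations, the affine thresholds. `ct_of`: they hold. `con_T`,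
`hes_T`, `fls_T`, `mk_T`, `lab_T`: the parts of `PlnMS` at the numbers of the two windows. `pl_T`:
`PlnMS` at the two windows, from the labels and the arrays.
-/

set_option autoImplicit false

namespace Pool.PM49

open Finset Real
open Pool.Agent.H49.Ent Pool.Agent.H32.Dense Pool.STK Pool.KA Pool.KSAT Pool.K2S Pool.PB
open Pool.GEN Pool.S6C Pool.GRW Pool.PKG Pool.R1
open Pool.CHT (chsys bet tau Up1 RelvC TmH)
open Pool.JPN (Dn1)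
open Pool.LBT (ThrOf)
open Pool.ONE (lst)
open Pool.FRN (Wgd Gdy)
open Pool.TOP (T1c T2c)
open Pool.M3F (ExvY)
open Pool.PM93 (AflOf)
open Pool.NJ69 (lam_mono)
open Pool.PM (PkA Wp vc MNum VNum LabM MkS ShvS ShnS FlsS ArrS PlnMS)
open Pool.CHT (relvC_of)
open Pool.PM81 (LabN)
open Pool.PLN (H2S ConS HesS EzS WinS LrS Nums)
open Pool.STAT.CLO (Inj)

/-- The lower bound of the numbers of the active coordinate. -/
theorem act_q {N : ℚ → ℚ → ℝ} {al : ℝ} {g₀ : ℝ → ℝ} (h : ActM N al g₀) {ε : ℝ} (hε : 0 < ε)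
    (hε1 : ε < 1) {g : ℚ} (hg : 0 < g) (hgg : (g : ℝ) ≤ g₀ ε) : (al - ε) * g ≤ N 0 g := by
  by_contra hcon
  push Not at hcon
  have h1 := h ε hε g hg hgg 1
  rw [Finset.filter_true_of_mem (fun i hi => ?_)] at h1
  · rw [Finset.card_range, Nat.cast_one, mul_one] at h1
    linarith
  · have hi0 : i = 0 := by
      rw [Finset.mem_range] at hi
      omega
    subst hi0
    simpa using hcon

/-- **The class at two windows.** `b0`, `b1`: the numbers of the order at the two windows; `tp`: the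
largest number at `w₀` in its own order. -/
structure CT (S : PCl 4) (c : ℕ → Fin 4) (al : ℝ) (g₀ : ℝ → ℝ) (Nc : ℚ → ℚ → ℝ) (θ : ℝ)
    (PP : List (Fin 4) × Fin 4 → ℝ → ℝ → ℝ) (w₀ w₁ : ℝ) (b0 b1 : ℕ → ℝ) (tp : ℝ)
    (p2 p3 : ℝ → ℝ) : Prop where
  ne : S.Ne
  mem : ∀ (τ : ℝ) (J : ℕ) (F : Fam 4 J) (A : F.Ω → Prop), S.St τ J F A →
    F.Tr ∧ F.Tm (τ * J) ∧ F.Rb (τ * J) ∧ Real.exp (-(τ * J)) ≤ Pe F.p A
  x2 : ∀ (τ : ℝ) (J : ℕ) (F : Fam 4 J) (A : F.Ω → Prop), S.St τ J F A → ∀ ω i, |F.x ω i| ≤ 2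
  act : ActM Nc al g₀
  actb : ActB Nc S (c 0)
  thr : ThrOf (chsys 4 θ) S PP
  inj : Inj c 3
  rel : RelvC S c 3 (fun l => bet PP c l w₀ w₀) w₀ w₀ (θ * w₀ / 2)
  bt : ∀ σ : ℝ, 0 < σ → ∃ W : ℚ, w₀ ≤ W ∧ (W : ℝ) ≤ 1 ∧ bet PP c 1 W W ≤ b0 1 + σ
  be : ∀ l < 3, bet PP c l w₀ w₀ = b0 l
  ex1 : ∀ ρ : ℝ, 0 < ρ → ExvY S w₁ (fun J F ω (i : Fin 3) => F.X J ω (c i))
    ((∑ l ∈ range 3, (1 - b1 l)) - ρ)
  ex0 : ∀ ρ : ℝ, 0 < ρ → ExvY S w₀ (fun J F ω (i : Fin 3) => F.X J ω (c i))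
    (((1 - w₀) + (1 - b0 1) + (1 - tp)) - ρ)
  ey1 : ∀ ρ : ℝ, 0 < ρ → ExvY S w₁ (fun J F ω (i : Fin 2) => F.X J ω (c i))
    ((∑ l ∈ range 2, (1 - b1 l)) - ρ)
  ey0 : ∀ ρ : ℝ, 0 < ρ → ExvY S w₀ (fun J F ω (i : Fin 2) => F.X J ω (c i))
    ((∑ l ∈ range 2, (1 - b0 l)) - ρ)
  af2 : AflOf S c 2 p2
  af3 : AflOf S c 3 p3
  c2 : ContinuousAt p2 w₀
  c3 : ContinuousAt p3 w₀

section ct

variable {hn : 2 ≤ 4} {S : PCl 4} {P : ℝ → ℝ → ℝ} {r : ℝ → ℝ}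
  {P' : ℕ → List (Fin 4) × Fin 4 → ℝ → ℝ → ℝ} {Λ : Finset (Fin 4) → Fin 4 → ℝ → ℝ → ℝ}
  {pa : Equiv.Perm (Fin (4 - 1)) → Fin 4 → ℝ → ℝ}

/-- **The facts hold.** -/
theorem ct_of (H : PkA hn S P r P' Λ pa) (hF2 : FZX 2) (hF : FZX (4 - 1)) {al : ℝ} {g₀ : ℝ → ℝ}
    {s : Fin 4 → ℝ} {d : ℕ → ℝ} {e : ℝ} {K₀ : ℕ} {Nc : ℚ → ℚ → ℝ} (hC : ClX s d al g₀ e K₀ Nc S)
    {w₀ w₁ P1 cD α : ℝ} {c₀ : ℕ → Fin 4} (h0 : w₀ ∈ Wp P P' Λ pa) (h1 : w₁ ∈ Wp P P' Λ pa)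
    {j : ℕ} (hT : TwoW hn S P r (tht j) (P' j) w₀ w₁ α c₀ (cc hn (ow Λ w₁)) P1 cD)
    {P0 a2 a3 vs : ℝ} (hN : NumT w₀ w₁ P0 P1 cD
      (fun i => bet (P' j) (cc hn (ow Λ w₁)) i w₀ w₀)
      (fun i => bet (P' j) (cc hn (ow Λ w₁)) i w₁ w₁) a2 a3 (nb Λ (ow Λ w₀) 2 w₀) vs)
    (hl0 : bet (P' j) (cc hn (ow Λ w₁)) 1 w₀ w₀ =
      Λ {cc hn (ow Λ w₁) 0} (cc hn (ow Λ w₁) 1) w₀ w₀)
    (hl1 : bet (P' j) (cc hn (ow Λ w₁)) 1 w₁ w₁ =
      Λ {cc hn (ow Λ w₁) 0} (cc hn (ow Λ w₁) 1) w₁ w₁)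
    (hnb : nb Λ (ow Λ w₀) 1 w₀ ≤ bet (P' j) (cc hn (ow Λ w₁)) 1 w₀ w₀)
    (hvs : 4 * vs < tht j * w₀) :
    CT S (cc hn (ow Λ w₁)) al g₀ Nc (tht j) (P' j) w₀ w₁
      (fun i => bet (P' j) (cc hn (ow Λ w₁)) i w₀ w₀)
      (fun i => bet (P' j) (cc hn (ow Λ w₁)) i w₁ w₁) (nb Λ (ow Λ w₀) 2 w₀)
      (pa (ow Λ w₁) 2) (pa (ow Λ w₁) 3) := by
  have hg := h0.1.1
  have hg1 := h1.1.1
  have hlt : w₀ < 1 := hg.lt
  have hinj : Inj (cc hn (ow Λ w₁)) 3 := fun l hl l' hl' h =>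
    cc_inj hn (ow Λ w₁) (show l ∈ Set.Iio 4 from Set.mem_Iio.2 (by omega))
      (show l' ∈ Set.Iio 4 from Set.mem_Iio.2 (by omega)) h
  have hmem := pk_mem H.toPk
  have hS : TmH S := Pool.CHT.tmH_of_reg hmem
  have hwd := Wgd.self (hg.wgd j) hlt
  have hθ := hT.θ1
  have hcD := hN.cD0
  have hθw : tht j * w₀ ≤ tht j := mul_le_of_le_one_right (tht_pos j).le hlt.le
  have hc01 : cc hn (ow Λ w₁) 1 ≠ cc hn (ow Λ w₁) 0 := fun h => by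
    have := hinj 1 (by norm_num) 0 (by norm_num) h
    omega
  have b0e : bet (P' j) (cc hn (ow Λ w₁)) 0 w₀ w₀ = w₀ := hN.b00
  have b1e : bet (P' j) (cc hn (ow Λ w₁)) 0 w₁ w₁ = w₁ := hN.b10
  have s01 : w₀ ≤ bet (P' j) (cc hn (ow Λ w₁)) 1 w₀ w₀ := hN.s01
  have s0w : w₀ ≤ bet (P' j) (cc hn (ow Λ w₁)) 2 w₀ w₀ := hN.s0w
  have s02 : bet (P' j) (cc hn (ow Λ w₁)) 1 w₀ w₀ ≤
    bet (P' j) (cc hn (ow Λ w₁)) 2 w₀ w₀ + vs := hN.s02
  have m1 : bet (P' j) (cc hn (ow Λ w₁)) 1 w₀ w₀ ≤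
    bet (P' j) (cc hn (ow Λ w₁)) 1 w₁ w₁ := hN.m1
  have s12 : bet (P' j) (cc hn (ow Λ w₁)) 1 w₁ w₁ ≤
    bet (P' j) (cc hn (ow Λ w₁)) 2 w₁ w₁ := hN.s12
  have m2 : bet (P' j) (cc hn (ow Λ w₁)) 2 w₀ w₀ ≤
    bet (P' j) (cc hn (ow Λ w₁)) 2 w₁ w₁ := hN.m2
  have t1 : bet (P' j) (cc hn (ow Λ w₁)) 2 w₁ w₁ ≤ 1 - 3 / 4 * cD := hN.t1
  have hvs0 := hN.vs0
  have hw01 := hN.w01
  have hy : ∀ {w : ℝ} (hw : Gwd P P' Λ w) {x y : ℝ}, x = w →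
      y = Λ {cc hn (ow Λ w₁) 0} (cc hn (ow Λ w₁) 1) w w → ∀ ρ : ℝ, 0 < ρ →
      ExvY S w (fun J F ω (i : Fin 2) => F.X J ω (cc hn (ow Λ w₁) i))
        (((1 - x) + (1 - y)) - ρ) := by
    intro w hw x y hx hy ρ hρ
    rw [hx, hy]
    exact exv_pair H.toPk (by norm_num) hF2 (cc_act hg1) hc01 hw hρ
  refine ⟨H.ne, hmem, pk_x2 H.toPk, hC.actm, hC.actb _ (cc_act hg1), hT.cht, hinj, ?_, ?_,
    fun l _ => rfl, ?_, ?_, ?_, ?_, H.afl _ 2, H.afl _ 3, h0.2 _ _, h0.2 _ _⟩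
  · refine relvC_of hT.cht (tht_pos j) hS (fun l hl l' hl' h => hinj l hl l' hl' h)
      hg.pos le_rfl hlt (fun l _ => hwd.up _ l) (fun l hl => ?_) (vs := vs) hvs0
      (fun i hi l hl => ?_) ?_ ?_
    · rcases (show l = 0 ∨ l = 1 ∨ l = 2 by omega) with rfl | rfl | rfl <;> linarith
    · rcases (show (l = 0 ∧ i = 1) ∨ (l = 0 ∧ i = 2) ∨ (l = 1 ∧ i = 2) by omega) with
        ⟨rfl, rfl⟩ | ⟨rfl, rfl⟩ | ⟨rfl, rfl⟩ <;> linarith
    · have := mul_pos (tht_pos j) hg.pos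
      linarith
    · have := mul_pos (tht_pos j) hg.pos
      linarith
  · intro σ hσ
    obtain ⟨V, o₀, hV, ho₀, hup⟩ := hwd.up (cc hn (ow Λ w₁)) 1
    obtain ⟨W, hW1, hW2⟩ := exists_rat_btwn (show w₀ < min (w₀ + o₀) (min 1 (w₀ + σ / (V + 1))) from
      lt_min (by linarith) (lt_min hlt (by have := div_pos hσ (show 0 < V + 1 by linarith)
                                           linarith)))
    have hW3 := hW2.trans_le (min_le_left _ _)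
    have hW4 := hW2.trans_le ((min_le_right _ _).trans (min_le_left _ _))
    have hW5 := hW2.trans_le ((min_le_right _ _).trans (min_le_right _ _))
    refine ⟨W, hW1.le, hW4.le, ?_⟩
    have h3 := hup ((W : ℝ) - w₀) (by linarith) (by linarith)
    rw [show w₀ + ((W : ℝ) - w₀) = W by ring] at h3
    show bet (P' j) (cc hn (ow Λ w₁)) 1 W W ≤ bet (P' j) (cc hn (ow Λ w₁)) 1 w₀ w₀ + σ
    have h4 : (W : ℝ) - w₀ ≤ σ / (V + 1) := by linarith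
    rw [le_div_iff₀ (by linarith)] at h4
    nlinarith
  · exact fun ρ hρ => hT.ex1 ρ hρ
  · intro ρ hρ
    have e1 := exv_gw H.toPk hF hg hρ
    have e2 : (((4 - 1 : ℕ) : ℝ) - vol Λ w₀) = ∑ l ∈ range 3, (1 - nb Λ (ow Λ w₀) l w₀) := by
      rw [← vx_eq H.toPk hF hg, nb_vx H.toPk hF hg, show 4 - 1 = 3 from rfl]
      rw [Pool.R1.sum_one_sub]
    have e3 : (1 - w₀) + (1 - bet (P' j) (cc hn (ow Λ w₁)) 1 w₀ w₀) +
        (1 - nb Λ (ow Λ w₀) 2 w₀) ≤ ∑ l ∈ range 3, (1 - nb Λ (ow Λ w₀) l w₀) := by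
      rw [Finset.sum_range_succ, Finset.sum_range_succ, Finset.sum_range_one, nb_zero H.toPk hg]
      linarith
    rw [e2] at e1
    have e4 : ExvY S w₀ (fun J F ω (i : Fin 3) => F.X J ω (cc hn (ow Λ w₁) i))
        ((∑ l ∈ range 3, (1 - nb Λ (ow Λ w₀) l w₀)) - ρ) := by
      refine exv_perm (c := fun i : Fin 3 => cc hn (ow Λ w₀) i)
        (c' := fun i : Fin 3 => cc hn (ow Λ w₁) i) (fun i => ?_) e1
      have z0 := cc_zero (hn := hn) hg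
      have z1 := cc_zero (hn := hn) hg1
      fin_cases i
      · exact ⟨0, z1.trans z0.symm⟩
      · show ∃ j : Fin 3, cc hn (ow Λ w₁) j = cc hn (ow Λ w₀) 1
        rcases cc_mid (hn := hn) hg with ⟨x1, x2⟩ | ⟨x1, x2⟩ <;>
          rcases cc_mid (hn := hn) hg1 with ⟨y1, y2⟩ | ⟨y1, y2⟩
        · exact ⟨1, y1.trans x1.symm⟩
        · exact ⟨2, y2.trans x1.symm⟩
        · exact ⟨2, y2.trans x1.symm⟩
        · exact ⟨1, y1.trans x1.symm⟩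
      · show ∃ j : Fin 3, cc hn (ow Λ w₁) j = cc hn (ow Λ w₀) 2
        rcases cc_mid (hn := hn) hg with ⟨x1, x2⟩ | ⟨x1, x2⟩ <;>
          rcases cc_mid (hn := hn) hg1 with ⟨y1, y2⟩ | ⟨y1, y2⟩
        · exact ⟨2, y2.trans x2.symm⟩
        · exact ⟨1, y1.trans x2.symm⟩
        · exact ⟨1, y1.trans x2.symm⟩
        · exact ⟨2, y2.trans x2.symm⟩
    refine e4.mono 0 ?_
    intro J _ F A h2 V z z' hz
    refine le_trans ?_ (h2 V z z' hz)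
    have hJ0 : (0 : ℝ) ≤ J := Nat.cast_nonneg J
    have hl : 0 ≤ Real.log 2 := Real.log_nonneg (by norm_num)
    exact mul_le_mul_of_nonneg_right (mul_le_mul_of_nonneg_right (by linarith) hl) hJ0
  · intro ρ hρ
    have e1 := hy hg1 b1e hl1 ρ hρ
    rw [Finset.sum_range_succ, Finset.sum_range_one]
    exact e1
  · intro ρ hρ
    have e1 := hy hg b0e hl0 ρ hρ
    rw [Finset.sum_range_succ, Finset.sum_range_one]
    exact e1

end ct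

/-! ### The numbers -/

/-- **The numbers of the member** at two windows; `s0`: the weight of `c 2` at the window `w₀`. -/
noncomputable def mnum (w₀ w₁ P1 cD s0 : ℝ) (b0 b1 : ℕ → ℝ) (a2 a3 : ℝ) : MNum where
  w0 := w₀
  w1 := w₁
  g0 := fun i => if i = 2 then b0 2 + s0 else b0 i
  g := b1
  s0 := s0
  s := 0
  β := fun i => if i = 2 then a2 else if i = 3 then a3 else b0 i
  sl := s0
  gN := 1 - cD / 2
  sN := 1 - cD / 2 - P1

section parts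

variable {S : PCl 4} {c : ℕ → Fin 4} {al : ℝ} {g₀ : ℝ → ℝ} {Nc : ℚ → ℚ → ℝ} {θ : ℝ}
  {PP : List (Fin 4) × Fin 4 → ℝ → ℝ → ℝ} {w₀ w₁ P0 P1 cD a2 a3 tp vs s0 : ℝ} {b0 b1 : ℕ → ℝ}
  {p2 p3 : ℝ → ℝ}

theorem NumT.w1lt (h : NumT w₀ w₁ P0 P1 cD b0 b1 a2 a3 tp vs) : w₁ < 1 := by
  have h1 := h.wP
  have h2 := h.P1c
  have h3 := h.cD0
  linarith

theorem mnum_fall : (mnum w₀ w₁ P1 cD s0 b0 b1 a2 a3).fall = b1 2 - a2 := by
  unfold VNum.fall mnum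
  simp

theorem mnum_P1 : (mnum w₀ w₁ P1 cD s0 b0 b1 a2 a3).P1 = P1 := by
  unfold MNum.P1 mnum
  simp

theorem CT.pos (h : CT S c al g₀ Nc θ PP w₀ w₁ b0 b1 tp p2 p3) :
    Bas S (fun _ F A => 0 < Pe F.p A) :=
  ⟨1, one_pos, 0, fun J _ F A hA => lt_of_lt_of_le (Real.exp_pos _) (h.mem 1 J F A hA).2.2.2⟩

theorem CT.wn (h : CT S c al g₀ Nc θ PP w₀ w₁ b0 b1 tp p2 p3) (w : ℝ) : TmWn S w :=
  Pool.PLN.tmWn_reg h.mem w

/-- **The velocities at a point are not on a conic.** -/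
theorem con_T (al : ℝ) (hal : 0 < al) : ∃ εa c₁ C₁ : ℝ, 0 < εa ∧ 0 < c₁ ∧ 1 ≤ C₁ ∧
    ∀ {S : PCl 4} {c : ℕ → Fin 4} {g₀ : ℝ → ℝ} {Nc : ℚ → ℚ → ℝ} {θ : ℝ}
      {PP : List (Fin 4) × Fin 4 → ℝ → ℝ → ℝ} {w₀ w₁ P0 P1 cD a2 a3 tp vs s0 e h : ℝ}
      {b0 b1 : ℕ → ℝ} {p2 p3 : ℝ → ℝ}, CT S c al g₀ Nc θ PP w₀ w₁ b0 b1 tp p2 p3 →
      NumT w₀ w₁ P0 P1 cD b0 b1 a2 a3 tp vs → (∀ ε : ℝ, 0 < ε → 0 < g₀ ε) → H2S S w₀ w₁ e →
      0 ≤ e → 0 ≤ s0 → 4 * s0 ≤ θ * w₀ → s0 ≤ cD / 2 → 0 < h → h ≤ g₀ εa → 4 * h ≤ cD →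
      h < θ * w₀ → w₁ - w₀ < c₁ * h → vs < c₁ * h → e ≤ c₁ * h → C₁ * h ≤ b1 2 - b0 2 - s0 →
      b1 1 < b1 2 → ∀ (K : ℕ) (c₀ : ℝ), 0 < c₀ →
        ConS S c (mnum w₀ w₁ P1 cD s0 b0 b1 a2 a3).toNums K h c₀ := by
  obtain ⟨εa, c₁, C₁, h1, h2, h3, hcon⟩ := Pool.PLN71.con_all al hal
  refine ⟨εa, c₁, C₁, h1, h2, h3, ?_⟩
  intro S c g₀ Nc θ PP w₀ w₁ P0 P1 cD a2 a3 tp vs s0 e h b0 b1 p2 p3 hC hN hg₀ hH2 he hs0 hsθ hsc
    hh hhg hhc hhθ k1 k2 k3 k4 k5 K c₀ hc₀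
  have e0 : bet PP c 0 w₀ w₀ = b0 0 := hC.be 0 (by norm_num)
  have e1 : bet PP c 1 w₀ w₀ = b0 1 := hC.be 1 (by norm_num)
  have e2 : bet PP c 2 w₀ w₀ = b0 2 := hC.be 2 (by norm_num)
  have hθw : 0 < θ * w₀ := hh.trans hhθ
  have n1 := hN.w01
  have n2 := hN.s01
  have n3 := hN.s0w
  have n4 := hN.s11
  have n5 := hN.s12
  have n6 := hN.t1
  have n7 := hN.cD0
  have n8 := hN.m2
  have n9 := hN.b10
  have n10 := hN.b00
  have n11 := hN.m1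
  have n12 := hN.m1v
  obtain ⟨φ₂, hφ₂, H⟩ := hcon hC.mem hC.act hg₀ hC.actb hC.thr hC.inj (W := w₀) (w1 := w₁)
    (be0 := fun l => bet PP c l w₀ w₀) (be1 := b1) (e := e) (e₀ := θ * w₀ / 2)
    (e₀' := θ * w₀ / 4) (γ := (b1 2 - b1 1) / 2) (h := h) hN.w00 n1.le hN.w1lt hC.ey1
    (fun l hl => by
      rcases (show l = 0 ∨ l = 1 by omega) with rfl | rfl
      · linarith [hN.w1lt]
      · linarith)
    (fun l hl => by
      rcases (show l = 0 ∨ l = 1 by omega) with rfl | rfl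
      · exact n9.ge
      · exact n4)
    (by show w₀ ≤ bet PP c 1 w₀ w₀
        rw [e1]
        exact n2)
    (by show w₀ ≤ bet PP c 2 w₀ w₀
        rw [e2]
        exact n3)
    (fun σ hσ => by
      show ∃ W' : ℚ, w₀ ≤ W' ∧ W' ≤ 1 ∧ bet PP c 1 W' W' ≤ bet PP c 1 w₀ w₀ + σ
      rw [e1]
      obtain ⟨W', q1, q2, q3⟩ := hC.bt σ hσ
      exact ⟨W', q1, by exact_mod_cast q2, q3⟩)
    hC.rel (by linarith) (by linarith) (by linarith) hH2 he hh hhg (by linarith)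
    (by show h < 1 - bet PP c 1 w₀ w₀
        rw [e1]
        linarith)
    hhθ k1 (by rw [n9]; exact k1)
    (by show b1 1 - bet PP c 1 w₀ w₀ < c₁ * h
        rw [e1]
        linarith) k3
  obtain ⟨φ₁, hφ₁, H⟩ := H K
  refine H (mnum w₀ w₁ P1 cD s0 b0 b1 a2 a3).toNums rfl rfl (fun l _ => rfl)
    (fun l hl => ?_) ?_ ?_ (fun l hl => ?_) ?_ ?_ ?_ ?_ ?_ c₀ hc₀
  · show (if l = 2 then b0 2 + s0 else b0 l) = bet PP c l w₀ w₀
    rw [if_neg (by omega)]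
    exact (hC.be l (by omega)).symm
  · show (b0 2 + s0) - s0 - bet PP c 2 w₀ w₀ ≤ φ₁
    rw [e2]
    linarith
  · show bet PP c 2 w₀ w₀ - ((b0 2 + s0) - s0) ≤ φ₂
    rw [e2]
    linarith
  · show b1 l + 2 * ((b1 2 - b1 1) / 2) ≤ b1 2
    rcases (show l = 0 ∨ l = 1 by omega) with rfl | rfl
    · linarith
    · linarith
  · show w₁ + 2 * ((b1 2 - b1 1) / 2) ≤ b1 2
    linarith
  · show b0 2 + s0 < 1
    linarith
  · show b0 2 + s0 ≤ max (b0 1) ((b0 2 + s0) - s0) + θ * w₀ / 4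
    have := le_max_right (b0 1) ((b0 2 + s0) - s0)
    linarith
  · show C₁ * h ≤ (b1 2 - 0) - ((b0 2 + s0) - s0)
    linarith
  · show C₁ * h ≤ b1 2 - (b0 2 + s0)
    linarith

/-- **The Hessians** of the leaves. -/
theorem hes_T (hC : CT S c al g₀ Nc θ PP w₀ w₁ b0 b1 tp p2 p3)
    (hN : NumT w₀ w₁ P0 P1 cD b0 b1 a2 a3 tp vs) {h e' : ℝ} (hh : 0 < h) (hhc : 4 * h ≤ cD)
    (he : 3 * (w₁ - w₀) + h < e') (k5 : b1 1 < b1 2) {K : ℕ} (K' : ℕ)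
    (hcon : ∀ c₁ : ℝ, 0 < c₁ → ConS S c (mnum w₀ w₁ P1 cD s0 b0 b1 a2 a3).toNums K h c₁) {c₀ : ℝ}
    (hc₀ : 0 < c₀) : HesS S c (mnum w₀ w₁ P1 cD s0 b0 b1 a2 a3).toNums
      (mnum w₀ w₁ P1 cD s0 b0 b1 a2 a3).toNums K K K' e' c₀ := by
  have n1 := hN.w01
  have n2 := hN.s01
  have n4 := hN.s11
  have n5 := hN.s12
  have n6 := hN.t1
  have n7 := hN.cD0
  have n8 := hN.m2
  have n9 := hN.b10
  have n10 := hN.b00
  have n11 := hN.m1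
  have n12 := hN.w00
  have hTm := Pool.CHT.tmH_of_reg hC.mem
  have w1lt := hN.w1lt
  refine Pool.PLN.hesS (fun τ J F A hS => (hC.mem τ J F A hS).2.2.2)
    (N := (mnum w₀ w₁ P1 cD s0 b0 b1 a2 a3).toNums)
    (N₁ := (mnum w₀ w₁ P1 cD s0 b0 b1 a2 a3).toNums)
    (D := max K' 1) (h := h) n12.le n1.le hh ?_ ?_ ?_ ?_ ?_ ?_ ?_ (le_max_right _ _)
    (le_max_left _ _) he hc₀ hcon (fun b c₁ hb hc₁ => ?_) (fun b c₁ hb hc₁ => ?_)
    (fun b c₁ hb hc₁ => ?_)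
  · show w₁ + h < 1
    linarith
  · show b1 0 + h < 1
    linarith
  · show b1 1 + h < 1
    linarith
  · show w₁ < b1 2
    linarith
  · show b1 0 < b1 2
    linarith
  · exact k5
  · show b0 1 < 1
    linarith
  · exact Pool.PLA.ezs hTm.1 hTm.2 n12.le (show w₀ < 1 by linarith) hb hc₁
  · exact Pool.PLN.winS hC.mem (show (0 : ℝ) ≤ w₁ by linarith) w1lt hb hc₁
  · have hD0 : (0 : ℝ) ≤ (max K' 1 : ℕ) := Nat.cast_nonneg _
    refine ⟨b * c₁ / (12 * (max K' 1 : ℕ) + 12), ?_⟩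
    refine Pool.PLN.lrS hC.mem n12.le n1.le w1lt (show b1 0 < 1 by linarith)
      (show b1 1 < 1 by linarith) (show w₁ < b1 2 by linarith) (show b0 1 < 1 by linarith)
      hC.ey1 (by positivity) hc₁ ?_
    rw [mul_div_cancel₀ _ (by positivity), mul_div_cancel_right₀ _ hc₁.ne']

/-- **The slopes of the sheets are separated.** -/
theorem fls_T (hC : CT S c al g₀ Nc θ PP w₀ w₁ b0 b1 tp p2 p3)
    (hN : NumT w₀ w₁ P0 P1 cD b0 b1 a2 a3 tp vs) (ha2 : p2 w₀ = a2) (hat : a2 ≤ tp) {e : ℝ}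
    (hH2 : H2S S w₀ w₁ e) (he : 0 ≤ e) {q : ℚ} {b b' : ℝ} (hq : 0 < q) (hqb : (q : ℝ) ≤ b)
    (hb : 0 < b) (hvs : vs ≤ b) (hN' : 2 * e < Nc 0 q * Real.log 2) (hb' : 5 * b < b')
    (hf : 9 * b < b1 2 - a2) (hbc : 4 * b ≤ cD) {K : ℕ} {c₀ : ℝ} (hc₀ : 0 < c₀) :
    FlsS S c (mnum w₀ w₁ P1 cD s0 b0 b1 a2 a3).toVNum K b b' c₀ := by
  have n1 := hN.w01
  have n2 := hN.s01
  have n4 := hN.s11
  have n5 := hN.s12
  have n6 := hN.t1
  have n7 := hN.cD0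
  have n8 := hN.m2
  have n9 := hN.b10
  have n10 := hN.b00
  have n11 := hN.m1
  have n12 := hN.w00
  have n13 := hN.a2l
  have n14 := hN.a2w
  have n16 := hN.t0
  have w1lt := hN.w1lt
  have n15 := hN.P1c
  refine Pool.PMF.flsS (N := Nc) (h₀ := b) (e := e) (q := q) (show w₀ ≤ 1 by linarith) hC.pos hH2
    he hC.actb hq (by exact_mod_cast (show (q : ℝ) ≤ 1 by linarith)) hN'
    (show (0 : ℝ) ≤ a2 by linarith) hb.le (show w₀ < b0 0 + b by linarith) hb (by linarith) ?_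
    (show a2 + b < 1 by linarith) (fun i hi => ?_) ?_ hc₀
  · show (q : ℝ) + b + 7 * b < (mnum w₀ w₁ P1 cD s0 b0 b1 a2 a3).fall
    rw [mnum_fall]
    linarith
  · rw [mnum_fall]
    rcases (show i = 0 ∨ i = 1 by omega) with rfl | rfl
    · show b0 0 + (b1 2 - a2) < 1 + b
      linarith
    · show b0 1 + (b1 2 - a2) < 1 + b
      linarith
  · show Bas S (fun J F A => ∀ P : ℕ, (a2 + b) * J ≤ P → P ≤ J →
      ¬ Pool.PM26.Afl F c 2 ⌊w₀ * J⌋₊ P A)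
    rw [← ha2]
    exact hC.af2.non hC.c2 n12.le (by linarith) b hb

/-- **The slopes of the height are not too large.** -/
theorem mk_T (hC : CT S c al g₀ Nc θ PP w₀ w₁ b0 b1 tp p2 p3)
    (hN : NumT w₀ w₁ P0 P1 cD b0 b1 a2 a3 tp vs) (K D : ℕ) :
    MkS S c (mnum w₀ w₁ P1 cD s0 b0 b1 a2 a3) K D (|a3| + |1 - cD / 2 - P1| + 5) := by
  have n1 := hN.w01
  have n2 := hN.s01
  have n5 := hN.s12
  have n6 := hN.t1
  have n7 := hN.cD0
  have n8 := hN.m1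
  have n9 := hN.t0
  have n10 := hN.b00
  have w1lt := hN.w1lt
  have h1 : tp < 1 := by linarith
  refine Pool.MKS71.mkS (S := S) (c := c) (N := mnum w₀ w₁ P1 cD s0 b0 b1 a2 a3) (K := K) (D := D)
    (fun τ J F A hS => lt_of_lt_of_le (Real.exp_pos _) (hC.mem τ J F A hS).2.2.2) hC.x2
    (hC.ex0 ((1 - tp) / 2) (by linarith)) (show b0 0 ≤ 1 by linarith)
    (show b0 1 ≤ 1 by linarith) ?_
  show (1 - b0 0) + (1 - b0 1) < ((1 - w₀) + (1 - b0 1) + (1 - tp)) - (1 - tp) / 2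
  linarith

/-- **The labels exist.** -/
theorem lab_T (hC : CT S c al g₀ Nc θ PP w₀ w₁ b0 b1 tp p2 p3)
    (hN : NumT w₀ w₁ P0 P1 cD b0 b1 a2 a3 tp vs) (ha2 : p2 w₀ = a2) (ha3 : p3 w₀ = a3)
    (hs0 : vs ≤ s0) {K D : ℕ} (hK : 1 ≤ K)
    (hL : LabN S c (mnum w₀ w₁ P1 cD s0 b0 b1 a2 a3) K D) :
    LabM S c (mnum w₀ w₁ P1 cD s0 b0 b1 a2 a3) K D := by
  have n1 := hN.w01
  have n2 := hN.s01
  have n5 := hN.s12
  have n6 := hN.t1
  have n7 := hN.cD0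
  have n8 := hN.m1
  have n10 := hN.b00
  have n11 := hN.vs0
  have n12 := hN.a2w
  have n13 := hN.a2l
  have w1lt := hN.w1lt
  refine Pool.PM81.labM_of hK hC.af2 hC.af3 (γ := cD / 2) (by linarith) hN.w00
    (show w₀ + cD / 2 ≤ 1 by linarith) (fun i hi => ?_) (show 0 ≤ s0 by linarith) (le_refl s0)
    (fun i hi => ?_) ha2.symm ha3.symm (show w₀ ≤ a2 + s0 by linarith) (fun i hi => ?_)
    (hC.wn _) (fun ρ hρ => ?_) hL
  · rcases (show i = 0 ∨ i = 1 by omega) with rfl | rfl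
    · show b0 0 + cD / 2 ≤ 1
      linarith
    · show b0 1 + cD / 2 ≤ 1
      linarith
  · rcases (show i = 0 ∨ i = 1 by omega) with rfl | rfl <;> rfl
  · rcases (show i = 0 ∨ i = 1 by omega) with rfl | rfl
    · show b0 0 ≤ a2 + s0
      linarith
    · show b0 1 ≤ a2 + s0
      linarith
  · have h1 := hC.ey0 ρ hρ
    rw [Finset.sum_range_succ, Finset.sum_range_one] at h1 ⊢
    exact h1

/-- The numbers of the order at `w₀` are at most the largest number there. -/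
theorem top_T (hC : CT S c al g₀ Nc θ PP w₀ w₁ b0 b1 tp p2 p3)
    (hN : NumT w₀ w₁ P0 P1 cD b0 b1 a2 a3 tp vs) (ha2 : p2 w₀ = a2) {K D : ℕ}
    (hL : LabN S c (mnum w₀ w₁ P1 cD s0 b0 b1 a2 a3) K D) : b0 2 ≤ tp ∧ a2 ≤ tp := by
  have n1 := hN.w01
  have n2 := hN.s01
  have n3 := hN.s0w
  have n5 := hN.s12
  have n6 := hN.t1
  have n7 := hN.cD0
  have n8 := hN.m1
  have n9 := hN.m2
  have n10 := hN.b00
  have n12 := hN.w00
  have w1lt := hN.w1lt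
  have o1 : OwnL S c 3 w₀ b0 := own_labN hL (β := b0) rfl rfl
    (by show b0 2 = (b0 2 + s0) - s0
        ring) (by linarith)
  have hb0 : ∀ l < 3, b0 l ≤ 1 := by
    intro l hl
    rcases (show l = 0 ∨ l = 1 ∨ l = 2 by omega) with rfl | rfl | rfl <;> linarith
  have v1 := vol_le hC.ne hC.pos (by norm_num) hb0 o1 hC.ex0
  have o2 : OwnL S c 3 w₀ (fun l => if l = 2 then a2 else b0 l) :=
    lab_afl hC.af2 n12 (by linarith) o1 (fun l hl => if_neg hl) (by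
      show (if 2 = 2 then a2 else b0 2) = p2 w₀
      rw [if_pos rfl, ha2])
  have v2 := vol_le hC.ne hC.pos (by norm_num) (fun l hl => ?_) o2 hC.ex0
  · rw [Finset.sum_range_succ, Finset.sum_range_succ, Finset.sum_range_one] at v1 v2
    simp only [if_true, if_false, (by norm_num : (0 : ℕ) ≠ 2), (by norm_num : (1 : ℕ) ≠ 2)] at v2
    constructor <;> linarith
  · show (if l = 2 then a2 else b0 l) ≤ 1
    split_ifs with h
    · rw [← ha2]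
      exact hC.af2.up _
    · exact hb0 l hl

end parts

/-- `PlnMS` for large falls of the calm levels. -/
theorem pln_vac {S : PCl 4} {c : ℕ → Fin 4} {β : ℕ → ℝ} {w₀ w₁ y P1 sg mv cc η C : ℝ} (hC : 0 < C)
    (h : cc < C * C * y) : PlnMS S c β w₀ w₁ y P1 sg mv cc η C := by
  intro s θ hs hθ h1 h2 h3
  exfalso
  have h4 := mul_le_mul_of_nonneg_left h1 hC.le
  have h5 := mul_pos hC hθ
  nlinarith

/-- **`PlnMS` at the two windows.** -/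
theorem pl_T {al : ℝ} (hal : 0 < al) {g₀ : ℝ → ℝ} (hg₀ : ∀ ε : ℝ, 0 < ε → 0 < g₀ ε) {om : ℝ}
    (hom : 0 < om) {Ce Cs : ℝ} (hCe : 0 ≤ Ce) (hCs : 0 ≤ Cs) {η : ℝ} (hη : 0 < η) :
    ∃ C₀ : ℝ, 2 ≤ C₀ ∧ ∀ {S : PCl 4} {c : ℕ → Fin 4} {Nc : ℚ → ℚ → ℝ} {θ : ℝ}
      {PP : List (Fin 4) × Fin 4 → ℝ → ℝ → ℝ} {w₀ w₁ P0 P1 cD y e tp vs s0 : ℝ} {b0 b1 : ℕ → ℝ}
      {p2 p3 : ℝ → ℝ} {K D : ℕ} {ca Ca : ℝ}, CT S c al g₀ Nc θ PP w₀ w₁ b0 b1 tp p2 p3 →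
      NumT w₀ w₁ P0 P1 cD b0 b1 (p2 w₀) (p3 w₀) tp vs → om ≤ w₀ → cD / 6 ≤ θ →
      2 * (w₁ - w₀) ≤ y → vs ≤ y → vs ≤ s0 → s0 ≤ Cs * y → H2S S w₀ w₁ e → 0 ≤ e → e ≤ Ce * y →
      1 ≤ K → 0 < ca →
      LabN S c (mnum w₀ w₁ P1 cD s0 b0 b1 (p2 w₀) (p3 w₀)) K D →
      (∀ C s θ' : ℝ, Ca ≤ C → 0 < s → 0 < θ' → C * y ≤ s → C * (s + θ') ≤ b1 2 - p2 w₀ →
        C * (s + θ') ≤ min (cD / 16) (b1 2 - tp) →
        ArrS S c (mnum w₀ w₁ P1 cD s0 b0 b1 (p2 w₀) (p3 w₀)) K D s s θ' C ca (η / 10)) →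
      ∀ C : ℝ, max C₀ Ca ≤ C → PlnMS S c (mnum w₀ w₁ P1 cD s0 b0 b1 (p2 w₀) (p3 w₀)).β w₀ w₁ y P1
        (1 - cD / 2 - P1) (b1 2 - p2 w₀) (min (cD / 16) (b1 2 - tp)) η C := by
  obtain ⟨εa, c₁, C₁, hεa, hc₁, hC₁, hcon⟩ := con_T al hal
  obtain ⟨ε₂, hε₂⟩ : ∃ ε₂ : ℝ, ε₂ = min (al / 2) (1 / 2) := ⟨_, rfl⟩
  have hε₂0 : 0 < ε₂ := by
    rw [hε₂]
    exact lt_min (by linarith) (by norm_num)
  have hε₂1 : ε₂ ≤ al / 2 := hε₂.trans_le (min_le_left _ _)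
  have hε₂2 : ε₂ < 1 := (hε₂.trans_le (min_le_right _ _)).trans_lt (by norm_num)
  have hl2 : 0 < Real.log 2 := Real.log_pos one_lt_two
  have ga := hg₀ εa hεa
  have g2 := hg₀ ε₂ hε₂0
  obtain ⟨t1, ht1⟩ : ∃ t, t = 4 * (1 + Ce) / c₁ := ⟨_, rfl⟩
  obtain ⟨t2, ht2⟩ : ∃ t, t = 1 / g₀ εa := ⟨_, rfl⟩
  obtain ⟨t3, ht3⟩ : ∃ t, t = 1 / om := ⟨_, rfl⟩
  obtain ⟨t4, ht4⟩ : ∃ t, t = 8 * Ce / (al * Real.log 2) := ⟨_, rfl⟩
  obtain ⟨t5, ht5⟩ : ∃ t, t = 1 / g₀ ε₂ := ⟨_, rfl⟩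
  have q1 : 0 ≤ t1 := by rw [ht1]; positivity
  have q2 : 0 ≤ t2 := by rw [ht2]; positivity
  have q3 : 0 ≤ t3 := by rw [ht3]; positivity
  have q4 : 0 ≤ t4 := by rw [ht4]; positivity
  have q5 : 0 ≤ t5 := by rw [ht5]; positivity
  have r1 : t1 * c₁ = 4 * (1 + Ce) := by rw [ht1]; field_simp
  have r2 : t2 * g₀ εa = 1 := by rw [ht2]; field_simp
  have r3 : t3 * om = 1 := by rw [ht3]; field_simp
  have r4 : t4 * (al * Real.log 2) = 8 * Ce := by rw [ht4]; field_simp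
  have r5 : t5 * g₀ ε₂ = 1 := by rw [ht5]; field_simp
  obtain ⟨C₀, hC₀⟩ : ∃ C₀ : ℝ, C₀ = 13 + t1 + C₁ + t2 + t3 + t4 + t5 + 8 * Cs := ⟨_, rfl⟩
  refine ⟨C₀, by linarith, ?_⟩
  intro S c Nc θ PP w₀ w₁ P0 P1 cD y e tp vs s0 b0 b1 p2 p3 K D ca Ca hC hN homw hθ hy1 hvy hvs
    hsy hH2 he hey hK hca hL hA C hCC
  have n1 := hN.w01
  have n2 := hN.s01
  have n3 := hN.s02
  have n4 := hN.s11
  have n5 := hN.s12
  have n6 := hN.t1
  have n7 := hN.cD0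
  have n8 := hN.m2
  have n9 := hN.b10
  have n10 := hN.b00
  have n11 := hN.m1
  have n11' := hN.m1v
  have n12 := hN.w00
  have n13 := hN.a2l
  have n14 := hN.a2w
  have n15 := hN.P1c
  have n16 := hN.wP
  have n17 := hN.Pc
  have n18 := hN.a3l
  have n19 := hN.a3u
  have n20 := hN.vs0
  have n21 := hN.t0
  have w1lt := hN.w1lt
  obtain ⟨n22, n23⟩ := top_T hC hN rfl hL
  have hTm := Pool.CHT.tmH_of_reg hC.mem
  have hy0 : 0 < y := by linarith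
  have hs0 : 0 ≤ s0 := by linarith
  obtain ⟨cc, hcc⟩ : ∃ cc : ℝ, cc = min (cD / 16) (b1 2 - tp) := ⟨_, rfl⟩
  have hcc1 : cc ≤ cD / 16 := hcc.trans_le (min_le_left _ _)
  have hcc2 : cc ≤ b1 2 - tp := hcc.trans_le (min_le_right _ _)
  obtain ⟨N, hNe⟩ : ∃ N, N = mnum w₀ w₁ P1 cD s0 b0 b1 (p2 w₀) (p3 w₀) := ⟨_, rfl⟩
  have hCC0 : C₀ ≤ C := (le_max_left C₀ Ca).trans hCC
  -- the falls of the calm levels are small
  rcases lt_or_ge (min (cD / 16) (b1 2 - tp)) (C * C * y) with hbig | hsmall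
  · exact pln_vac (by linarith) hbig
  rw [← hcc] at hsmall
  have hCy : C₀ * y ≤ cc := by
    have h1 : C₀ * y ≤ C * y := mul_le_mul_of_nonneg_right hCC0 hy0.le
    have h2 : 1 * (C * y) ≤ C * (C * y) := mul_le_mul_of_nonneg_right (by linarith)
      (mul_nonneg (by linarith) hy0.le)
    nlinarith
  have h13y : 13 * y ≤ cc := (mul_le_mul_of_nonneg_right (by linarith) hy0.le).trans hCy
  -- the numbers of a loss
  have hb : ∀ b : ℝ, 0 < b → C₀ * y ≤ b → C₀ * b ≤ cc →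
      (y * (1 + Ce) < c₁ * (b / 4) ∧ b / 4 ≤ g₀ εa ∧ b ≤ g₀ ε₂ ∧ b / 4 < θ * w₀ ∧
        C₁ * (b / 4) ≤ b1 2 - b0 2 - s0 ∧ 13 * y ≤ b ∧ 13 * b ≤ cc ∧ b1 1 < b1 2 ∧ 8 * b ≤ 1 ∧
        8 * s0 ≤ b ∧ b ≤ θ * w₀) := by
    intro b hb1 hb2 hb3
    have hC0y : ∀ x : ℝ, x ≤ C₀ → x * y ≤ b ∧ x * b ≤ cc := fun x hx =>
      ⟨(mul_le_mul_of_nonneg_right hx hy0.le).trans hb2,
        (mul_le_mul_of_nonneg_right hx hb1.le).trans hb3⟩
    have s1 := hC0y (t1 + 1) (by linarith)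
    have s2 := hC0y (t2 + 1) (by linarith)
    have s3 := hC0y t3 (by linarith)
    have s5 := hC0y t5 (by linarith)
    have s6 := hC0y (C₁ + 1) (by linarith)
    have s7 := hC0y 13 (by linarith)
    have s8 := hC0y (8 * Cs) (by linarith)
    have s9 : 8 * s0 ≤ b := by
      have := s8.1
      linarith
    have s10 : b ≤ θ * w₀ := by
      have h1 : (t3 * b) * om ≤ cD / 16 * om := mul_le_mul_of_nonneg_right
        (by linarith [s3.2]) hom.le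
      have h2 : t3 * b * om = b := by
        rw [mul_right_comm, r3, one_mul]
      have h3 : cD / 6 * om ≤ θ * w₀ := mul_le_mul hθ homw hom.le (by linarith)
      have h4 : 0 < cD * om := mul_pos n7 hom
      linarith
    refine ⟨?_, ?_, ?_, by linarith, ?_, s7.1, s7.2, by linarith [s7.2], ?_, s9, s10⟩
    · have h1 : (t1 * y + y) * c₁ ≤ b * c₁ := mul_le_mul_of_nonneg_right (by linarith [s1.1]) hc₁.le
      have h2 : t1 * y * c₁ = 4 * (1 + Ce) * y := by rw [← r1]; ring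
      have h3 : 0 < y * c₁ := mul_pos hy0 hc₁
      linarith
    · have h1 : (t2 * b) * g₀ εa ≤ 1 * g₀ εa := mul_le_mul_of_nonneg_right
        (by linarith [s2.2]) ga.le
      have h2 : t2 * b * g₀ εa = b := by
        rw [mul_right_comm, r2, one_mul]
      linarith
    · have h1 : (t5 * b) * g₀ ε₂ ≤ 1 * g₀ ε₂ := mul_le_mul_of_nonneg_right
        (by linarith [s5.2]) g2.le
      have h2 : t5 * b * g₀ ε₂ = b := by
        rw [mul_right_comm, r5, one_mul]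
      linarith
    · linarith [s6.2, mul_pos (show 0 < C₁ by linarith) hb1]
    · linarith [s7.2, hcc1]
  have hcon' : ∀ b : ℝ, 0 < b → C₀ * y ≤ b → C₀ * b ≤ cc → ∀ c' : ℝ, 0 < c' →
      ConS S c N.toNums K (b / 4) c' := by
    intro b hb1 hb2 hb3 c' hc'
    obtain ⟨h1, h2, h3, h4, h5, h6, h7, h8, h9, h11, h12⟩ := hb b hb1 hb2 hb3
    rw [hNe]
    have h10 : 0 ≤ Ce * y := mul_nonneg hCe hy0.le
    exact hcon hC hN hg₀ hH2 he hs0 (by linarith) (by linarith) (by linarith) h2 (by linarith) h4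
      (by linarith) (by linarith) (by linarith) h5 h8 K c' hc'
  have hhes : ∀ b : ℝ, 0 < b → C₀ * y ≤ b → C₀ * b ≤ cc → ∀ (K' : ℕ) (c' : ℝ), 0 < c' →
      HesS S c N.toNums N.toNums K K K' (b / 2) c' := by
    intro b hb1 hb2 hb3 K' c' hc'
    obtain ⟨h1, h2, h3, h4, h5, h6, h7, h8, h9, h11, h12⟩ := hb b hb1 hb2 hb3
    have h10 := hcon' b hb1 hb2 hb3
    rw [hNe] at h10 ⊢
    exact hes_T hC hN (h := b / 4) (by linarith) (by linarith) (by linarith) h8 K' h10 hc'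
  have hfall : N.fall = b1 2 - p2 w₀ := by
    rw [hNe]
    exact mnum_fall
  have hP1 : N.P1 = P1 := by
    rw [hNe]
    exact mnum_P1
  have e0 : N.w0 = w₀ := by rw [hNe]; rfl
  have e1 : N.w1 = w₁ := by rw [hNe]; rfl
  have e2 : N.g = b1 := by rw [hNe]; rfl
  have e3 : N.g0 1 = b0 1 := by rw [hNe]; rfl
  have e4 : N.β 0 = b0 0 := by rw [hNe]; rfl
  have e5 : N.β 1 = b0 1 := by rw [hNe]; rfl
  have e6 : N.β 2 = p2 w₀ := by rw [hNe]; rfl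
  have e7 : N.β 3 = p3 w₀ := by rw [hNe]; rfl
  have e8 : N.sN = 1 - cD / 2 - P1 := by rw [hNe]; rfl
  have hpos : ∀ (τ : ℝ) (J : ℕ) (F : Fam 4 J) (A : F.Ω → Prop), S.St τ J F A → 0 < Pe F.p A :=
    fun τ J F A hS => lt_of_lt_of_le (Real.exp_pos _) (hC.mem τ J F A hS).2.2.2
  have hez : ∀ b c₁ : ℝ, 0 < b → 0 < c₁ → EzS S c N.toNums K b c₁ := fun b c₁ hb hc₁ => by
    refine Pool.PLA.ezs hTm.1 hTm.2 (N := N.toNums) ?_ ?_ hb hc₁
    · rw [show N.toNums.w0 = w₀ from e0]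
      exact n12.le
    · rw [show N.toNums.w0 = w₀ from e0]
      linarith
  have key := Pool.PM.plnMS_of (S := S) (c := c) (N := N) (K := K) (D := D)
    (R := |p3 w₀| + |1 - cD / 2 - P1| + 5) (η := η) (y := y) (cc := cc) hη hy0.le hC.pos
    (by positivity) (by rw [hNe]; exact lab_T hC hN rfl rfl hvs hK hL)
    (by rw [hNe]; exact mk_T hC hN K D) (hC.wn _) (by rw [e0]; exact n12.le)
    (by rw [e0]; linarith) (Ca := Ca) (Cv := C₀) (Cn := C₀) (Cf := C₀) (c₁ := ca)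
    (fun b hb1 hb2 hb3 hb4 => ?_) (fun b hb1 hb2 hb3 hb4 => ?_) (fun b hb1 hb2 hb3 hb4 => ?_)
    (fun C' s θ' hc1 hs hθ' h1 h2 h3 => ?_) ?_ (fun i hi => ?_) C ?_
  · rw [hfall, hP1, e0, e1, e8, hNe, hcc] at key
    exact key
  · obtain ⟨h1, h2, h3, h4, h5, h6, h7, h8, h9, h11, h12⟩ := hb b hb1 hb2 hb4
    have hco := hcon' b hb1 hb2 hb4
    have hhe := hhes b hb1 hb2 hb4
    exact Pool.HSC.shvS hpos (K' := max K 1) (by rw [e0]; exact hC.wn _) hez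
      (by rw [e0]; exact n12.le) (by rw [e0, e1]; exact n1.le)
      (by rw [e1]; exact w1lt) (by rw [e2]; linarith) (by rw [e2]; linarith)
      (h := b / 4) (by linarith) (by linarith) (e' := b / 2) (by linarith) (by linarith)
      (by rw [hfall]; linarith) (by rw [e0, e4, n10]) (by rw [e3, e5])
      (by rw [e0, hfall]; linarith) (by rw [e3, hfall]; linarith) (le_max_left _ _)
      (le_max_right _ _) hco (fun c' hc' => hhe _ c' hc')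
      (lt_min hca (by positivity))
  · obtain ⟨h1, h2, h3, h4, h5, h6, h7, h8, h9, h11, h12⟩ := hb b hb1 hb2 hb4
    have hco := hcon' b hb1 hb2 hb4
    have hhe := hhes b hb1 hb2 hb4
    exact Pool.HSC.shnS hpos (K' := max K 1 * max K 1) (by rw [e0]; exact hC.wn _) hez
      (by rw [e0]; exact n12.le) (by rw [e0, e1]; exact n1.le)
      (by rw [e1]; exact w1lt) (by rw [e2]; linarith) (by rw [e2]; linarith)
      (by rw [e2]; linarith) (h := b / 4) (by linarith) (by linarith) (e' := b / 2) (by linarith)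
      (by linarith) (by rw [hfall]; linarith) (by rw [hP1, e7]; linarith)
      (by rw [e8]; linarith) (by rw [e0, e4, n10]) (by rw [e3, e5])
      (by rw [e0, hfall]; linarith) (by rw [e3, hfall]; linarith) le_rfl hco
      (fun c' hc' => hhe _ c' hc') (lt_min hca (by positivity))
  · obtain ⟨h1, h2, h3, h4, h5, h6, h7, h8, h9, h11, h12⟩ := hb b hb1 hb2 hb4
    obtain ⟨q, hq1, hq2⟩ := exists_rat_btwn (show b / 2 < b by linarith)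
    have hq0 : (0 : ℝ) < q := by linarith
    have hq0' : (0 : ℚ) < q := by exact_mod_cast hq0
    have hact := act_q hC.act hε₂0 hε₂2 hq0' (by linarith)
    rw [hNe]
    have h00 : 13 * b ≤ C₀ * b := mul_le_mul_of_nonneg_right (by linarith) hb1.le
    refine fls_T hC hN rfl n23 hH2 he hq0' hq2.le hb1 (by linarith) ?_ (by linarith)
      (by linarith) (by linarith) (by positivity)
    -- the active coordinate
    have h10 : al / 2 * q ≤ Nc 0 q := le_trans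
      (mul_le_mul_of_nonneg_right (by linarith) hq0.le) hact
    have h11' : (t4 + 1) * y ≤ b := (mul_le_mul_of_nonneg_right (by linarith) hy0.le).trans hb2
    have h12' : 0 < al * Real.log 2 := mul_pos hal hl2
    have h13 : (t4 * y + y) * (al * Real.log 2) ≤ b * (al * Real.log 2) :=
      mul_le_mul_of_nonneg_right (by linarith) h12'.le
    have h14 : t4 * y * (al * Real.log 2) = 8 * Ce * y := by rw [← r4]; ring
    have h15 : al / 2 * q * Real.log 2 ≤ Nc 0 q * Real.log 2 :=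
      mul_le_mul_of_nonneg_right h10 hl2.le
    have h16 : al / 2 * (b / 2) * Real.log 2 ≤ al / 2 * q * Real.log 2 :=
      mul_le_mul_of_nonneg_right (mul_le_mul_of_nonneg_left hq1.le (by linarith)) hl2.le
    have h17 : 0 < y * (al * Real.log 2) := mul_pos hy0 h12'
    linarith
  · rw [hNe]
    exact hA C' s θ' hc1 hs hθ' h1 (by rw [← hfall]; exact h2) (by rw [← hcc]; exact h3)
  · rw [hP1, e7]
    linarith
  · rw [hfall]
    rcases (show i = 0 ∨ i = 1 ∨ i = 2 by omega) with rfl | rfl | rfl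
    · rw [e4]
      linarith
    · rw [e5]
      linarith
    · rw [e6]
      linarith
  · have h1 := (le_max_left C₀ Ca).trans hCC
    have h2 := (le_max_right C₀ Ca).trans hCC
    exact max_le (by linarith) (max_le h2 (max_le h1 (max_le h1 h1)))

end Pool.PM49
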