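import Pool.Agent.H49.PM.Pair
import Pool.Agent.H53.HV.LabNr
import Pool.Agent.H34.NJ.Win
import Pool.Agent.H93.PM.Twa
import Pool.Agent.H96.R1.Fct

/-!
# Plan M: the pairs of windows

`afl_perm`, `pa_perm`: the thresholds of the affine labels do not depend on the order of the other
coordinates. `ArrH`: the arrays, as a hypothesis. `pairU_of`: the facts for the pairs of windows
before the window at which the last row is reached.
-/

set_option autoImplicit false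

namespace Pool.PM49

open Finset Real MvPolynomial
open Pool.Agent.H49.Ent Pool.Agent.H32.Dense Pool.STK Pool.KA Pool.KSAT Pool.K2S Pool.PB
open Pool.GEN Pool.S6C Pool.GRW Pool.PKG Pool.R1
open Pool.STAT (PN TriN)
open Pool.STAT.CLO Pool.M3F
open Pool.CHT (chsys bet tau Up1 RelvC TmH Csl)
open Pool.JPN (Dn1)
open Pool.LBT (ThrOf)
open Pool.ONE (lst Mic Sta Jmp)
open Pool.FRN (Wgd Gdy)
open Pool.PM93 (AflOf)
open Pool.PM26 (Afl)
open Pool.PM (PkA Wp vc MNum VNum ArrS PlnMS PrOk PairU LastW BadR ConT)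
open Pool.PM81 (LabN)
open Pool.PLN (H2S)

/-! ### The order of the other coordinates -/

/-- An affine label, for another order of the other coordinates. -/
theorem afl_perm {m J : ℕ} {F : Fam m J} {c c' : ℕ → Fin m} {i w P : ℕ} {A : F.Ω → Prop}
    {κ : ℕ → ℕ} (hκ : ∀ l < i, κ l < i ∧ c' l = c (κ l)) (hi : c' i = c i)
    (h : Afl F c' i w P A) : Afl F c i w P A := by
  obtain ⟨V, z, z', Q, h1, h2, h3⟩ := h
  obtain ⟨ρ, hρ⟩ : ∃ ρ : ℕ → ℕ, ρ = fun n => if n = 0 then 0 else κ (n - 1) + 1 := ⟨_, rfl⟩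
  have hρr : ∀ n ∈ range (i + 1), ρ n ∈ range (i + 1) := by
    intro n hn
    rw [mem_range] at hn ⊢
    rw [hρ]
    dsimp only
    split_ifs with h0
    · omega
    · have := (hκ (n - 1) (by omega)).1
      omega
  have hpx : ∀ ω, ∀ n ∈ range (i + 1), px c (ptr F J ω) (ρ n) = px c' (ptr F J ω) n := by
    intro ω n hn
    rw [mem_range] at hn
    rcases Nat.eq_zero_or_pos n with rfl | h0
    · rw [hρ]
      dsimp only
      rw [if_pos rfl, px_zero, px_zero]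
    · obtain ⟨l, rfl⟩ : ∃ l, n = l + 1 := ⟨n - 1, by omega⟩
      rw [hρ]
      dsimp only
      rw [if_neg (by omega), Nat.add_sub_cancel, px_succ, px_succ, (hκ l (by omega)).2]
  have hev : ∀ ω v, eval (px c (ptr F J ω)) (rename ρ (Q v)) =
      eval (px c' (ptr F J ω)) (Q v) := by
    intro ω v
    rw [eval_rename]
    refine eval₂Hom_congr' rfl (fun l hl _ => ?_) rfl
    exact hpx ω l ((h1 v).2 hl)
  refine ⟨V, z, z', fun v => rename ρ (Q v), fun v => ⟨?_, ?_⟩, h2, fun ω hω => ?_⟩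
  · exact (totalDegree_rename_le _ _).trans (h1 v).1
  · refine (vars_rename _ _).trans ?_
    intro x hx
    rw [mem_image] at hx
    obtain ⟨y, hy, rfl⟩ := hx
    exact hρr y ((h1 v).2 hy)
  · dsimp only
    have h4 := h3 ω hω
    rw [hev]
    have h5 : px c (ptr F J ω) (i + 1) = px c' (ptr F J ω) (i + 1) := by
      rw [px_succ, px_succ, hi]
    rw [h5]
    exact h4

/-- The thresholds of the affine labels for two orders of the other coordinates. -/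
theorem pa_perm {m : ℕ} {S : PCl m} (hS : S.Ne) {c c' : ℕ → Fin m} {i : ℕ} {p p' : ℝ → ℝ}
    (hp : AflOf S c i p) (hp' : AflOf S c' i p') {κ : ℕ → ℕ}
    (hκ : ∀ l < i, κ l < i ∧ c' l = c (κ l)) (hi : c' i = c i) {w : ℝ} (hw : 0 < w) (hw1 : w < 1)
    (hc : ContinuousAt p w) : p' w ≤ p w := by
  by_contra hcon
  push Not at hcon
  obtain ⟨h, hh⟩ : ∃ h, h = (p' w - p w) / 4 := ⟨_, rfl⟩
  have hh0 : 0 < h := by
    rw [hh]
    linarith
  obtain ⟨δ, hδ, hd⟩ := Metric.continuousAt_iff.1 hc h hh0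
  obtain ⟨w', e1, e2, e3⟩ : ∃ w', w < w' ∧ w' ≤ 1 ∧ w' < w + δ :=
    ⟨min 1 (w + δ / 2), lt_min hw1 (by linarith), min_le_left _ _,
      (min_le_right _ _).trans_lt (by linarith)⟩
  have h2 := hd (x := w') (by
    rw [Real.dist_eq, abs_lt]
    constructor <;> linarith)
  rw [Real.dist_eq, abs_lt] at h2
  have hp1 := hp'.up w
  have hpw : 0 ≤ p w := hp.low w
  have ha := hp'.att w h hw hw1.le hh0 (by linarith)
  have hn := hp.no w w' h hw.le e1 e2 hh0 (by linarith)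
  refine Clp.not_false hS (Clp.mono (J₂ := 0) ((ha.and hn).clp) ?_)
  rintro J - F A ⟨k1, k2⟩
  refine k2 (Pool.PM93.afl_anti (Nat.floor_le_floor ?_) (afl_perm hκ hi k1))
  exact mul_le_mul_of_nonneg_right (by linarith) (Nat.cast_nonneg J)

/-! ### The pairs of windows -/

/-- **The arrays**, as a hypothesis. -/
def ArrH : Prop := ∀ {c₀ : ℝ}, 0 < c₀ → ∀ {Cl : ℝ}, 0 ≤ Cl → ∀ D : ℕ, ∃ c₁ Ca : ℝ, 0 < c₁ ∧
  ∀ {S : PCl 4}, (∀ (τ : ℝ) (J : ℕ) (F : Fam 4 J) (A : F.Ω → Prop), S.St τ J F A →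
    F.Tr ∧ F.Tm (τ * J) ∧ F.Rb (τ * J) ∧ Real.exp (-(τ * J)) ≤ Pe F.p A) →
  (∀ (τ : ℝ) (J : ℕ) (F : Fam 4 J) (A : F.Ω → Prop), S.St τ J F A → Pool.GEN.Gd F) →
  ∀ {c : ℕ → Fin 4} {N : MNum} {K : ℕ} {y cc C s θ : ℝ}, 1 ≤ K → Ca ≤ C → 0 < s → 0 < θ →
  0 ≤ y → C * y ≤ s → C * (s + θ) ≤ N.fall → C * (s + θ) ≤ cc → 0 ≤ N.w0 → N.w0 ≤ N.w1 →
  N.w1 < 1 → N.w1 - N.w0 ≤ y → (∀ i < 3, N.g i < 1) → N.s = 0 → N.sl ≤ Cl * y →
  (∀ i < 2, N.g i ≤ N.β i + y) → N.w0 ≤ N.β 2 + y → (∀ i < 2, N.β i ≤ N.β 2 + y) →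
  (∀ ρ : ℝ, 0 < ρ → ExvY S N.w1 (fun J F ω (i : Fin 3) => F.X J ω (c i))
    ((∑ l ∈ range 3, (1 - N.g l)) - ρ)) →
  N.β 3 + cc ≤ N.P1 → (∀ i < 3, N.β i + N.fall + cc ≤ N.gN) → 0 ≤ N.sN → N.gN ≤ 1 →
  ArrS S c N K D s s θ C c₁ c₀

/-- A chart scale between `cD / 6` and `cD / 2`. -/
theorem tht_mid {cD : ℝ} (h0 : 0 < cD) (h1 : cD ≤ 1) : ∃ j, tht j < cD / 2 ∧ cD / 6 ≤ tht j := by
  refine ⟨⌊3 / cD⌋₊, ?_, ?_⟩
  · unfold tht
    have h2 := Nat.lt_floor_add_one (3 / cD)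
    have h3 : 0 < 3 / cD := by positivity
    rw [div_lt_iff₀ (by linarith)]
    have h4 : cD / 2 * (3 / cD) = 3 / 2 := by field_simp
    have h5 : cD / 2 * (3 / cD) < cD / 2 * ((⌊3 / cD⌋₊ : ℝ) + 2) :=
      mul_lt_mul_of_pos_left (by linarith) (by linarith)
    linarith
  · unfold tht
    have h2 := Nat.floor_le (show 0 ≤ 3 / cD by positivity)
    rw [le_div_iff₀ (by positivity)]
    have h3 : cD / 6 * (3 / cD) = 1 / 2 := by
      field_simp
      norm_num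
    have h4 : cD / 6 * (⌊3 / cD⌋₊ : ℝ) ≤ cD / 6 * (3 / cD) :=
      mul_le_mul_of_nonneg_left h2 (by linarith)
    linarith

section

variable {hn : 2 ≤ 4} {S : PCl 4} {P : ℝ → ℝ → ℝ} {r : ℝ → ℝ}
  {P' : ℕ → List (Fin 4) × Fin 4 → ℝ → ℝ → ℝ} {Λ : Finset (Fin 4) → Fin 4 → ℝ → ℝ → ℝ}
  {pa : Equiv.Perm (Fin (4 - 1)) → Fin 4 → ℝ → ℝ}

/-- The affine threshold of the last coordinate, in the order of another window. -/
theorem pa_top (H : PkA hn S P r P' Λ pa) {w₀ w₁ P1 cD α θ : ℝ}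
    {PP : List (Fin 4) × Fin 4 → ℝ → ℝ → ℝ} {c₁ : ℕ → Fin 4} (h0 : w₀ ∈ Wp P P' Λ pa)
    (h1 : Gwd P P' Λ w₁)
    (hT : TwoW hn S P r θ PP w₀ w₁ α (cc hn (ow Λ w₀)) c₁ P1 cD) :
    pa (ow Λ w₁) 3 w₀ ≤ P w₀ w₀ := by
  have hg := h0.1.1
  have h2 : pa (ow Λ w₀) 3 w₀ ≤ P w₀ w₀ := Pool.PM93.afl_two hT (H.afl (ow Λ w₀) 3)
  refine le_trans ?_ h2
  have z0 := cc_zero (hn := hn) hg
  have z1 := cc_zero (hn := hn) h1
  have z3 : cc hn (ow Λ w₁) 3 = cc hn (ow Λ w₀) 3 := by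
    rw [cc_ge hn _ (by norm_num), cc_ge hn _ (by norm_num)]
  have key : ∀ κ : ℕ → ℕ, (∀ l < 3, κ l < 3 ∧ cc hn (ow Λ w₁) l = cc hn (ow Λ w₀) (κ l)) →
      pa (ow Λ w₁) 3 w₀ ≤ pa (ow Λ w₀) 3 w₀ := fun κ hκ =>
    pa_perm H.ne (H.afl (ow Λ w₀) 3) (H.afl (ow Λ w₁) 3) hκ z3 hg.pos hg.lt (h0.2 _ _)
  rcases cc_mid (hn := hn) hg with ⟨x1, x2⟩ | ⟨x1, x2⟩ <;>
    rcases cc_mid (hn := hn) h1 with ⟨y1, y2⟩ | ⟨y1, y2⟩
  · refine key id fun l hl => ?_
    rcases (show l = 0 ∨ l = 1 ∨ l = 2 by omega) with rfl | rfl | rfl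
    · exact ⟨by norm_num, z1.trans z0.symm⟩
    · exact ⟨by norm_num, y1.trans x1.symm⟩
    · exact ⟨by norm_num, y2.trans x2.symm⟩
  · refine key (fun l => if l = 1 then 2 else if l = 2 then 1 else 0) fun l hl => ?_
    rcases (show l = 0 ∨ l = 1 ∨ l = 2 by omega) with rfl | rfl | rfl
    · exact ⟨by norm_num, z1.trans z0.symm⟩
    · exact ⟨by norm_num, y1.trans x2.symm⟩
    · exact ⟨by norm_num, y2.trans x1.symm⟩
  · refine key (fun l => if l = 1 then 2 else if l = 2 then 1 else 0) fun l hl => ?_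
    rcases (show l = 0 ∨ l = 1 ∨ l = 2 by omega) with rfl | rfl | rfl
    · exact ⟨by norm_num, z1.trans z0.symm⟩
    · exact ⟨by norm_num, y1.trans x2.symm⟩
    · exact ⟨by norm_num, y2.trans x1.symm⟩
  · refine key id fun l hl => ?_
    rcases (show l = 0 ∨ l = 1 ∨ l = 2 by omega) with rfl | rfl | rfl
    · exact ⟨by norm_num, z1.trans z0.symm⟩
    · exact ⟨by norm_num, y1.trans x1.symm⟩
    · exact ⟨by norm_num, y2.trans x2.symm⟩

/-- **The facts for the pairs of windows**, before the window at which the last row is reached. -/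
theorem pairU_of (hZ : ∀ k, 1 ≤ k → k < 4 → FZX k)
    (hM : ∀ k, 2 ≤ k → k < 4 → Mic k ∧ Sta k ∧ Jmp k) (hA : ArrH) (H : PkA hn S P r P' Λ pa)
    {u : ℝ} (hu : LastW P u) (hbad : BadR r) (hcon : ConT P u) : PairU hn S P r P' Λ pa u := by
  obtain ⟨hu0, hu1, hlt, -⟩ := hu
  have hTop : Pool.TOP.TopS 4 := Pool.TOP.tops_ind hZ hM
  have hF2 : FZX 2 := hZ 2 (by norm_num) (by norm_num)
  have hF : FZX (4 - 1) := hZ 3 (by norm_num) (by norm_num)
  obtain ⟨Dq, hM3⟩ := Pool.JPN.m3d_ex 3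
  intro η hη
  obtain ⟨al, g₀, s, d, e, K₀, Nc, hal, hg₀, hC⟩ := H.cl
  have hgd : ∀ (τ : ℝ) (J : ℕ) (F : Fam 4 J) (A : F.Ω → Prop), S.St τ J F A → Pool.GEN.Gd F :=
    fun τ J F A h => (hC.mem τ J F A h).2.2.2.2.1
  obtain ⟨Cl, hCl⟩ : ∃ Cl : ℝ, Cl = (Csl 3 3 : ℝ) := ⟨_, rfl⟩
  have hCl0 : 0 ≤ Cl := by
    rw [hCl]
    exact Nat.cast_nonneg _
  obtain ⟨ca, Ca, hca, hArr⟩ := hA (c₀ := η / 10) (by positivity) (Cl := Cl + 2) (by linarith) Dq
  obtain ⟨Ce, hCe⟩ : ∃ Ce : ℝ, Ce = (((4 : ℕ) : ℝ) + Dq) * Real.log 2 := ⟨_, rfl⟩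
  have hCe0 : 0 ≤ Ce := by
    rw [hCe]
    positivity
  obtain ⟨om, hom⟩ : ∃ om : ℝ, om = u / 2 := ⟨_, rfl⟩
  have hom0 : 0 < om := by
    rw [hom]
    linarith
  obtain ⟨C₀, hC₀, hpl⟩ := pl_T (al := al) hal hg₀ hom0 hCe0 (show 0 ≤ Cl + 2 by linarith) hη
  obtain ⟨C₂, hC₂⟩ : ∃ C₂ : ℝ, C₂ = (Cl + 10) / om := ⟨_, rfl⟩
  have hC₂0 : 0 < C₂ := by
    rw [hC₂]
    positivity
  have hC₂o : C₂ * om = Cl + 10 := by
    rw [hC₂]
    field_simp
  obtain ⟨Cp, hCp⟩ : ∃ Cp : ℝ, Cp = max (max C₀ Ca) C₂ := ⟨_, rfl⟩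
  have hCp0 : max C₀ Ca ≤ Cp := by
    rw [hCp]
    exact le_max_left _ _
  have hCp2 : C₂ ≤ Cp := by
    rw [hCp]
    exact le_max_right _ _
  have hCp1 : 2 ≤ Cp := hC₀.trans ((le_max_left _ _).trans hCp0)
  refine ⟨Cp, 2, om, hCp1, by norm_num, hom0, ?_⟩
  intro w₀ w₁ P1 cD h0 h1 hw0 huw hw1u hcD0 hT
  have hcD1 : cD ≤ 1 := by
    obtain ⟨j, hj⟩ := tht_ex (c := cD / 2) (by linarith)
    obtain ⟨α, hT'⟩ := hT j hj
    have k1 := hT'.αP
    have k2 := hT'.w0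
    have k3 := hT'.w01
    have k4 := hT'.w1α
    have k5 := Pool.TOP.q_le H.rate hT'.cD0 hT'.cD1
    linarith
  obtain ⟨j, hj, hj6⟩ := tht_mid hcD0 hcD1
  obtain ⟨α, hT⟩ := hT j hj
  have hg := h0.1.1
  have hg1 := h1.1.1
  have homw : om ≤ w₀ := by linarith
  have ha3 := pa_top H h0 hg1 hT
  obtain ⟨hN, hl0, hl1, hl2, htau, hnb⟩ := numT_of H hF2 hF h0 h1 hT hj ha3
  obtain ⟨vs, hvs⟩ : ∃ vs : ℝ, vs = vc Λ w₁ - vc Λ w₀ := ⟨_, rfl⟩
  obtain ⟨tp, htp⟩ : ∃ tp : ℝ, tp = nb Λ (ow Λ w₀) 2 w₀ := ⟨_, rfl⟩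
  obtain ⟨c, hc⟩ : ∃ c : ℕ → Fin 4, c = cc hn (ow Λ w₁) := ⟨_, rfl⟩
  obtain ⟨b0, hb0⟩ : ∃ b0 : ℕ → ℝ, b0 = fun i => bet (P' j) c i w₀ w₀ := ⟨_, rfl⟩
  obtain ⟨b1, hb1⟩ : ∃ b1 : ℕ → ℝ, b1 = fun i => bet (P' j) c i w₁ w₁ := ⟨_, rfl⟩
  obtain ⟨p2, hp2⟩ : ∃ p2 : ℝ → ℝ, p2 = pa (ow Λ w₁) 2 := ⟨_, rfl⟩
  obtain ⟨p3, hp3⟩ : ∃ p3 : ℝ → ℝ, p3 = pa (ow Λ w₁) 3 := ⟨_, rfl⟩
  have hN' : NumT w₀ w₁ (P w₀ w₀) P1 cD b0 b1 (p2 w₀) (p3 w₀) tp vs := by
    rw [hb0, hb1, hc, hp2, hp3, htp, hvs]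
    exact hN
  have n0 := hN'.w00
  have n1 := hN'.w01
  have n2 := hN'.s01
  have n3 := hN'.s02
  have n3' := hN'.s0w
  have n4 := hN'.s11
  have n5 := hN'.s12
  have n6 := hN'.t1
  have n8 := hN'.m2
  have n9 := hN'.b10
  have n10 := hN'.b00
  have n11 := hN'.m1
  have n11' := hN'.m1v
  have n13 := hN'.a2l
  have n14 := hN'.a2w
  have n15 := hN'.P1c
  have n16 := hN'.wP
  have n17 := hN'.Pc
  have n18 := hN'.a3l
  have n19 := hN'.a3u
  have n20 := hN'.vs0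
  have n21 := hN'.t0
  have w1lt := hN'.w1lt
  obtain ⟨y, hy⟩ : ∃ y : ℝ, y = 2 * (u - w₀) + vs := ⟨_, rfl⟩
  have hy0 : 0 < y := by linarith
  have hvx := vxG H.toPk hF hg hg1 n1.le
  have hb12 : b1 2 = nb Λ (ow Λ w₁) 2 w₁ := by
    rw [hb1, hc]
    exact hl2
  obtain ⟨mt, hmt⟩ : ∃ mt : ℝ, mt = b1 2 - tp := ⟨_, rfl⟩
  obtain ⟨mv, hmv⟩ : ∃ mv : ℝ, mv = max (b1 2 - p2 w₀) mt := ⟨_, rfl⟩
  obtain ⟨s0, hs0⟩ : ∃ s0 : ℝ, s0 = (Cl + 2) * y := ⟨_, rfl⟩
  have hex1 : ∀ ρ : ℝ, 0 < ρ → ExvY S w₁ (fun J F ω (i : Fin 3) => F.X J ω (c i))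
      ((∑ l ∈ range 3, (1 - b1 l)) - ρ) := by
    rw [hb1, hc]
    exact fun ρ hρ => hT.ex1 ρ hρ
  have haf3 : AflOf S c 3 p3 := by
    rw [hc, hp3]
    exact H.afl _ 3
  have hc3 : ContinuousAt p3 w₀ := by
    rw [hp3]
    exact h0.2 _ _
  refine ⟨c, (mnum w₀ w₁ P1 cD s0 b0 b1 (p2 w₀) (p3 w₀)).β, y, mv, mt,
    (∑ l ∈ range 3, (1 - b1 l)) - (w₁ - w₀), ?_, ?_, ?_⟩
  · refine ⟨?_, ?_, hex1 _ (by linarith), ?_, ?_, ?_, hy0.le, ?_, ?_, ?_⟩
    · rw [hc]
      exact cc_ge hn _ (by norm_num)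
    · intro k hk
      rw [hc, cc_ge hn _ (show 4 - 1 ≤ 3 by norm_num)] at hk
      obtain ⟨l, hl, he⟩ := cc_all hn (ow Λ w₁) hk
      rw [hc]
      exact ⟨⟨l, hl⟩, he⟩
    · show 0 ≤ p3 w₀
      linarith
    · exact n19
    · show ∀ h₀ : ℝ, 0 < h₀ → Bas S (fun J F A => ∀ P : ℕ, (p3 w₀ + h₀) * J ≤ P → P ≤ J →
        ¬ Afl F c 3 ⌊w₀ * J⌋₊ P A)
      exact fun h₀ hh => haf3.non hc3 n0.le (by linarith) h₀ hh
    · rw [hmv]
      exact le_max_right _ _
    · rw [Finset.sum_range_succ, Finset.sum_range_succ, Finset.sum_range_one,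
        Finset.sum_range_succ, Finset.sum_range_succ, Finset.sum_range_one]
      show (1 - b0 0) + (1 - b0 1) + (1 - p2 w₀) - mv - y ≤
        (1 - b1 0) + (1 - b1 1) + (1 - b1 2) - (w₁ - w₀)
      have k1 : b1 2 - p2 w₀ ≤ mv := by
        rw [hmv]
        exact le_max_left _ _
      linarith
    · -- the arrays
      rcases lt_or_ge (min (cD / 16) mt) (Cp * Cp * y) with hbig | hsmall
      · exact pln_vac (by linarith) hbig
      have hsm : Cp * Cp * y ≤ cD / 16 := hsmall.trans (min_le_left _ _)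
      have hCy : (Cl + 10) * y ≤ cD / 16 * om := by
        have k1 : C₂ * y ≤ Cp * Cp * y := by
          refine mul_le_mul_of_nonneg_right ?_ hy0.le
          nlinarith
        have k2 : C₂ * y * om ≤ cD / 16 * om := mul_le_mul_of_nonneg_right (by linarith) hom0.le
        have k3 : C₂ * y * om = (Cl + 10) * y := by
          rw [← hC₂o]
          ring
        linarith
      have hθw : cD / 6 * om ≤ tht j * w₀ := mul_le_mul hj6 homw hom0.le (tht_pos j).le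
      have hpo : 0 < cD * om := mul_pos hcD0 hom0
      have hom1 : om ≤ 1 := by linarith
      have hpo1 : cD * om ≤ cD := mul_le_of_le_one_right hcD0.le hom1
      have hCly : 0 ≤ Cl * y := mul_nonneg hCl0 hy0.le
      have hvy : vs ≤ y := by linarith
      have hClv : Cl * vs ≤ Cl * y := mul_le_mul_of_nonneg_left hvy hCl0
      have hCT : CT S c al g₀ Nc (tht j) (P' j) w₀ w₁ b0 b1 tp p2 p3 := by
        rw [hb0, hb1, hc, hp2, hp3, htp]
        exact ct_of H hF2 hF hC h0 h1 hT hN hl0 hl1 hnb (by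
          rw [← hvs]
          linarith)
      have htau1 : bet (P' j) c 1 w₀ w₀ ≤ tau (P' j) c 1 2 w₀ w₀ + vs := by
        rw [hc, hvs]
        exact htau
      have hlowt : ∀ l i, w₀ ≤ tau (P' j) c l i w₀ w₀ := fun l i =>
        (H.cht j).low _ _ _ hg.pos.le le_rfl hg.lt.le
      have be0 : bet (P' j) c 0 w₀ w₀ = b0 0 := by rw [hb0]
      have be1 : bet (P' j) c 1 w₀ w₀ = b0 1 := by rw [hb0]
      have be2 : bet (P' j) c 2 w₀ w₀ = b0 2 := by rw [hb0]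
      have hθ1 : tht j * w₀ ≤ tht j := mul_le_of_le_one_right (tht_pos j).le hg.lt.le
      have hTc : TwoW hn S P r (tht j) (P' j) w₀ w₁ α (cc hn (ow Λ w₀)) c P1 cD := by
        rw [hc]
        exact hT
      obtain ⟨K, hK, hL⟩ := Pool.JPN.labN_str (N := mnum w₀ w₁ P1 cD s0 b0 b1 (p2 w₀) (p3 w₀))
        hM3 hTc (vs := vs) (e := (Cl + 1) * y)
        ⟨n0, n1, w1lt, rfl, by
          show 0 ≤ s0
          rw [hs0]
          positivity, fun l hl => by
          show w₁ ≤ b1 l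
          rcases (show l = 0 ∨ l = 1 ∨ l = 2 by omega) with rfl | rfl | rfl <;> linarith,
          fun l hl => by
          show w₀ ≤ (if l = 2 then b0 2 + s0 else b0 l)
          rw [if_neg (by omega)]
          rcases (show l = 0 ∨ l = 1 by omega) with rfl | rfl <;> linarith,
          fun l hl => by
          show b1 l ≤ b1 2
          rcases (show l = 0 ∨ l = 1 by omega) with rfl | rfl <;> linarith,
          fun l hl => by
          show (if l = 2 then b0 2 + s0 else b0 l) < (if 2 = 2 then b0 2 + s0 else b0 2)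
          rw [if_neg (by omega), if_pos rfl, hs0]
          rcases (show l = 0 ∨ l = 1 by omega) with rfl | rfl <;> linarith,
          by show b1 2 < 1
             linarith, fun l hl => by
          show b1 l < 1 - cD / 2
          rcases (show l = 0 ∨ l = 1 ∨ l = 2 by omega) with rfl | rfl | rfl <;> linarith,
          by show w₁ ≤ 1 - cD / 2
             linarith,
          by show 0 ≤ 1 - cD / 2 - P1
             linarith⟩ rfl rfl
        (fun l hl => by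
          show (if l = 2 then b0 2 + s0 else b0 l) = bet (P' j) c l w₀ w₀
          rw [if_neg (by omega), hb0])
        (by show b0 2 + s0 = bet (P' j) c 2 w₀ w₀ + s0
            rw [hb0])
        (fun l hl => by
          show b1 l = bet (P' j) c l w₁ w₁
          rw [hb1]) rfl rfl
        (by rw [be0, n10]; exact hlowt 0 1)
        (by rw [be0, be1]; linarith)
        (fun l hl => by
          rcases (show l = 0 ∨ l = 1 by omega) with rfl | rfl
          · rw [be0, n10]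
            have := hlowt 0 2
            linarith
          · exact htau1)
        (fun l hl => by
          rcases (show l = 0 ∨ l = 1 ∨ l = 2 by omega) with rfl | rfl | rfl
          · rw [be0]
            linarith
          · rw [be1]
            linarith
          · rw [be2]
            linarith)
        n20 (by rw [← hCl]; linarith) (by linarith)
        (by show (Cl + 1) * y + vs ≤ s0
            rw [hs0]
            linarith)
        (by rw [be2]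
            show b0 2 + s0 ≤ 1
            rw [hs0]
            linarith)
        (fun ρ hρ => by
          have k1 := hCT.ey0 ρ hρ
          rw [Finset.sum_range_succ, Finset.sum_range_one] at k1 ⊢
          rw [be0, be1]
          exact k1)
      obtain ⟨k1, k2⟩ := top_T hCT hN' rfl hL
      have hmv' : mv = b1 2 - p2 w₀ := by
        rw [hmv, hmt]
        exact max_eq_left (by linarith)
      have hH2 : H2S S w₀ w₁ (Ce * (u - w₀)) := by
        rw [hCe]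
        exact Pool.NJ34.h2_below hM3 H.toPk hF hTop hu1 hlt hcon (fun Q h2 h3 => by
          have := hbad Q h2 h3
          unfold Pool.PM.nfr at this
          linarith) n0.le n1.le hw1u
      have key := hpl hCT hN' homw hj6 (y := y) (e := Ce * (u - w₀)) (s0 := s0) (by linarith) hvy
        (by rw [hs0]; linarith) (by rw [hs0]) hH2 (mul_nonneg hCe0 (by linarith))
        (mul_le_mul_of_nonneg_left (by linarith) hCe0) hK hca hL (Ca := Ca)
        (fun C s' θ' hc1 hs' hθ' g1 g2 g3 => ?_) Cp hCp0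
      · rw [hmv', hmt]
        exact key
      · have m1 : C * (s' + θ') ≤ cD / 16 := g3.trans (min_le_left _ _)
        have hy1 : y ≤ cD / 16 := by
          have h5 : 1 * y ≤ (Cl + 10) * y := mul_le_mul_of_nonneg_right (by linarith) hy0.le
          have h6 : cD / 16 * om ≤ cD / 16 := mul_le_of_le_one_right (by linarith) hom1
          linarith
        refine hArr hCT.mem hgd (N := mnum w₀ w₁ P1 cD s0 b0 b1 (p2 w₀) (p3 w₀)) (y := y)
          (cc := cD / 16) hK hc1 hs' hθ' hy0.le g1 (by rw [mnum_fall]; exact g2) m1 n0.le n1.le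
          w1lt (show w₁ - w₀ ≤ y by linarith) (fun i hi => ?_) rfl
          (show s0 ≤ (Cl + 2) * y by rw [hs0]) (fun i hi => ?_)
          (show w₀ ≤ p2 w₀ + y by linarith) (fun i hi => ?_) hex1
          (by rw [mnum_P1]
              show p3 w₀ + cD / 16 ≤ P1
              linarith) (fun i hi => ?_) (show 0 ≤ 1 - cD / 2 - P1 by linarith)
          (show 1 - cD / 2 ≤ 1 by linarith)
        · show b1 i < 1
          rcases (show i = 0 ∨ i = 1 ∨ i = 2 by omega) with rfl | rfl | rfl <;> linarith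
        · rcases (show i = 0 ∨ i = 1 by omega) with rfl | rfl
          · show b1 0 ≤ b0 0 + y
            linarith
          · show b1 1 ≤ b0 1 + y
            linarith
        · rcases (show i = 0 ∨ i = 1 by omega) with rfl | rfl
          · show b0 0 ≤ p2 w₀ + y
            linarith
          · show b0 1 ≤ p2 w₀ + y
            linarith
        · rw [mnum_fall]
          rcases (show i = 0 ∨ i = 1 ∨ i = 2 by omega) with rfl | rfl | rfl
          · show b0 0 + (b1 2 - p2 w₀) + cD / 16 ≤ 1 - cD / 2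
            linarith
          · show b0 1 + (b1 2 - p2 w₀) + cD / 16 ≤ 1 - cD / 2
            linarith
          · show p2 w₀ + (b1 2 - p2 w₀) + cD / 16 ≤ 1 - cD / 2
            linarith
  · rw [← hb12, ← hvs, ← htp] at hvx
    linarith
  · rw [← hvs]
    linarith

end

end Pool.PM49
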